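import Mathlib

/-!
# Stolz' theorem, summation by parts, and sums of powers times powers of logarithms
-/

set_option autoImplicit false

namespace Pool.Agent.Q106.GMM

open Finset Filter Asymptotics
open scoped Topology

theorem lg : Tendsto (fun x : ℕ => Real.log (x : ℝ)) atTop atTop :=
  Real.tendsto_log_atTop.comp tendsto_natCast_atTop_atTop

/-- Stolz' theorem. -/
theorem stolz {u v : ℕ → ℝ} {c : ℝ} (hu : ∀ᶠ n in atTop, 0 < u n) (hU : Tendsto (fun N => ∑ n ∈ range N, u n) atTop atTop)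
    (h : Tendsto (fun n => v n / u n) atTop (𝓝 c)) :
    Tendsto (fun N => (∑ n ∈ range N, v n) / ∑ n ∈ range N, u n) atTop (𝓝 c) := by
  rw [Metric.tendsto_atTop]
  intro ε hε
  have h1 := (Metric.tendsto_nhds.1 h) (ε / 2) (by positivity)
  obtain ⟨n₀, hn₀⟩ := eventually_atTop.1 (h1.and hu)
  obtain ⟨C, hC⟩ : ∃ C, C = |∑ n ∈ range n₀, (v n - c * u n)| + (ε / 2) * |∑ n ∈ range n₀, u n| := ⟨_, rfl⟩
  obtain ⟨N₁, hN₁⟩ := eventually_atTop.1 ((hU.eventually_gt_atTop (2 * C / ε)).and (hU.eventually_gt_atTop 0))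
  refine ⟨max n₀ N₁, fun N hN => ?_⟩
  obtain ⟨h2, h3⟩ := hN₁ N (le_of_max_le_right hN)
  have hNn : n₀ ≤ N := le_of_max_le_left hN
  rw [Real.dist_eq]
  have h4 : (∑ n ∈ range N, v n) / (∑ n ∈ range N, u n) - c = (∑ n ∈ range N, (v n - c * u n)) / ∑ n ∈ range N, u n := by
    rw [sum_sub_distrib, ← mul_sum]
    field_simp
  rw [h4, abs_div, abs_of_pos h3, div_lt_iff₀ h3]
  rw [← sum_range_add_sum_Ico _ hNn]
  have h5 : |∑ n ∈ Ico n₀ N, (v n - c * u n)| ≤ (ε / 2) * ∑ n ∈ Ico n₀ N, u n := by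
    refine (abs_sum_le_sum_abs _ _).trans ?_
    rw [mul_sum]
    refine sum_le_sum (fun n hn => ?_)
    rw [mem_Ico] at hn
    obtain ⟨h6, h7⟩ := hn₀ n hn.1
    rw [Real.dist_eq] at h6
    have h8 : v n - c * u n = (v n / u n - c) * u n := by field_simp
    rw [h8, abs_mul, abs_of_pos h7]
    exact mul_le_mul_of_nonneg_right h6.le h7.le
  have h6 : ∑ n ∈ range N, u n = ∑ n ∈ range n₀, u n + ∑ n ∈ Ico n₀ N, u n := (sum_range_add_sum_Ico _ hNn).symm
  have h7 := abs_add_le (∑ n ∈ range n₀, (v n - c * u n)) (∑ n ∈ Ico n₀ N, (v n - c * u n))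
  have h8 : (ε / 2) * ∑ n ∈ Ico n₀ N, u n ≤ (ε / 2) * ∑ n ∈ range N, u n + (ε / 2) * |∑ n ∈ range n₀, u n| := by
    rw [h6]
    have := neg_abs_le (∑ n ∈ range n₀, u n)
    nlinarith
  have h9 : C < (ε / 2) * ∑ n ∈ range N, u n := by
    rw [div_lt_iff₀ hε] at h2
    linarith
  linarith

theorem abel {b f w : ℕ → ℝ} (hf : ∀ n, 0 ≤ f n) (hw : Antitone w) (hw0 : ∀ n, 0 ≤ w n) {c : ℝ}
    (hB : Tendsto (fun N => (∑ n ∈ range N, b n) / ∑ n ∈ range N, f n) atTop (𝓝 c))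
    (hF : ∀ᶠ N in atTop, 0 < ∑ n ∈ range N, f n) {ε : ℝ} (hε : 0 < ε) :
    ∃ C : ℝ, ∀ N, |∑ n ∈ range N, (b n - c * f n) * w n| ≤ ε * (∑ n ∈ range N, f n * w n) + C := by
  obtain ⟨D, hD⟩ : ∃ D : ℕ → ℝ, D = fun N => ∑ n ∈ range N, (b n - c * f n) := ⟨_, rfl⟩
  obtain ⟨F, hFd⟩ : ∃ F : ℕ → ℝ, F = fun N => ∑ n ∈ range N, f n := ⟨_, rfl⟩
  have parts : ∀ (x : ℕ → ℝ) (N : ℕ), ∑ n ∈ range N, x n * w n = (∑ n ∈ range N, x n) * w N +
      ∑ n ∈ range N, (∑ k ∈ range (n + 1), x k) * (w n - w (n + 1)) := by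
    intro x N
    induction N with
    | zero => simp
    | succ N ih =>
      rw [sum_range_succ, ih, sum_range_succ _ N, sum_range_succ (fun n => (∑ k ∈ range (n + 1), x k) * (w n - w (n + 1))) N,
        sum_range_succ x N]
      ring
  have hF0 : ∀ N, 0 ≤ F N := fun N => by rw [hFd]; exact sum_nonneg (fun n _ => hf n)
  obtain ⟨n₀, hn₀⟩ : ∃ n₀, ∀ n ≥ n₀, |D n| ≤ ε * F n := by
    have h1 := (Metric.tendsto_nhds.1 hB) ε hε
    obtain ⟨n₀, hn₀⟩ := eventually_atTop.1 (h1.and hF)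
    refine ⟨n₀, fun n hn => ?_⟩
    obtain ⟨h2, h3⟩ := hn₀ n hn
    rw [Real.dist_eq] at h2
    have h4 : D n = ((∑ k ∈ range n, b k) / (∑ k ∈ range n, f k) - c) * F n := by
      rw [hD, hFd]
      simp only
      rw [sum_sub_distrib, ← mul_sum]
      field_simp
    rw [h4, abs_mul, abs_of_nonneg (hF0 n)]
    exact mul_le_mul_of_nonneg_right h2.le (hF0 n)
  -- the constant
  obtain ⟨M, hM⟩ : ∃ M : ℝ, ∀ n, |D n| ≤ ε * F n + M ∧ (n₀ ≤ n → |D n| ≤ ε * F n) := by
    refine ⟨∑ n ∈ range n₀, |D n|, fun n => ⟨?_, fun hn => hn₀ n hn⟩⟩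
    have hpos : 0 ≤ ∑ n ∈ range n₀, |D n| := sum_nonneg (fun _ _ => abs_nonneg _)
    by_cases hn : n₀ ≤ n
    · linarith [hn₀ n hn]
    · have h1 : |D n| ≤ ∑ n ∈ range n₀, |D n| :=
        single_le_sum (f := fun n => |D n|) (fun i _ => abs_nonneg _) (mem_range.2 (by omega))
      have h2 : 0 ≤ ε * F n := mul_nonneg hε.le (hF0 n)
      linarith
  have hM0 : 0 ≤ max M 0 := le_max_right _ _
  refine ⟨max M 0 * w 0 + max M 0 * ∑ n ∈ range n₀, (w n - w (n + 1)), fun N => ?_⟩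
  have hwd : ∀ n, 0 ≤ w n - w (n + 1) := fun n => by linarith [hw (Nat.le_succ n)]
  rw [parts (fun n => b n - c * f n) N, parts f N]
  have e1 : |D N * w N| ≤ ε * (F N * w N) + max M 0 * w 0 := by
    rw [abs_mul, abs_of_nonneg (hw0 N)]
    have h1 : |D N| * w N ≤ (ε * F N + max M 0) * w N :=
      mul_le_mul_of_nonneg_right ((hM N).1.trans (by linarith [le_max_left M 0])) (hw0 N)
    have h2 : max M 0 * w N ≤ max M 0 * w 0 := mul_le_mul_of_nonneg_left (hw (Nat.zero_le N)) hM0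
    linarith
  have e2 : |∑ n ∈ range N, D (n + 1) * (w n - w (n + 1))| ≤ ε * (∑ n ∈ range N, F (n + 1) * (w n - w (n + 1))) +
      max M 0 * ∑ n ∈ range n₀, (w n - w (n + 1)) := by
    refine (abs_sum_le_sum_abs _ _).trans ?_
    have h1 : ∀ n ∈ range N, |D (n + 1) * (w n - w (n + 1))| ≤ ε * (F (n + 1) * (w n - w (n + 1))) +
        (if n < n₀ then max M 0 * (w n - w (n + 1)) else 0) := by
      intro n _
      rw [abs_mul, abs_of_nonneg (hwd n)]
      by_cases hn : n < n₀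
      · rw [if_pos hn]
        have := mul_le_mul_of_nonneg_right ((hM (n + 1)).1.trans (show ε * F (n + 1) + M ≤ ε * F (n + 1) + max M 0 by
          linarith [le_max_left M 0])) (hwd n)
        linarith
      · rw [if_neg hn, add_zero]
        have := mul_le_mul_of_nonneg_right ((hM (n + 1)).2 (by omega)) (hwd n)
        linarith
    refine (sum_le_sum h1).trans ?_
    rw [sum_add_distrib, ← mul_sum]
    have h2 : ∑ n ∈ range N, (if n < n₀ then max M 0 * (w n - w (n + 1)) else 0) ≤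
        max M 0 * ∑ n ∈ range n₀, (w n - w (n + 1)) := by
      rw [← sum_filter, mul_sum]
      refine sum_le_sum_of_subset_of_nonneg (fun n hn => ?_) (fun n _ _ => mul_nonneg hM0 (hwd n))
      rw [mem_filter] at hn
      exact mem_range.2 hn.2
    linarith
  have h3 := abs_add_le (D N * w N) (∑ n ∈ range N, D (n + 1) * (w n - w (n + 1)))
  have h4 : (∑ n ∈ range N, (b n - c * f n)) * w N + ∑ n ∈ range N, (∑ k ∈ range (n + 1), (b k - c * f k)) * (w n - w (n + 1)) =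
      D N * w N + ∑ n ∈ range N, D (n + 1) * (w n - w (n + 1)) := by rw [hD]
  have h5 : (∑ n ∈ range N, f n) * w N + ∑ n ∈ range N, (∑ k ∈ range (n + 1), f k) * (w n - w (n + 1)) =
      F N * w N + ∑ n ∈ range N, F (n + 1) * (w n - w (n + 1)) := by rw [hFd]
  rw [h4, h5]
  linarith

/-- Weighted sums, divergent case. -/
theorem abel_div {b f w : ℕ → ℝ} (hf : ∀ n, 0 ≤ f n) (hw : Antitone w) (hw0 : ∀ n, 0 ≤ w n) {c : ℝ}
    (hB : Tendsto (fun N => (∑ n ∈ range N, b n) / ∑ n ∈ range N, f n) atTop (𝓝 c))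
    (hF : ∀ᶠ N in atTop, 0 < ∑ n ∈ range N, f n) (hV : Tendsto (fun N => ∑ n ∈ range N, f n * w n) atTop atTop) :
    Tendsto (fun N => (∑ n ∈ range N, b n * w n) / ∑ n ∈ range N, f n * w n) atTop (𝓝 c) := by
  rw [Metric.tendsto_atTop]
  intro ε hε
  obtain ⟨C, hC⟩ := abel hf hw hw0 hB hF (show 0 < ε / 2 by positivity)
  obtain ⟨N₁, hN₁⟩ := eventually_atTop.1 ((hV.eventually_gt_atTop (2 * C / ε)).and (hV.eventually_gt_atTop 0))
  refine ⟨N₁, fun N hN => ?_⟩
  obtain ⟨h2, h3⟩ := hN₁ N hN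
  rw [Real.dist_eq]
  have h4 : (∑ n ∈ range N, b n * w n) / (∑ n ∈ range N, f n * w n) - c =
      (∑ n ∈ range N, (b n - c * f n) * w n) / ∑ n ∈ range N, f n * w n := by
    have h5 : ∑ n ∈ range N, (b n - c * f n) * w n = ∑ n ∈ range N, b n * w n - c * ∑ n ∈ range N, f n * w n := by
      rw [mul_sum, ← sum_sub_distrib]
      exact sum_congr rfl (fun n _ => by ring)
    rw [h5]
    field_simp
  rw [h4, abs_div, abs_of_pos h3, div_lt_iff₀ h3]
  have h5 := hC N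
  rw [div_lt_iff₀ hε] at h2
  linarith

/-- Weighted sums, convergent case. -/
theorem abel_conv {b f w : ℕ → ℝ} (hb : ∀ n, 0 ≤ b n) (hf : ∀ n, 0 ≤ f n) (hw : Antitone w) (hw0 : ∀ n, 0 ≤ w n) {c : ℝ}
    (hB : Tendsto (fun N => (∑ n ∈ range N, b n) / ∑ n ∈ range N, f n) atTop (𝓝 c))
    (hF : ∀ᶠ N in atTop, 0 < ∑ n ∈ range N, f n) (hV : Summable (fun n => f n * w n)) :
    Summable (fun n => b n * w n) := by
  obtain ⟨C, hC⟩ := abel hf hw hw0 hB hF one_pos
  refine summable_of_sum_range_le (c := (|c| + 1) * (∑' n, f n * w n) + C) (fun n => mul_nonneg (hb n) (hw0 n)) (fun N => ?_)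
  have h1 := hC N
  have h2 : ∑ n ∈ range N, f n * w n ≤ ∑' n, f n * w n :=
    hV.sum_le_tsum _ (fun n _ => mul_nonneg (hf n) (hw0 n))
  have h3 : 0 ≤ ∑ n ∈ range N, f n * w n := sum_nonneg (fun n _ => mul_nonneg (hf n) (hw0 n))
  have h5 : ∑ n ∈ range N, (b n - c * f n) * w n = ∑ n ∈ range N, b n * w n - c * ∑ n ∈ range N, f n * w n := by
    rw [mul_sum, ← sum_sub_distrib]
    exact sum_congr rfl (fun n _ => by ring)
  rw [h5] at h1
  have h6 := (abs_le.1 h1).2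
  have h7 : c * ∑ n ∈ range N, f n * w n ≤ |c| * ∑ n ∈ range N, f n * w n := mul_le_mul_of_nonneg_right (le_abs_self c) h3
  have h8 : (|c| + 1) * ∑ n ∈ range N, f n * w n ≤ (|c| + 1) * ∑' n, f n * w n :=
    mul_le_mul_of_nonneg_left h2 (by positivity)
  linarith

/-- The comparison function. -/
noncomputable def UU (r q : ℝ) (t : ℝ) : ℝ := t ^ r * Real.log t ^ q

theorem UU_deriv (r q : ℝ) {t : ℝ} (ht : 1 < t) :
    HasDerivAt (UU r q) (t ^ (r - 1) * Real.log t ^ (q - 1) * (r * Real.log t + q)) t := by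
  have ht0 : 0 < t := by linarith
  have hl : 0 < Real.log t := Real.log_pos ht
  have h1 : HasDerivAt (fun t : ℝ => t ^ r) (r * t ^ (r - 1)) t := Real.hasDerivAt_rpow_const (Or.inl ht0.ne')
  have h2 : HasDerivAt (fun t : ℝ => Real.log t ^ q) (t⁻¹ * q * Real.log t ^ (q - 1)) t := by
    have := (Real.hasDerivAt_log ht0.ne').rpow_const (p := q) (Or.inl hl.ne')
    exact this
  have h3 := h1.mul h2
  refine h3.congr_deriv ?_
  have h4 : t ^ r = t ^ (r - 1) * t := by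
    rw [Real.rpow_sub_one ht0.ne']
    field_simp
  have h5 : Real.log t ^ q = Real.log t ^ (q - 1) * Real.log t := by
    rw [Real.rpow_sub_one hl.ne']
    field_simp
  rw [h4, h5]
  field_simp

/-- The increments of the comparison function. -/
theorem UU_diff (r q : ℝ) : ∃ ξ : ℕ → ℝ, (∀ᶠ n : ℕ in atTop, (n : ℝ) < ξ n ∧ ξ n < n + 1) ∧
    ∀ᶠ n : ℕ in atTop, UU r q ((n + 1 : ℕ) : ℝ) - UU r q n =
      ξ n ^ (r - 1) * Real.log (ξ n) ^ (q - 1) * (r * Real.log (ξ n) + q) := by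
  have h1 : ∀ n : ℕ, 2 ≤ n → ∃ c : ℝ, (n : ℝ) < c ∧ c < n + 1 ∧ UU r q ((n + 1 : ℕ) : ℝ) - UU r q n =
      c ^ (r - 1) * Real.log c ^ (q - 1) * (r * Real.log c + q) := by
    intro n hn
    have hn' : (2 : ℝ) ≤ n := by exact_mod_cast hn
    obtain ⟨c, hc, hc2⟩ := exists_hasDerivAt_eq_slope (UU r q)
      (fun t => t ^ (r - 1) * Real.log t ^ (q - 1) * (r * Real.log t + q)) (a := (n : ℝ)) (b := (n : ℝ) + 1) (by linarith)
      (fun t ht => (UU_deriv r q (by linarith [ht.1])).continuousAt.continuousWithinAt)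
      (fun t ht => UU_deriv r q (by linarith [ht.1]))
    refine ⟨c, hc.1, hc.2, ?_⟩
    rw [hc2]
    push_cast
    rw [add_sub_cancel_left, div_one]
  choose! ξ h2 h3 h4 using h1
  refine ⟨ξ, ?_, ?_⟩
  · filter_upwards [eventually_ge_atTop 2] with n hn
    exact ⟨h2 n hn, h3 n hn⟩
  · filter_upwards [eventually_ge_atTop 2] with n hn
    exact h4 n hn

theorem xi_ratio {ξ : ℕ → ℝ} (h : ∀ᶠ n : ℕ in atTop, (n : ℝ) < ξ n ∧ ξ n < n + 1) :
    Tendsto (fun n => ξ n / n) atTop (𝓝 1) ∧ Tendsto (fun n => Real.log (ξ n) / Real.log n) atTop (𝓝 1) ∧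
    Tendsto (fun n => Real.log (ξ n)) atTop atTop := by
  have h1 : Tendsto (fun n : ℕ => 1 + 1 / (n : ℝ)) atTop (𝓝 (1 + 0)) :=
    tendsto_const_nhds.add tendsto_one_div_atTop_nhds_zero_nat
  rw [add_zero] at h1
  have h2 : Tendsto (fun n => ξ n / n) atTop (𝓝 1) := by
    refine tendsto_of_tendsto_of_tendsto_of_le_of_le' tendsto_const_nhds h1 ?_ ?_
    · filter_upwards [h, eventually_ge_atTop 1] with n hn hn1
      have : (0 : ℝ) < n := by exact_mod_cast hn1
      rw [le_div_iff₀ this]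
      linarith [hn.1]
    · filter_upwards [h, eventually_ge_atTop 1] with n hn hn1
      have : (0 : ℝ) < n := by exact_mod_cast hn1
      rw [div_le_iff₀ this]
      field_simp
      linarith [hn.2]
  have h3 : Tendsto (fun n => Real.log (ξ n)) atTop atTop := by
    refine tendsto_atTop_mono' _ ?_ lg
    filter_upwards [h, eventually_ge_atTop 1] with n hn hn1
    have : (0 : ℝ) < n := by exact_mod_cast hn1
    exact Real.log_le_log this hn.1.le
  refine ⟨h2, ?_, h3⟩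
  have h4 : Tendsto (fun n : ℕ => 1 + Real.log (ξ n / n) / Real.log n) atTop (𝓝 (1 + 0)) := by
    refine tendsto_const_nhds.add ?_
    have h5 : Tendsto (fun n => Real.log (ξ n / n)) atTop (𝓝 (Real.log 1)) :=
      (Real.continuousAt_log one_ne_zero).tendsto.comp h2
    exact h5.div_atTop lg
  rw [add_zero] at h4
  refine h4.congr' ?_
  filter_upwards [h, eventually_ge_atTop 2] with n hn hn1
  have hn0 : (2 : ℝ) ≤ n := by exact_mod_cast hn1
  have hl : 0 < Real.log (n : ℝ) := Real.log_pos (by linarith)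
  rw [Real.log_div (by linarith [hn.1]) (by linarith)]
  field_simp
  ring

/-- The increments, `r > 0`. -/
theorem inc_pos {r : ℝ} (hr : 0 < r) (q : ℝ) :
    Tendsto (fun n : ℕ => (UU r q ((n + 1 : ℕ) : ℝ) - UU r q n) / ((n : ℝ) ^ (r - 1) * Real.log n ^ q)) atTop (𝓝 r) := by
  obtain ⟨ξ, h1, h2⟩ := UU_diff r q
  obtain ⟨h3, h4, h5⟩ := xi_ratio h1
  have h6 : Tendsto (fun n : ℕ => (ξ n / n) ^ (r - 1) * (Real.log (ξ n) / Real.log n) ^ q * (r + q / Real.log (ξ n))) atTop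
      (𝓝 (1 ^ (r - 1) * 1 ^ q * (r + 0))) := by
    refine Tendsto.mul (Tendsto.mul (h3.rpow_const (Or.inl one_ne_zero)) (h4.rpow_const (Or.inl one_ne_zero))) ?_
    exact tendsto_const_nhds.add (h5.const_div_atTop q)
  rw [Real.one_rpow, Real.one_rpow, one_mul, one_mul, add_zero] at h6
  refine h6.congr' ?_
  filter_upwards [h1, h2, eventually_ge_atTop 2] with n hn hn2 hn3
  have hn0 : (2 : ℝ) ≤ n := by exact_mod_cast hn3
  have hl : 0 < Real.log (n : ℝ) := Real.log_pos (by linarith)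
  have hx : 0 < Real.log (ξ n) := Real.log_pos (by linarith [hn.1])
  rw [hn2, Real.div_rpow (by linarith [hn.1]) (by linarith), Real.div_rpow hx.le hl.le, Real.rpow_sub_one hx.ne' q]
  have := Real.rpow_pos_of_pos (show (0 : ℝ) < n by linarith) (r - 1)
  have := Real.rpow_pos_of_pos hl q
  field_simp

/-- The increments, `r = 0`. -/
theorem inc_zero (q : ℝ) :
    Tendsto (fun n : ℕ => (UU 0 q ((n + 1 : ℕ) : ℝ) - UU 0 q n) / ((n : ℝ) ^ (-1 : ℝ) * Real.log n ^ (q - 1))) atTop (𝓝 q) := by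
  obtain ⟨ξ, h1, h2⟩ := UU_diff 0 q
  obtain ⟨h3, h4, h5⟩ := xi_ratio h1
  have h6 : Tendsto (fun n : ℕ => (ξ n / n) ^ (-1 : ℝ) * (Real.log (ξ n) / Real.log n) ^ (q - 1) * q) atTop
      (𝓝 (1 ^ (-1 : ℝ) * 1 ^ (q - 1) * q)) := by
    refine Tendsto.mul (Tendsto.mul (h3.rpow_const (Or.inl one_ne_zero)) (h4.rpow_const (Or.inl one_ne_zero))) tendsto_const_nhds
  rw [Real.one_rpow, Real.one_rpow, one_mul, one_mul] at h6
  refine h6.congr' ?_
  filter_upwards [h1, h2, eventually_ge_atTop 2] with n hn hn2 hn3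
  have hn0 : (2 : ℝ) ≤ n := by exact_mod_cast hn3
  have hl : 0 < Real.log (n : ℝ) := Real.log_pos (by linarith)
  have hx : 0 < Real.log (ξ n) := Real.log_pos (by linarith [hn.1])
  rw [hn2, Real.div_rpow (by linarith [hn.1]) (by linarith), Real.div_rpow hx.le hl.le, zero_mul, zero_add, zero_sub]
  have := Real.rpow_pos_of_pos (show (0 : ℝ) < n by linarith) (-1)
  have := Real.rpow_pos_of_pos hl (q - 1)
  field_simp

theorem UU_top {r q : ℝ} (h : 0 < r ∨ (r = 0 ∧ 0 < q)) : Tendsto (fun n : ℕ => UU r q n) atTop atTop := by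
  unfold UU
  rcases h with h | ⟨h, h'⟩
  · have h1 : Tendsto (fun t : ℝ => t ^ r * Real.log t ^ q) atTop atTop := by
      have h2 := isLittleO_log_rpow_rpow_atTop (s := r / 2) (-q) (by positivity)
      have h3 := h2.bound (show (0 : ℝ) < 1 by norm_num)
      have h4 : Tendsto (fun t : ℝ => t ^ (r / 2)) atTop atTop := tendsto_rpow_atTop (by positivity)
      refine tendsto_atTop_mono' _ ?_ h4
      filter_upwards [h3, eventually_gt_atTop 1] with t ht ht1
      have hl : 0 < Real.log t := Real.log_pos ht1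
      have ht0 : 0 < t := by linarith
      rw [one_mul, Real.norm_of_nonneg (by positivity), Real.norm_of_nonneg (by positivity), Real.rpow_neg hl.le] at ht
      have h5 := Real.rpow_pos_of_pos hl q
      have h6 : 1 ≤ t ^ (r / 2) * Real.log t ^ q := by
        have := mul_le_mul_of_nonneg_right ht h5.le
        rwa [inv_mul_cancel₀ h5.ne'] at this
      have h7 : t ^ r = t ^ (r / 2) * t ^ (r / 2) := by
        rw [← Real.rpow_add ht0]
        congr 1
        ring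
      rw [h7]
      have h8 := Real.rpow_pos_of_pos ht0 (r / 2)
      nlinarith
    exact h1.comp tendsto_natCast_atTop_atTop
  · subst h
    simp only [Real.rpow_zero, one_mul]
    exact (tendsto_rpow_atTop h').comp lg

/-- Stolz' theorem with the comparison function. -/
theorem stolz_UU {r q : ℝ} (h : 0 < r ∨ (r = 0 ∧ 0 < q)) {v : ℕ → ℝ} {c : ℝ}
    (hu : ∀ᶠ n : ℕ in atTop, 0 < UU r q ((n + 1 : ℕ) : ℝ) - UU r q n)
    (hv : Tendsto (fun n : ℕ => v n / (UU r q ((n + 1 : ℕ) : ℝ) - UU r q n)) atTop (𝓝 c)) :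
    Tendsto (fun N : ℕ => (∑ n ∈ range N, v n) / UU r q N) atTop (𝓝 c) := by
  have h1 := UU_top h
  have hsum : ∀ N : ℕ, ∑ n ∈ range N, (UU r q ((n + 1 : ℕ) : ℝ) - UU r q n) = UU r q N - UU r q (0 : ℕ) :=
    fun N => sum_range_sub (fun n : ℕ => UU r q n) N
  have h2 : Tendsto (fun N : ℕ => ∑ n ∈ range N, (UU r q ((n + 1 : ℕ) : ℝ) - UU r q n)) atTop atTop := by
    simp only [hsum]
    exact tendsto_atTop_add_const_right _ _ h1
  have h3 := stolz hu h2 hv
  simp only [hsum] at h3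
  have h4 : Tendsto (fun N : ℕ => 1 - UU r q (0 : ℕ) / UU r q N) atTop (𝓝 (1 - 0)) :=
    tendsto_const_nhds.sub (h1.const_div_atTop _)
  rw [sub_zero] at h4
  have h5 := h3.mul h4
  rw [mul_one] at h5
  refine h5.congr' ?_
  filter_upwards [h1.eventually_gt_atTop (|UU r q (0 : ℕ)|)] with N hN
  have h6 : 0 < UU r q N := lt_of_le_of_lt (abs_nonneg _) hN
  have h7 : UU r q N - UU r q (0 : ℕ) ≠ 0 := by
    have := le_abs_self (UU r q (0 : ℕ))
    linarith
  field_simp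

end Pool.Agent.Q106.GMM
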