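import Pool.Agent.Q106.GMM.Exact

/-!
# Affine maps

The definitions and the lemmas on the maps `n ↦ a n + b` are those of helper120's hand-in on the longest chains.
-/

set_option autoImplicit false

namespace Pool.Agent.Q106.GMM

open Finset Filter Pool.Agent.Q120.GM MeasureTheory
open Pool.Agent.Q120.AD (hl)
open scoped Topology

/-- The map `n ↦ a n + b`. -/
def aff (a : ℕ) (b : ℤ) (n : ℕ) : ℕ := ((a : ℤ) * n + b).toNat

/-- Some class modulo `Q` has orbits all of whose points are coprime to `Q`. -/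
def Open (Q a : ℕ) (b : ℤ) : Prop :=
  ∃ r : ℕ, ∀ n : ℕ, 2 * b.natAbs < n → n % Q = r % Q → ∀ i, ((aff a b)^[i] n).Coprime Q

theorem aff_int {a : ℕ} (ha : 2 ≤ a) {b : ℤ} {n : ℕ} (hn : 2 * b.natAbs + 1 ≤ n) : ((aff a b n : ℕ) : ℤ) = a * n + b := by
  unfold aff
  rw [Int.toNat_of_nonneg]
  have h1 : (2 : ℤ) ≤ a := by exact_mod_cast ha
  have h2 : (2 : ℤ) * b.natAbs + 1 ≤ n := by exact_mod_cast hn
  have h3 : -(b.natAbs : ℤ) ≤ b := by omega
  nlinarith

theorem step_aff {a : ℕ} (ha : 2 ≤ a) (b : ℤ) : Step (aff a b) (a + b.natAbs) (2 * b.natAbs + 1) := by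
  refine ⟨by omega, by omega, ?_, ?_, ?_⟩
  · intro m n hm hn h
    have h1 := aff_int ha hm
    have h2 := aff_int ha hn
    rw [h, h2] at h1
    have h3 : (a : ℤ) * n = a * m := by linarith
    have h4 : (a : ℤ) ≠ 0 := by positivity
    exact_mod_cast (mul_left_cancel₀ h4 h3).symm
  · intro n hn
    have h1 := aff_int ha hn
    have h2 : (2 : ℤ) ≤ a := by exact_mod_cast ha
    have h3 : (2 : ℤ) * b.natAbs + 1 ≤ n := by exact_mod_cast hn
    have h4 : -(b.natAbs : ℤ) ≤ b := by omega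
    have h5 : (3 : ℤ) * n ≤ 2 * (aff a b n : ℕ) := by
      rw [h1]
      nlinarith
    exact_mod_cast h5
  · intro n hn
    have h1 := aff_int ha hn
    have h3 : (1 : ℤ) ≤ n := by
      have : 1 ≤ n := by omega
      exact_mod_cast this
    have h4 : b ≤ (b.natAbs : ℤ) := by omega
    have h5 : ((aff a b n : ℕ) : ℤ) ≤ (a + b.natAbs) * n := by
      rw [h1]
      have : (0 : ℤ) ≤ b.natAbs := by omega
      nlinarith
    exact_mod_cast h5

/-- Chains of the first kind: the class `-1`. -/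
theorem open_first {Q : ℕ} (hQ : 1 ≤ Q) : Open Q 2 1 := by
  refine ⟨Q - 1, fun n hn h i => ?_⟩
  have hf := step_aff (le_refl 2) 1
  have h1 : ∀ i, Q ∣ (aff 2 1)^[i] n + 1 := by
    intro i
    induction i with
    | zero =>
      show Q ∣ n + 1
      have h2 : n ≡ Q - 1 [MOD Q] := h
      have h3 : n + 1 ≡ Q - 1 + 1 [MOD Q] := h2.add_right 1
      rw [Nat.sub_add_cancel hQ] at h3
      exact (Nat.modEq_zero_iff_dvd.1 (h3.trans (Nat.modEq_zero_iff_dvd.2 (dvd_refl Q))))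
    | succ i ih =>
      rw [Function.iterate_succ_apply']
      have h2 := aff_int (le_refl 2) (b := 1) (n := (aff 2 1)^[i] n)
        ((show 2 * (1 : ℤ).natAbs + 1 ≤ n by omega).trans (hf.ge i (by omega)))
      have h3 : aff 2 1 ((aff 2 1)^[i] n) + 1 = 2 * ((aff 2 1)^[i] n + 1) := by
        push_cast at h2
        omega
      rw [h3]
      exact ih.mul_left 2
  have h2 := h1 i
  rw [Nat.coprime_iff_gcd_eq_one]
  have h3 : Nat.gcd ((aff 2 1)^[i] n) Q ∣ (aff 2 1)^[i] n + 1 := (Nat.gcd_dvd_right _ _).trans h2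
  have h4 : Nat.gcd ((aff 2 1)^[i] n) Q ∣ (aff 2 1)^[i] n := Nat.gcd_dvd_left _ _
  exact Nat.dvd_one.1 ((Nat.dvd_add_right h4).1 h3)

/-- Chains of the second kind: the class `1`. -/
theorem open_second {Q : ℕ} : Open Q 2 (-1) := by
  refine ⟨1, fun n hn h i => ?_⟩
  have hf := step_aff (le_refl 2) (-1)
  have h1 : ∀ i, (aff 2 (-1))^[i] n ≡ 1 [MOD Q] := by
    intro i
    induction i with
    | zero => exact h
    | succ i ih =>
      rw [Function.iterate_succ_apply']
      have h2 := aff_int (le_refl 2) (b := -1) (n := (aff 2 (-1))^[i] n)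
        ((show 2 * (-1 : ℤ).natAbs + 1 ≤ n by omega).trans (hf.ge i (by omega)))
      have h3 : aff 2 (-1) ((aff 2 (-1))^[i] n) + 1 = 2 * ((aff 2 (-1))^[i] n) := by
        push_cast at h2
        omega
      have h4 : 2 * ((aff 2 (-1))^[i] n) ≡ 2 * 1 [MOD Q] := ih.mul_left 2
      rw [← h3] at h4
      exact Nat.ModEq.add_right_cancel' 1 h4
  have h2 : Nat.gcd ((aff 2 (-1))^[i] n) Q = Nat.gcd 1 Q := (h1 i).gcd_eq
  rw [Nat.coprime_iff_gcd_eq_one, h2]
  exact Nat.gcd_one_left Q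


theorem aff_mono (a : ℕ) (b : ℤ) : Monotone (aff a b) := by
  intro m n hmn
  unfold aff
  apply Int.toNat_le_toNat
  have h1 : (m : ℤ) ≤ n := by exact_mod_cast hmn
  have h2 : (0 : ℤ) ≤ a := Int.natCast_nonneg a
  nlinarith

theorem aff_per {Q a : ℕ} (ha : 2 ≤ a) (b : ℤ) : PerC Q (aff a b) (2 * b.natAbs + 1) := by
  intro m n hm hn hmn i
  have hf := step_aff ha b
  have hcast : ∀ m : ℕ, 2 * b.natAbs + 1 ≤ m → ∀ i, (((aff a b)^[i] m : ℕ) : ZMod Q) =
      (fun z : ZMod Q => (a : ZMod Q) * z + (b : ZMod Q))^[i] (m : ZMod Q) := by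
    intro m hm i
    induction i with
    | zero => rfl
    | succ i ih =>
      rw [Function.iterate_succ_apply', Function.iterate_succ_apply', ← ih]
      have h1 := aff_int ha (n := (aff a b)^[i] m) (hm.trans (hf.ge i hm))
      have h2 : (((aff a b ((aff a b)^[i] m) : ℕ) : ℤ) : ZMod Q) = ((a * ((aff a b)^[i] m : ℕ) + b : ℤ) : ZMod Q) := by
        rw [h1]
      push_cast at h2
      exact h2
  have h2 : (m : ZMod Q) = (n : ZMod Q) := (ZMod.natCast_eq_natCast_iff' m n Q).2 hmn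
  have h3 : (((aff a b)^[i] m : ℕ) : ZMod Q) = (((aff a b)^[i] n : ℕ) : ZMod Q) := by
    rw [hcast m hm, hcast n hn, h2]
  rw [← ZMod.isUnit_iff_coprime, ← ZMod.isUnit_iff_coprime, h3]

end Pool.Agent.Q106.GMM
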