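import Mathlib

/-!
# Sums of powers against a slowly decaying exponential
-/

set_option autoImplicit false

namespace Pool.Agent.Q106.GMM

open Finset MeasureTheory Filter intervalIntegral
open scoped Topology

/-- The increments of the `s`-th power. -/
noncomputable def cc (s : ℝ) (h : ℕ) : ℝ := ((h : ℝ) + 1) ^ s - (h : ℝ) ^ s

theorem cc_nonneg {s : ℝ} (hs : 0 < s) (h : ℕ) : 0 ≤ cc s h := by
  unfold cc
  have : (h : ℝ) ^ s ≤ ((h : ℝ) + 1) ^ s := Real.rpow_le_rpow (Nat.cast_nonneg h) (by linarith) hs.le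
  linarith

theorem cc_sum {s : ℝ} (hs : 0 < s) (H : ℕ) : ∑ h ∈ range H, cc s h = (H : ℝ) ^ s := by
  have h1 := Finset.sum_range_sub (fun h : ℕ => (h : ℝ) ^ s) H
  unfold cc
  rw [Nat.cast_zero, Real.zero_rpow hs.ne', sub_zero] at h1
  rw [← h1]
  refine sum_congr rfl (fun h _ => ?_)
  push_cast
  ring

theorem int_piece {s l : ℝ} (hs : 0 < s) (a b : ℝ) :
    IntervalIntegrable (fun u : ℝ => s * u ^ (s - 1) * Real.exp (-u / l)) volume a b := by
  have h1 : IntervalIntegrable (fun u : ℝ => u ^ (s - 1)) volume a b :=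
    intervalIntegrable_rpow' (by linarith)
  have h2 : IntervalIntegrable (fun u : ℝ => s * u ^ (s - 1)) volume a b := h1.const_mul s
  refine h2.mul_continuousOn ?_
  fun_prop

theorem int_pow {s : ℝ} (hs : 0 < s) (h : ℕ) : ∫ u in (h : ℝ)..((h + 1 : ℕ) : ℝ), s * u ^ (s - 1) = cc s h := by
  rw [intervalIntegral.integral_const_mul, integral_rpow (Or.inl (by linarith))]
  unfold cc
  push_cast
  rw [show s - 1 + 1 = s by ring]
  field_simp

theorem piece_bounds {s l : ℝ} (hs : 0 < s) (hl : 0 < l) (h : ℕ) :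
    (∫ u in (h : ℝ)..((h + 1 : ℕ) : ℝ), s * u ^ (s - 1) * Real.exp (-u / l)) ≤ cc s h * Real.exp (-(h : ℝ) / l) ∧
    Real.exp (-1 / l) * (cc s h * Real.exp (-(h : ℝ) / l)) ≤
      ∫ u in (h : ℝ)..((h + 1 : ℕ) : ℝ), s * u ^ (s - 1) * Real.exp (-u / l) := by
  have hle : (h : ℝ) ≤ ((h + 1 : ℕ) : ℝ) := by push_cast; linarith
  have h1 : IntervalIntegrable (fun u : ℝ => s * u ^ (s - 1)) volume (h : ℝ) ((h + 1 : ℕ) : ℝ) :=
    (intervalIntegrable_rpow' (by linarith)).const_mul s
  have h0 : (0 : ℝ) ≤ h := Nat.cast_nonneg h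
  constructor
  · rw [← int_pow hs h, ← intervalIntegral.integral_mul_const]
    refine integral_mono_on hle (int_piece hs _ _) (h1.mul_const _) (fun u hu => ?_)
    apply mul_le_mul_of_nonneg_left
    · apply Real.exp_le_exp.2
      rw [div_le_div_iff_of_pos_right hl]
      linarith [hu.1]
    · have : 0 ≤ u := h0.trans hu.1
      positivity
  · have h2 : Real.exp (-1 / l) * (cc s h * Real.exp (-(h : ℝ) / l)) = cc s h * Real.exp (-(((h + 1 : ℕ) : ℝ)) / l) := by
      have : Real.exp (-(((h + 1 : ℕ) : ℝ)) / l) = Real.exp (-1 / l) * Real.exp (-(h : ℝ) / l) := by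
        rw [← Real.exp_add]
        congr 1
        push_cast
        ring
      rw [this]
      ring
    rw [h2, ← int_pow hs h, ← intervalIntegral.integral_mul_const]
    refine integral_mono_on hle (h1.mul_const _) (int_piece hs _ _) (fun u hu => ?_)
    apply mul_le_mul_of_nonneg_left
    · apply Real.exp_le_exp.2
      rw [div_le_div_iff_of_pos_right hl]
      linarith [hu.2]
    · have : 0 ≤ u := h0.trans hu.1
      positivity

/-- The truncated Gamma integral. -/
noncomputable def GG (s T : ℝ) : ℝ := ∫ v in (0 : ℝ)..T, Real.exp (-v) * v ^ (s - 1)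

theorem scale {s l : ℝ} (hl : 0 < l) (H : ℕ) :
    (∫ u in (0 : ℝ)..(H : ℝ), s * u ^ (s - 1) * Real.exp (-u / l)) = l ^ s * (s * GG s (H / l)) := by
  have h1 := intervalIntegral.integral_comp_mul_left (a := 0) (b := (H : ℝ) / l)
    (fun u : ℝ => s * u ^ (s - 1) * Real.exp (-u / l)) hl.ne'
  rw [mul_zero, mul_div_cancel₀ _ hl.ne', smul_eq_mul] at h1
  have h2 : (∫ v in (0 : ℝ)..((H : ℝ) / l), s * (l * v) ^ (s - 1) * Real.exp (-(l * v) / l)) =
      l ^ (s - 1) * s * GG s (H / l) := by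
    unfold GG
    rw [← intervalIntegral.integral_const_mul]
    refine integral_congr (fun v hv => ?_)
    have hH : (0 : ℝ) ≤ (H : ℝ) / l := by positivity
    rw [Set.uIcc_of_le hH, Set.mem_Icc] at hv
    show s * (l * v) ^ (s - 1) * Real.exp (-(l * v) / l) = l ^ (s - 1) * s * (Real.exp (-v) * v ^ (s - 1))
    rw [Real.mul_rpow hl.le hv.1]
    have : -(l * v) / l = -v := by field_simp
    rw [this]
    ring
  rw [h2] at h1
  have h3 : l ^ s = l * l ^ (s - 1) := by
    rw [Real.rpow_sub_one hl.ne']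
    field_simp
  rw [h3]
  have h4 : (∫ u in (0 : ℝ)..(H : ℝ), s * u ^ (s - 1) * Real.exp (-u / l)) =
      l * (l⁻¹ * ∫ u in (0 : ℝ)..(H : ℝ), s * u ^ (s - 1) * Real.exp (-u / l)) := by
    rw [← mul_assoc, mul_inv_cancel₀ hl.ne', one_mul]
  rw [h4, ← h1]
  ring

theorem GG_tendsto {s : ℝ} (hs : 0 < s) : Tendsto (fun T : ℝ => s * GG s T) atTop (𝓝 (Real.Gamma (s + 1))) := by
  rw [Real.Gamma_add_one hs.ne', Real.Gamma_eq_integral hs]
  unfold GG
  exact (intervalIntegral_tendsto_integral_Ioi 0 (Real.GammaIntegral_convergent hs) tendsto_id).const_mul s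

theorem sum_bounds {s l : ℝ} (hs : 0 < s) (hl : 0 < l) (H : ℕ) :
    l ^ s * (s * GG s (H / l)) ≤ ∑ h ∈ range H, cc s h * Real.exp (-(h : ℝ) / l) ∧
    Real.exp (-1 / l) * ∑ h ∈ range H, cc s h * Real.exp (-(h : ℝ) / l) ≤ l ^ s * (s * GG s (H / l)) := by
  have h1 := intervalIntegral.sum_integral_adjacent_intervals (μ := volume) (a := fun h : ℕ => (h : ℝ))
    (f := fun u : ℝ => s * u ^ (s - 1) * Real.exp (-u / l)) (n := H) (fun k _ => int_piece hs _ _)
  rw [Nat.cast_zero, scale hl H] at h1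
  rw [← h1]
  constructor
  · exact sum_le_sum (fun h _ => (piece_bounds hs hl h).1)
  · rw [mul_sum]
    exact sum_le_sum (fun h _ => (piece_bounds hs hl h).2)

/-- **The Abelian theorem.** -/
theorem gam_tendsto {s : ℝ} (hs : 0 < s) (l : ℕ → ℝ) (H : ℕ → ℕ) (hl : Tendsto l atTop atTop)
    (hH : Tendsto (fun x => (H x : ℝ) / l x) atTop atTop) :
    Tendsto (fun x => (∑ h ∈ range (H x), cc s h * Real.exp (-(h : ℝ) / l x)) / l x ^ s) atTop
      (𝓝 (Real.Gamma (s + 1))) := by
  have h1 : Tendsto (fun x => s * GG s ((H x : ℝ) / l x)) atTop (𝓝 (Real.Gamma (s + 1))) := (GG_tendsto hs).comp hH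
  have h2 : Tendsto (fun x => Real.exp (1 / l x) * (s * GG s ((H x : ℝ) / l x))) atTop (𝓝 (Real.exp 0 * Real.Gamma (s + 1))) := by
    refine Tendsto.mul ?_ h1
    exact (Real.continuous_exp.tendsto 0).comp (tendsto_const_nhds.div_atTop hl)
  rw [Real.exp_zero, one_mul] at h2
  refine tendsto_of_tendsto_of_tendsto_of_le_of_le' h1 h2 ?_ ?_
  · filter_upwards [hl.eventually_gt_atTop 0] with x hx
    rw [le_div_iff₀ (Real.rpow_pos_of_pos hx s), mul_comm]
    exact (sum_bounds hs hx (H x)).1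
  · filter_upwards [hl.eventually_gt_atTop 0] with x hx
    rw [div_le_iff₀ (Real.rpow_pos_of_pos hx s)]
    have h3 := (sum_bounds hs hx (H x)).2
    have h4 : Real.exp (1 / l x) * Real.exp (-1 / l x) = 1 := by
      rw [← Real.exp_add, neg_div, add_neg_cancel, Real.exp_zero]
    calc ∑ h ∈ range (H x), cc s h * Real.exp (-(h : ℝ) / l x) =
        Real.exp (1 / l x) * (Real.exp (-1 / l x) * ∑ h ∈ range (H x), cc s h * Real.exp (-(h : ℝ) / l x)) := by
          rw [← mul_assoc, h4, one_mul]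
      _ ≤ Real.exp (1 / l x) * (l x ^ s * (s * GG s ((H x : ℝ) / l x))) :=
          mul_le_mul_of_nonneg_left h3 (Real.exp_pos _).le
      _ = _ := by ring

end Pool.Agent.Q106.GMM
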