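import Pool.Agent.Q106.GMM.Conc
import Pool.Agent.Q106.GMM.Gam
import Pool.Agent.Q120.GM.Rec4

/-!
# The expected number of long gaps at level `Q`
-/

set_option autoImplicit false

namespace Pool.Agent.Q106.GMM

open Finset MeasureTheory Filter Pool.Agent.Q120.GM
open Pool.Agent.Q120.AD (hl)
open scoped Topology

/-- The bound for the discrepancy of the classes coprime to `Q`. -/
noncomputable def K2 (Q : ℕ) : ℝ := 2 * ((Q : ℝ) * ((Q : ℝ) / Nat.totient Q + 1))

theorem K2_nonneg (Q : ℕ) : 0 ≤ K2 Q := by unfold K2; positivity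

theorem dd_window {Q : ℕ} (hQ : 1 ≤ Q) (a h : ℕ) :
    (h : ℝ) - K2 Q ≤ ∑ n ∈ Ioc a (a + h), (dd Q n + 1) ∧ ∑ n ∈ Ioc a (a + h), (dd Q n + 1) ≤ (h : ℝ) + K2 Q := by
  have h1 : ∑ n ∈ Ioc a (a + h), (dd Q n + 1) = DD Q (a + h + 1) - DD Q (a + 1) + h := by
    rw [sum_add_distrib]
    have h2 : ∑ n ∈ Ioc a (a + h), dd Q n = DD Q (a + h + 1) - DD Q (a + 1) := by
      unfold DD
      have h3 : Ioc a (a + h) = Ico (a + 1) (a + h + 1) := by
        ext n
        simp only [mem_Ioc, mem_Ico]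
        omega
      rw [h3, sum_Ico_eq_sub _ (by omega)]
    rw [h2]
    simp
  have h4 := abs_le.1 (DD_bound hQ (a + h + 1))
  have h5 := abs_le.1 (DD_bound hQ (a + 1))
  unfold K2
  rw [h1]
  constructor <;> linarith [h4.1, h4.2, h5.1, h5.2]

theorem dd_eq (Q n : ℕ) : dd Q n + 1 = if n.Coprime Q then qq Q else 0 := by
  unfold dd qq
  ring

theorem level_ge {Q n : ℕ} {z : ℝ} (hQ : 1 ≤ Q) (hn : 2 ≤ n) (hnz : (n : ℝ) ≤ z) (hz : qq Q ≤ Real.log z) :
    (dd Q n + 1) / Real.log z ≤ level Q n := by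
  have hn' : (2 : ℝ) ≤ n := by exact_mod_cast hn
  have h1 : 0 < Real.log (n : ℝ) := Real.log_pos (by linarith)
  have h2 : Real.log (n : ℝ) ≤ Real.log z := Real.log_le_log (by linarith) hnz
  have hq := qq_pos hQ
  rw [dd_eq]
  unfold level
  split_ifs with h
  · refine le_min ?_ ?_
    · rw [div_le_one (by linarith)]
      exact hz
    · exact div_le_div_of_nonneg_left hq.le h1 h2
  · simp

theorem level_le' {Q n : ℕ} {y : ℝ} (hy : 0 < Real.log y) (hy0 : 0 < y) (hn : y ≤ n) :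
    level Q n ≤ (dd Q n + 1) / Real.log y := by
  by_cases h : n.Coprime Q
  · rw [dd_eq, if_pos h]
    exact level_le hy hy0 hn
  · rw [dd_eq, if_neg h, zero_div]
    unfold level
    rw [if_neg h]

theorem pr_le {Q : ℕ} (hQ : 1 ≤ Q) {a h : ℕ} {z : ℝ} (ha : 1 ≤ a) (haz : ((a + h : ℕ) : ℝ) ≤ z) (hz : qq Q ≤ Real.log z) :
    pr (level Q) h a ≤ level Q a * (Real.exp (K2 Q / Real.log z) * Real.exp (-(h : ℝ) / Real.log z)) := by
  have hq := qq_pos hQ
  unfold pr
  apply mul_le_mul_of_nonneg_left _ (level_nonneg Q a)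
  have h1 : ∏ n ∈ Ioc a (a + h), (1 - level Q n) ≤ ∏ n ∈ Ioc a (a + h), Real.exp (-(level Q n)) := by
    refine Finset.prod_le_prod (fun n _ => by linarith [level_le_one Q n]) (fun n _ => ?_)
    exact Real.one_sub_le_exp_neg _
  refine h1.trans ?_
  rw [← Real.exp_sum, ← Real.exp_add]
  apply Real.exp_le_exp.2
  rw [sum_neg_distrib, ← add_div]
  have h2 : ∑ n ∈ Ioc a (a + h), (dd Q n + 1) / Real.log z ≤ ∑ n ∈ Ioc a (a + h), level Q n := by
    refine sum_le_sum (fun n hn => ?_)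
    rw [mem_Ioc] at hn
    refine level_ge hQ (by omega) (le_trans ?_ haz) hz
    exact_mod_cast hn.2
  rw [← sum_div] at h2
  have h3 := (dd_window hQ a h).1
  have h4 : ((h : ℝ) - K2 Q) / Real.log z ≤ (∑ n ∈ Ioc a (a + h), (dd Q n + 1)) / Real.log z :=
    div_le_div_of_nonneg_right h3 (by linarith)
  have h5 : (K2 Q + -(h : ℝ)) / Real.log z = -(((h : ℝ) - K2 Q) / Real.log z) := by ring
  rw [h5]
  linarith

theorem le_pr {Q : ℕ} (hQ : 1 ≤ Q) {a h : ℕ} {y : ℝ} (hy0 : 0 < y) (hya : y ≤ a) (hy : qq Q < Real.log y) :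
    level Q a * (Real.exp (-(K2 Q) / (Real.log y - qq Q)) * Real.exp (-(h : ℝ) / (Real.log y - qq Q))) ≤ pr (level Q) h a := by
  have hq := qq_pos hQ
  have hly : 0 < Real.log y := by linarith
  unfold pr
  apply mul_le_mul_of_nonneg_left _ (level_nonneg Q a)
  obtain ⟨P, hP⟩ : ∃ P, P = qq Q / Real.log y := ⟨_, rfl⟩
  have hP1 : P < 1 := by
    rw [hP, div_lt_one hly]
    exact hy
  have h1 : ∏ n ∈ Ioc a (a + h), Real.exp (-(level Q n / (1 - P))) ≤ ∏ n ∈ Ioc a (a + h), (1 - level Q n) := by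
    refine Finset.prod_le_prod (fun n _ => (Real.exp_pos _).le) (fun n hn => ?_)
    rw [mem_Ioc] at hn
    have h2 : level Q n ≤ P := by
      rw [hP]
      refine level_le hly hy0 (hya.trans ?_)
      exact_mod_cast hn.1.le
    have h3 := level_nonneg Q n
    have h4 : 0 < 1 - level Q n := by linarith
    have h5 := Real.one_sub_inv_le_log_of_pos h4
    have h6 : -(level Q n / (1 - P)) ≤ Real.log (1 - level Q n) := by
      refine le_trans ?_ h5
      have h7 : 1 - (1 - level Q n)⁻¹ = -(level Q n / (1 - level Q n)) := by field_simp; ring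
      rw [h7, neg_le_neg_iff]
      exact div_le_div_of_nonneg_left h3 (by linarith) (by linarith)
    calc Real.exp (-(level Q n / (1 - P))) ≤ Real.exp (Real.log (1 - level Q n)) := Real.exp_le_exp.2 h6
      _ = _ := Real.exp_log h4
  refine le_trans ?_ h1
  rw [← Real.exp_sum, ← Real.exp_add]
  apply Real.exp_le_exp.2
  rw [sum_neg_distrib, ← add_div, ← sum_div]
  have h2 : ∑ n ∈ Ioc a (a + h), level Q n ≤ ∑ n ∈ Ioc a (a + h), (dd Q n + 1) / Real.log y := by
    refine sum_le_sum (fun n hn => ?_)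
    rw [mem_Ioc] at hn
    refine level_le' hly hy0 (hya.trans ?_)
    exact_mod_cast hn.1.le
  rw [← sum_div] at h2
  have h3 := (dd_window hQ a h).2
  have h4 : (∑ n ∈ Ioc a (a + h), (dd Q n + 1)) / Real.log y ≤ ((h : ℝ) + K2 Q) / Real.log y :=
    div_le_div_of_nonneg_right h3 hly.le
  have h5 : (-(K2 Q) + -(h : ℝ)) / (Real.log y - qq Q) = -((((h : ℝ) + K2 Q) / Real.log y) / (1 - P)) := by
    rw [hP]
    have h6 : Real.log y - qq Q ≠ 0 := by linarith
    have h7 : 1 - qq Q / Real.log y ≠ 0 := by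
      rw [hP] at hP1
      linarith
    field_simp
    ring
  rw [h5, neg_le_neg_iff]
  apply div_le_div_of_nonneg_right (h2.trans h4) (by linarith)

theorem level_zero (Q : ℕ) : level Q 0 = 0 := by
  unfold level
  simp

/-- The expected number of elements. -/
noncomputable def PP (Q x : ℕ) : ℝ := ∑ a ∈ range x, level Q a

theorem EE_le {Q : ℕ} (hQ : 1 ≤ Q) {h x : ℕ} (hx : h ≤ x) (hz : qq Q ≤ Real.log (2 * x)) :
    EE (level Q) h x ≤ PP Q x * (Real.exp (K2 Q / Real.log (2 * x)) * Real.exp (-(h : ℝ) / Real.log (2 * x))) := by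
  unfold EE PP
  rw [sum_mul]
  refine sum_le_sum (fun a ha => ?_)
  rw [mem_range] at ha
  by_cases h1 : a = 0
  · rw [h1, level_zero, zero_mul]
    unfold pr
    rw [level_zero, zero_mul]
  · refine pr_le hQ (by omega) ?_ hz
    have : (a : ℝ) ≤ x := by exact_mod_cast ha.le
    have : (h : ℝ) ≤ x := by exact_mod_cast hx
    push_cast
    linarith

theorem le_EE {Q : ℕ} (hQ : 1 ≤ Q) {h x y : ℕ} (hyx : y ≤ x) (hy0 : 0 < y) (hy : qq Q < Real.log y) :
    (∑ a ∈ Ico y x, level Q a) * (Real.exp (-(K2 Q) / (Real.log y - qq Q)) * Real.exp (-(h : ℝ) / (Real.log y - qq Q))) ≤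
      EE (level Q) h x := by
  unfold EE
  rw [← sum_range_add_sum_Ico _ hyx, sum_mul]
  have h1 : 0 ≤ ∑ a ∈ range y, pr (level Q) h a :=
    sum_nonneg (fun a _ => pr_nonneg (level_nonneg Q) (level_le_one Q) h a)
  have h2 : ∑ a ∈ Ico y x, level Q a * (Real.exp (-(K2 Q) / (Real.log y - qq Q)) * Real.exp (-(h : ℝ) / (Real.log y - qq Q))) ≤
      ∑ a ∈ Ico y x, pr (level Q) h a := by
    refine sum_le_sum (fun a ha => ?_)
    rw [mem_Ico] at ha
    exact le_pr hQ (by exact_mod_cast hy0) (by exact_mod_cast ha.1) hy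
  linarith

theorem level_sum_bounds {Q : ℕ} (hQ : 1 ≤ Q) {x y : ℕ} (hyx : y ≤ x) (hy0 : 0 < y) (hy : qq Q ≤ Real.log y) :
    ∑ a ∈ Ico y x, level Q a ≤ ((x : ℝ) + Q) / Real.log y ∧
      ((x : ℝ) - y - Q) / Real.log x ≤ ∑ a ∈ Ico y x, level Q a := by
  have hq := qq_pos hQ
  have hly : 0 < Real.log (y : ℝ) := by linarith
  have hy1 : (0 : ℝ) < y := by exact_mod_cast hy0
  have hsum : ∀ a, ∏ m ∈ tl a {0}, level Q m = level Q a := by
    intro a
    rw [prod_tl, prod_singleton, add_zero]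
  have hw : y + (x - y) = x := by omega
  have hc : ((x - y : ℕ) : ℝ) = (x : ℝ) - y := Nat.cast_sub hyx
  constructor
  · have h1 := sum_tuple_le (Q := Q) hQ (H := {0}) hly hy1 (a := y) (w := x - y) (le_refl _)
    simp only [hsum, card_singleton, pow_one] at h1
    rw [hw, sing_zero hQ, mul_one, hc] at h1
    refine h1.trans ?_
    apply div_le_div_of_nonneg_right _ hly.le
    linarith
  · have hxy : (y : ℝ) ≤ x := by exact_mod_cast hyx
    have h1 := le_sum_tuple (Q := Q) hQ (H := {0}) (x := (y : ℝ)) (y := (x : ℝ)) hy hly hy1 (a := y) (w := x - y) (le_refl _)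
      (fun h hh => by
        rw [mem_singleton] at hh
        rw [hh, hc]
        push_cast
        linarith) hxy
    simp only [hsum, card_singleton, pow_one] at h1
    rw [hw, sing_zero hQ, mul_one, hc] at h1
    exact h1

/-- The start of the main range. -/
noncomputable def yy (x : ℕ) : ℕ := ⌊(x : ℝ) / Real.log x ^ 2⌋₊

theorem yy_le {x : ℕ} (hx : 1 ≤ Real.log (x : ℝ)) : (yy x : ℝ) ≤ x / Real.log x ^ 2 := by
  unfold yy
  exact Nat.floor_le (by positivity)

theorem ev_log2 : ∀ᶠ x : ℕ in atTop, 2 * Real.log x ^ 2 ≤ (x : ℝ) := by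
  filter_upwards [ev_power 2 2 (show (0 : ℝ) < 1 by norm_num)] with x hx
  rwa [Real.rpow_one] at hx

theorem yy_ge : ∀ᶠ x : ℕ in atTop, (x : ℝ) / (2 * Real.log x ^ 2) ≤ yy x := by
  filter_upwards [ev_log2, hl.eventually_ge_atTop 1] with x hx hx1
  have h1 : (x : ℝ) / Real.log x ^ 2 < (yy x : ℝ) + 1 := Nat.lt_floor_add_one _
  have h2 : (2 : ℝ) ≤ x / Real.log x ^ 2 := by
    rw [le_div_iff₀ (by positivity)]
    exact hx
  have h3 : (x : ℝ) / (2 * Real.log x ^ 2) = (x / Real.log x ^ 2) / 2 := by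
    rw [div_div, mul_comm]
  rw [h3]
  linarith

theorem loglog : Tendsto (fun x : ℕ => Real.log (Real.log (x : ℝ)) / Real.log x) atTop (𝓝 0) := by
  have h1 : Tendsto (fun t : ℝ => Real.log t / t) atTop (𝓝 0) := by
    have := Real.isLittleO_log_id_atTop.tendsto_div_nhds_zero
    exact this
  exact h1.comp hl

theorem log_yy : Tendsto (fun x : ℕ => Real.log (yy x : ℝ) / Real.log x) atTop (𝓝 1) := by
  have h1 : Tendsto (fun x : ℕ => 1 - Real.log 2 / Real.log (x : ℝ) - 2 * (Real.log (Real.log (x : ℝ)) / Real.log x))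
      atTop (𝓝 (1 - 0 - 2 * 0)) := by
    refine Tendsto.sub (Tendsto.sub tendsto_const_nhds ?_) (loglog.const_mul 2)
    exact hl.const_div_atTop _
  rw [show (1 : ℝ) - 0 - 2 * 0 = 1 by norm_num] at h1
  refine tendsto_of_tendsto_of_tendsto_of_le_of_le' h1 tendsto_const_nhds ?_ ?_
  · filter_upwards [yy_ge, hl.eventually_ge_atTop 1, eventually_ge_atTop 1] with x hx hx1 hx2
    have hx0 : (0 : ℝ) < x := by exact_mod_cast hx2
    have h2 : Real.log ((x : ℝ) / (2 * Real.log x ^ 2)) ≤ Real.log (yy x) := Real.log_le_log (by positivity) hx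
    rw [Real.log_div hx0.ne' (by positivity), Real.log_mul (by norm_num) (by positivity), Real.log_pow] at h2
    rw [le_div_iff₀ (by linarith)]
    have h3 : (1 - Real.log 2 / Real.log (x : ℝ) - 2 * (Real.log (Real.log (x : ℝ)) / Real.log x)) * Real.log x =
        Real.log x - (Real.log 2 + 2 * Real.log (Real.log (x : ℝ))) := by
      field_simp
      ring
    rw [h3]
    push_cast at h2
    exact h2
  · filter_upwards [yy_ge, hl.eventually_ge_atTop 1, eventually_ge_atTop 1] with x hx hx1 hx2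
    have hx0 : (0 : ℝ) < x := by exact_mod_cast hx2
    have h4 : (0 : ℝ) < yy x := lt_of_lt_of_le (by positivity) hx
    rw [div_le_one (by linarith)]
    apply Real.log_le_log h4
    refine (yy_le hx1).trans ?_
    apply div_le_self hx0.le
    exact one_le_pow₀ hx1

theorem log_yy_top : Tendsto (fun x : ℕ => Real.log (yy x : ℝ)) atTop atTop := by
  have h1 := log_yy.pos_mul_atTop (by norm_num) hl
  refine h1.congr' ?_
  filter_upwards [hl.eventually_gt_atTop 0] with x hx
  field_simp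

theorem yy_small : Tendsto (fun x : ℕ => (yy x : ℝ) / (x / Real.log x)) atTop (𝓝 0) := by
  have h1 : Tendsto (fun x : ℕ => 1 / Real.log (x : ℝ)) atTop (𝓝 0) := hl.const_div_atTop 1
  refine squeeze_zero' ?_ ?_ h1
  · filter_upwards [hl.eventually_gt_atTop 0] with x hx
    positivity
  · filter_upwards [hl.eventually_ge_atTop 1, eventually_ge_atTop 1] with x hx1 hx2
    have hx0 : (0 : ℝ) < x := by exact_mod_cast hx2
    rw [div_le_div_iff₀ (by positivity) (by positivity)]
    have h2 := yy_le hx1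
    rw [le_div_iff₀ (by positivity)] at h2
    rw [one_mul, le_div_iff₀ (by positivity)]
    calc (yy x : ℝ) * Real.log x * Real.log x = yy x * Real.log x ^ 2 := by ring
      _ ≤ x := h2

theorem const_small (C : ℝ) : Tendsto (fun x : ℕ => C / ((x : ℝ) / Real.log x)) atTop (𝓝 0) := by
  have h1 : Tendsto (fun x : ℕ => (x : ℝ) / Real.log x) atTop atTop := by
    refine tendsto_atTop_mono' _ ?_ (hl)
    filter_upwards [ev_log2, hl.eventually_ge_atTop 1] with x hx hx1
    rw [le_div_iff₀ (by linarith)]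
    nlinarith
  exact tendsto_const_nhds.div_atTop h1

theorem main_range {Q : ℕ} (hQ : 1 ≤ Q) :
    Tendsto (fun x : ℕ => (∑ a ∈ Ico (yy x) x, level Q a) / (x / Real.log x)) atTop (𝓝 1) := by
  have hq := qq_pos hQ
  have h1 : Tendsto (fun x : ℕ => 1 - (yy x : ℝ) / (x / Real.log x) * (1 / Real.log x) - (Q : ℝ) / x) atTop (𝓝 (1 - 0 * 0 - 0)) := by
    refine Tendsto.sub (Tendsto.sub tendsto_const_nhds (yy_small.mul (hl.const_div_atTop 1))) ?_
    exact tendsto_const_nhds.div_atTop tendsto_natCast_atTop_atTop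
  rw [show (1 : ℝ) - 0 * 0 - 0 = 1 by norm_num] at h1
  have h2 : Tendsto (fun x : ℕ => (1 + (Q : ℝ) / x) * (Real.log (yy x : ℝ) / Real.log x)⁻¹) atTop (𝓝 ((1 + 0) * 1⁻¹)) := by
    refine Tendsto.mul ?_ (log_yy.inv₀ one_ne_zero)
    exact tendsto_const_nhds.add (tendsto_const_nhds.div_atTop tendsto_natCast_atTop_atTop)
  rw [show ((1 : ℝ) + 0) * 1⁻¹ = 1 by norm_num] at h2
  have hev : ∀ᶠ x : ℕ in atTop, yy x ≤ x ∧ 0 < yy x ∧ qq Q ≤ Real.log (yy x) ∧ 0 < Real.log (yy x : ℝ) ∧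
      1 ≤ Real.log (x : ℝ) ∧ (0 : ℝ) < x := by
    filter_upwards [yy_ge, hl.eventually_ge_atTop 1, eventually_ge_atTop 1, log_yy_top.eventually_ge_atTop (qq Q)] with
      x hx hx1 hx2 hx3
    have hx0 : (0 : ℝ) < x := by exact_mod_cast hx2
    have h4 : (0 : ℝ) < yy x := lt_of_lt_of_le (by positivity) hx
    refine ⟨?_, by exact_mod_cast h4, hx3, by linarith, hx1, hx0⟩
    have h5 := yy_le hx1
    have h6 : (x : ℝ) / Real.log x ^ 2 ≤ x := div_le_self hx0.le (one_le_pow₀ hx1)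
    exact_mod_cast h5.trans h6
  refine tendsto_of_tendsto_of_tendsto_of_le_of_le' h1 h2 ?_ ?_
  · filter_upwards [hev] with x hx
    obtain ⟨e1, e2, e3, e4, e5, e6⟩ := hx
    have h3 := (level_sum_bounds hQ e1 e2 e3).2
    rw [le_div_iff₀ (by positivity)]
    refine le_trans (le_of_eq ?_) h3
    field_simp
  · filter_upwards [hev] with x hx
    obtain ⟨e1, e2, e3, e4, e5, e6⟩ := hx
    have h3 := (level_sum_bounds hQ e1 e2 e3).1
    rw [div_le_iff₀ (by positivity)]
    refine h3.trans (le_of_eq ?_)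
    field_simp

theorem PP_tendsto {Q : ℕ} (hQ : 1 ≤ Q) : Tendsto (fun x : ℕ => PP Q x / (x / Real.log x)) atTop (𝓝 1) := by
  have h1 := main_range hQ
  have h2 := yy_small.add h1
  rw [zero_add] at h2
  refine tendsto_of_tendsto_of_tendsto_of_le_of_le' h1 h2 ?_ ?_
  · filter_upwards [hl.eventually_ge_atTop 1, eventually_ge_atTop 1] with x hx1 hx2
    have hx0 : (0 : ℝ) < x := by exact_mod_cast hx2
    apply div_le_div_of_nonneg_right _ (by positivity)
    unfold PP
    refine sum_le_sum_of_subset_of_nonneg (fun a ha => ?_) (fun a _ _ => level_nonneg Q a)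
    rw [mem_Ico] at ha
    exact mem_range.2 ha.2
  · filter_upwards [hl.eventually_ge_atTop 1, eventually_ge_atTop 1] with x hx1 hx2
    have hx0 : (0 : ℝ) < x := by exact_mod_cast hx2
    rw [← add_div]
    apply div_le_div_of_nonneg_right _ (by positivity)
    have h5 := yy_le hx1
    have h6 : (x : ℝ) / Real.log x ^ 2 ≤ x := div_le_self hx0.le (one_le_pow₀ hx1)
    have h7 : yy x ≤ x := by exact_mod_cast h5.trans h6
    unfold PP
    rw [← sum_range_add_sum_Ico _ h7]
    have h8 : ∑ a ∈ range (yy x), level Q a ≤ yy x := by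
      refine (sum_le_sum (fun a _ => level_le_one Q a)).trans ?_
      simp
    linarith

/-- The limits of both ends. -/
theorem l_tendsto {Q : ℕ} : Tendsto (fun x : ℕ => (Real.log (yy x : ℝ) - qq Q) / Real.log x) atTop (𝓝 1) := by
  have h1 : Tendsto (fun x : ℕ => Real.log (yy x : ℝ) / Real.log x - qq Q / Real.log x) atTop (𝓝 (1 - 0)) :=
    log_yy.sub (hl.const_div_atTop _)
  rw [sub_zero] at h1
  refine h1.congr (fun x => ?_)
  rw [sub_div]

theorem l_top {Q : ℕ} : Tendsto (fun x : ℕ => Real.log (yy x : ℝ) - qq Q) atTop atTop :=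
  tendsto_atTop_add_const_right _ (-(qq Q)) log_yy_top

theorem u_tendsto : Tendsto (fun x : ℕ => Real.log (2 * (x : ℝ)) / Real.log x) atTop (𝓝 1) :=
  Pool.Agent.Q120.AD.tendsto_log_mul (by norm_num)

theorem u_top : Tendsto (fun x : ℕ => Real.log (2 * (x : ℝ))) atTop atTop :=
  Real.tendsto_log_atTop.comp (tendsto_natCast_atTop_atTop.const_mul_atTop (by norm_num))

/-- The expected moment. -/
noncomputable def TT (Q : ℕ) (s : ℝ) (H x : ℕ) : ℝ := ∑ h ∈ range H, cc s h * EE (level Q) h x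

theorem core {s : ℝ} (hs : 0 < s) (H : ℕ → ℕ) (hH1 : Tendsto (fun x : ℕ => (H x : ℝ) / Real.log x) atTop atTop)
    {l : ℕ → ℝ} (hl1 : Tendsto (fun x => l x / Real.log x) atTop (𝓝 1)) (hl2 : Tendsto l atTop atTop) :
    Tendsto (fun x => (∑ h ∈ range (H x), cc s h * Real.exp (-(h : ℝ) / l x)) / Real.log x ^ s) atTop
      (𝓝 (Real.Gamma (s + 1))) := by
  have h1 : Tendsto (fun x => (H x : ℝ) / l x) atTop atTop := by
    have h2 := hH1.atTop_mul_pos (show (0 : ℝ) < 1⁻¹ by norm_num) (hl1.inv₀ one_ne_zero)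
    refine h2.congr' ?_
    filter_upwards [hl.eventually_gt_atTop 0, hl2.eventually_gt_atTop 0] with x hx hx2
    field_simp
  have h2 := gam_tendsto hs l H hl2 h1
  have h3 : Tendsto (fun x => (l x / Real.log x) ^ s) atTop (𝓝 (1 ^ s)) := hl1.rpow_const (Or.inl one_ne_zero)
  rw [Real.one_rpow] at h3
  have h4 := h2.mul h3
  rw [mul_one] at h4
  refine h4.congr' ?_
  filter_upwards [hl.eventually_gt_atTop 0, hl2.eventually_gt_atTop 0] with x hx hx2
  rw [Real.div_rpow hx2.le hx.le]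
  have := Real.rpow_pos_of_pos hx2 s
  have := Real.rpow_pos_of_pos hx s
  field_simp

/-- **The expected moments of the gaps.** -/
theorem TT_tendsto {Q : ℕ} (hQ : 1 ≤ Q) {s : ℝ} (hs : 0 < s) (H : ℕ → ℕ)
    (hH1 : Tendsto (fun x : ℕ => (H x : ℝ) / Real.log x) atTop atTop) (hH2 : ∀ᶠ x : ℕ in atTop, H x ≤ x) :
    Tendsto (fun x : ℕ => TT Q s (H x) x / ((x : ℝ) / Real.log x * Real.log x ^ s)) atTop (𝓝 (Real.Gamma (s + 1))) := by
  have hq := qq_pos hQ
  have a1 := core hs H hH1 (l_tendsto (Q := Q)) l_top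
  have a2 := core hs H hH1 u_tendsto u_top
  have b1 : Tendsto (fun x : ℕ => Real.exp (-(K2 Q) / (Real.log (yy x : ℝ) - qq Q))) atTop (𝓝 (Real.exp 0)) :=
    (Real.continuous_exp.tendsto 0).comp (tendsto_const_nhds.div_atTop l_top)
  have b2 : Tendsto (fun x : ℕ => Real.exp (K2 Q / Real.log (2 * (x : ℝ)))) atTop (𝓝 (Real.exp 0)) :=
    (Real.continuous_exp.tendsto 0).comp (tendsto_const_nhds.div_atTop u_top)
  rw [Real.exp_zero] at b1 b2
  have c1 := ((main_range hQ).mul b1).mul a1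
  have c2 := ((PP_tendsto hQ).mul b2).mul a2
  rw [one_mul, one_mul] at c1 c2
  refine tendsto_of_tendsto_of_tendsto_of_le_of_le' c1 c2 ?_ ?_
  · filter_upwards [hl.eventually_ge_atTop 1, eventually_ge_atTop 1, l_top.eventually_gt_atTop (0 : ℝ) (β := ℝ) (f := fun x : ℕ => Real.log (yy x : ℝ) - qq Q), yy_ge] with x hx1 hx2 hx3 hx4
    have hx0 : (0 : ℝ) < x := by exact_mod_cast hx2
    have h4 : (0 : ℝ) < yy x := lt_of_lt_of_le (by positivity) hx4
    have h5 := yy_le hx1
    have h6 : (x : ℝ) / Real.log x ^ 2 ≤ x := div_le_self hx0.le (one_le_pow₀ hx1)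
    have h7 : yy x ≤ x := by exact_mod_cast h5.trans h6
    have hlx : (0 : ℝ) < Real.log x := by linarith
    have hls := Real.rpow_pos_of_pos hlx s
    rw [le_div_iff₀ (by positivity)]
    unfold TT
    have h8 : ∀ h ∈ range (H x), cc s h * ((∑ a ∈ Ico (yy x) x, level Q a) *
        (Real.exp (-(K2 Q) / (Real.log (yy x : ℝ) - qq Q)) * Real.exp (-(h : ℝ) / (Real.log (yy x : ℝ) - qq Q)))) ≤
        cc s h * EE (level Q) h x := by
      intro h _
      apply mul_le_mul_of_nonneg_left _ (cc_nonneg hs h)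
      exact le_EE hQ h7 (by exact_mod_cast h4) (by linarith)
    refine le_trans (le_of_eq ?_) (sum_le_sum h8)
    have h9 : ∑ h ∈ range (H x), cc s h * ((∑ a ∈ Ico (yy x) x, level Q a) *
        (Real.exp (-(K2 Q) / (Real.log (yy x : ℝ) - qq Q)) * Real.exp (-(h : ℝ) / (Real.log (yy x : ℝ) - qq Q)))) =
        (∑ a ∈ Ico (yy x) x, level Q a) * Real.exp (-(K2 Q) / (Real.log (yy x : ℝ) - qq Q)) *
          ∑ h ∈ range (H x), cc s h * Real.exp (-(h : ℝ) / (Real.log (yy x : ℝ) - qq Q)) := by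
      rw [mul_sum]
      refine sum_congr rfl (fun h _ => ?_)
      ring
    rw [h9]
    field_simp
  · filter_upwards [hl.eventually_ge_atTop 1, eventually_ge_atTop 1, u_top.eventually_ge_atTop (qq Q), hH2] with x hx1 hx2 hx3 hx4
    have hx0 : (0 : ℝ) < x := by exact_mod_cast hx2
    have hlx : (0 : ℝ) < Real.log x := by linarith
    have hls := Real.rpow_pos_of_pos hlx s
    rw [div_le_iff₀ (by positivity)]
    unfold TT
    have h8 : ∀ h ∈ range (H x), cc s h * EE (level Q) h x ≤ cc s h * (PP Q x *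
        (Real.exp (K2 Q / Real.log (2 * x)) * Real.exp (-(h : ℝ) / Real.log (2 * x)))) := by
      intro h hh
      rw [mem_range] at hh
      apply mul_le_mul_of_nonneg_left _ (cc_nonneg hs h)
      exact EE_le hQ (by omega) hx3
    refine (sum_le_sum h8).trans (le_of_eq ?_)
    have h9 : ∑ h ∈ range (H x), cc s h * (PP Q x *
        (Real.exp (K2 Q / Real.log (2 * x)) * Real.exp (-(h : ℝ) / Real.log (2 * x)))) =
        PP Q x * Real.exp (K2 Q / Real.log (2 * x)) *
          ∑ h ∈ range (H x), cc s h * Real.exp (-(h : ℝ) / Real.log (2 * x)) := by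
      rw [mul_sum]
      refine sum_congr rfl (fun h _ => ?_)
      ring
    rw [h9]
    field_simp

/-- The expected number of elements, in the form of `EE`. -/
theorem EE_zero (Q x : ℕ) : EE (level Q) 0 x = PP Q x := by
  unfold EE PP pr
  refine sum_congr rfl (fun a _ => ?_)
  simp

end Pool.Agent.Q106.GMM
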