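import Pool.Agent.Q120.GM.Gap
import Pool.Agent.Q120.GM.Free

/-!
# The number of long gaps in a random set with independent elements: uniform concentration
-/

set_option autoImplicit false

namespace Pool.Agent.Q106.GMM

open Finset MeasureTheory ProbabilityTheory Filter Pool.Agent.Q120.GM

section cheb

variable {Ω : Type*} [MeasurableSpace Ω] {μ : Measure Ω} [IsProbabilityMeasure μ] {κ : Type*} [DecidableEq κ]

/-- Chebyshev's inequality for the number of pairwise negatively correlated events. -/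
theorem cheb (J : Finset κ) (G : κ → Set Ω) (hG : ∀ j ∈ J, MeasurableSet (G j))
    (hc : ∀ i ∈ J, ∀ j ∈ J, i ≠ j → μ.real (G i ∩ G j) ≤ μ.real (G i) * μ.real (G j)) {t : ℝ} (ht : 0 < t) :
    μ.real {ω | t ≤ |num J G ω - ∑ j ∈ J, μ.real (G j)|} ≤ (∑ j ∈ J, μ.real (G j)) / t ^ 2 := by
  obtain ⟨S, hSd⟩ : ∃ S, S = ∑ j ∈ J, μ.real (G j) := ⟨_, rfl⟩
  rw [← hSd]
  obtain ⟨h1, h2⟩ := num_int (μ := μ) J G hG
  rw [← hSd] at h2
  have hind : ∀ (E E' : Set Ω) (ω : Ω), E.indicator (fun _ => (1 : ℝ)) ω * E'.indicator (fun _ => (1 : ℝ)) ω =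
      (E ∩ E').indicator (fun _ => (1 : ℝ)) ω := by
    intro E E' ω
    by_cases h1 : ω ∈ E <;> by_cases h2 : ω ∈ E' <;> simp [h1, h2]
  have hsq : ∀ ω, (num J G ω - S) ^ 2 = (∑ i ∈ J, ∑ j ∈ J, (G i ∩ G j).indicator (fun _ => (1 : ℝ)) ω) -
      2 * S * num J G ω + S ^ 2 := by
    intro ω
    have h3 : num J G ω ^ 2 = ∑ i ∈ J, ∑ j ∈ J, (G i ∩ G j).indicator (fun _ => (1 : ℝ)) ω := by
      rw [sq]
      unfold num
      rw [sum_mul_sum]
      exact sum_congr rfl (fun i _ => sum_congr rfl (fun j _ => hind _ _ _))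
    rw [← h3]
    ring
  have hi1 : ∀ i ∈ J, ∀ j ∈ J, Integrable ((G i ∩ G j).indicator (fun _ => (1 : ℝ))) μ := fun i hi j hj =>
    (integrable_const 1).indicator ((hG i hi).inter (hG j hj))
  have hi2 : ∀ i ∈ J, Integrable (fun ω => ∑ j ∈ J, (G i ∩ G j).indicator (fun _ => (1 : ℝ)) ω) μ := fun i hi =>
    integrable_finsetSum _ (fun j hj => hi1 i hi j hj)
  have hi3 : Integrable (fun ω => ∑ i ∈ J, ∑ j ∈ J, (G i ∩ G j).indicator (fun _ => (1 : ℝ)) ω) μ :=
    integrable_finsetSum _ hi2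
  have hi4 : Integrable (fun ω => 2 * S * num J G ω) μ := h1.const_mul _
  have hi5 : Integrable (fun ω => (∑ i ∈ J, ∑ j ∈ J, (G i ∩ G j).indicator (fun _ => (1 : ℝ)) ω) -
      2 * S * num J G ω) μ := hi3.sub hi4
  have hi6 : Integrable (fun ω => (num J G ω - S) ^ 2) μ :=
    (hi5.add (integrable_const (S ^ 2))).congr (Eventually.of_forall (fun ω => by
      simp only [Pi.add_apply]
      rw [hsq ω]))
  have hint : ∫ ω, (num J G ω - S) ^ 2 ∂μ = (∑ i ∈ J, ∑ j ∈ J, μ.real (G i ∩ G j)) - 2 * S * S + S ^ 2 := by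
    calc ∫ ω, (num J G ω - S) ^ 2 ∂μ = ∫ ω, ((∑ i ∈ J, ∑ j ∈ J, (G i ∩ G j).indicator (fun _ => (1 : ℝ)) ω) -
          2 * S * num J G ω + S ^ 2) ∂μ := integral_congr_ae (Eventually.of_forall hsq)
      _ = _ := by
        rw [integral_add hi5 (integrable_const _), integral_sub hi3 hi4, integral_const_mul, h2, integral_const]
        rw [integral_finsetSum _ hi2]
        congr 1
        · congr 1
          refine sum_congr rfl (fun i hi => ?_)
          rw [integral_finsetSum _ (fun j hj => hi1 i hi j hj)]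
          refine sum_congr rfl (fun j hj => ?_)
          rw [integral_indicator_const _ ((hG i hi).inter (hG j hj))]
          simp
        · simp
  have hdb : ∑ i ∈ J, ∑ j ∈ J, μ.real (G i ∩ G j) ≤ S + S * S := by
    have h4 : ∀ i ∈ J, ∑ j ∈ J, μ.real (G i ∩ G j) ≤ μ.real (G i) + μ.real (G i) * S := by
      intro i hi
      have h5 : ∀ j ∈ J, μ.real (G i ∩ G j) ≤ (if j = i then μ.real (G i) else 0) +
          μ.real (G i) * μ.real (G j) := by
        intro j hj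
        by_cases hji : j = i
        · subst hji
          rw [if_pos rfl, Set.inter_self]
          have : 0 ≤ μ.real (G j) * μ.real (G j) := by
            have := measureReal_nonneg (μ := μ) (s := G j)
            positivity
          linarith
        · rw [if_neg hji, zero_add]
          exact hc i hi j hj (Ne.symm hji)
      refine (sum_le_sum h5).trans ?_
      rw [sum_add_distrib, sum_ite_eq', if_pos hi, ← mul_sum, ← hSd]
    refine (sum_le_sum h4).trans ?_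
    rw [sum_add_distrib, ← sum_mul, ← hSd]
  have hvar : ∫ ω, (num J G ω - S) ^ 2 ∂μ ≤ S := by
    rw [hint]
    nlinarith
  have h3 := mul_meas_ge_le_integral_of_nonneg (μ := μ) (f := fun ω => (num J G ω - S) ^ 2)
    (Eventually.of_forall (fun ω => sq_nonneg _)) hi6 (t ^ 2)
  have h4 : {ω | t ≤ |num J G ω - S|} ⊆ {ω | t ^ 2 ≤ (num J G ω - S) ^ 2} := by
    intro ω hω
    have hω' : t ≤ |num J G ω - S| := hω
    show t ^ 2 ≤ (num J G ω - S) ^ 2
    rw [← sq_abs (num J G ω - S)]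
    exact pow_le_pow_left₀ ht.le hω' 2
  have h5 : μ.real {ω | t ≤ |num J G ω - S|} ≤ μ.real {ω | t ^ 2 ≤ (num J G ω - S) ^ 2} :=
    measureReal_mono h4 (measure_ne_top _ _)
  have h6 : t ^ 2 * μ.real {ω | t ≤ |num J G ω - S|} ≤ S :=
    (mul_le_mul_of_nonneg_left h5 (by positivity)).trans (h3.trans hvar)
  rw [le_div_iff₀ (by positivity)]
  linarith

end cheb

variable {Ω : Type*} [MeasurableSpace Ω] {μ : Measure Ω} [IsProbabilityMeasure μ] {p : ℕ → ℝ} {A : Ω → Set ℕ} {Q : ℕ}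

/-- `a` is an element of `S` and the next `h` integers are not. -/
def Long (S : Set ℕ) (h a : ℕ) : Prop := a ∈ S ∧ ∀ n, a < n → n ≤ a + h → n ∉ S

/-- The number of elements below `x` after which at least `h` integers are missing. -/
noncomputable def cnt (S : Set ℕ) (h x : ℕ) : ℝ := by
  classical
  exact (((range x).filter (fun a => Long S h a)).card : ℝ)

theorem cnt_eq (S : Set ℕ) (h x : ℕ) [DecidablePred (fun a => Long S h a)] :
    cnt S h x = (((range x).filter (fun a => Long S h a)).card : ℝ) := by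
  unfold cnt
  congr

theorem cnt_mono (S : Set ℕ) (h : ℕ) {x y : ℕ} (hxy : x ≤ y) : cnt S h x ≤ cnt S h y := by
  classical
  rw [cnt_eq, cnt_eq]
  have : range x ⊆ range y := range_subset_range.2 hxy
  exact_mod_cast card_le_card (filter_subset_filter _ this)

/-- The probability that `a` is an element and the next `h` integers are not. -/
noncomputable def pr (p : ℕ → ℝ) (h a : ℕ) : ℝ := p a * ∏ n ∈ Ioc a (a + h), (1 - p n)

/-- The expectation of `cnt`. -/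
noncomputable def EE (p : ℕ → ℝ) (h x : ℕ) : ℝ := ∑ a ∈ range x, pr p h a

/-- The event that the gap after `a` exceeds `h`. -/
def Ev (A : Ω → Set ℕ) (h a : ℕ) : Set Ω := all A {a} ∩ free A (Ioc a (a + h))

omit [MeasurableSpace Ω] in
theorem mem_Ev (h a : ℕ) (ω : Ω) : ω ∈ Ev A h a ↔ Long (A ω) h a := by
  unfold Ev Long all free
  simp only [Set.mem_inter_iff, Set.mem_ofPred_eq, mem_singleton, forall_eq, mem_Ioc, and_imp]

theorem F_Ev (h a : ℕ) : MeasurableSet[F A (Set.Icc a (a + h))] (Ev A h a) := by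
  refine MeasurableSet.inter (F_all (fun i hi => ?_)) (F_free (fun i hi => ?_))
  · rw [mem_singleton] at hi
    rw [hi, Set.mem_Icc]
    omega
  · rw [mem_Ioc] at hi
    rw [Set.mem_Icc]
    omega

theorem meas_Ev (hA : IsModel μ p A) (h a : ℕ) : MeasurableSet (Ev A h a) := F_le hA _ _ (F_Ev h a)

theorem real_Ev (hA : IsModel μ p A) (h a : ℕ) : μ.real (Ev A h a) = pr p h a := by
  unfold Ev pr
  rw [indep_real hA (S := {a}) (T := Set.Ioc a (a + h)) ?_ (F_all (fun i hi => ?_)) (F_free (fun i hi => ?_)),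
    real_all hA, real_free hA, prod_singleton]
  · rw [Set.disjoint_singleton_left, Set.mem_Ioc]
    omega
  · rw [mem_singleton] at hi
    rw [hi]
    exact Set.mem_singleton _
  · rw [mem_Ioc] at hi
    rw [Set.mem_Ioc]
    omega

theorem pr_nonneg (hp0 : ∀ n, 0 ≤ p n) (hp1 : ∀ n, p n ≤ 1) (h a : ℕ) : 0 ≤ pr p h a := by
  unfold pr
  exact mul_nonneg (hp0 a) (prod_nonneg (fun n _ => by linarith [hp1 n]))

theorem pr_le_one (hp0 : ∀ n, 0 ≤ p n) (hp1 : ∀ n, p n ≤ 1) (h a : ℕ) : pr p h a ≤ 1 := by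
  unfold pr
  refine mul_le_one₀ (hp1 a) (prod_nonneg (fun n _ => by linarith [hp1 n])) ?_
  exact prod_le_one (fun n _ => by linarith [hp1 n]) (fun n _ => by linarith [hp0 n])

theorem neg_corr (hA : IsModel μ p A) (h : ℕ) {a b : ℕ} (hab : a ≠ b) :
    μ.real (Ev A h a ∩ Ev A h b) ≤ μ.real (Ev A h a) * μ.real (Ev A h b) := by
  have key : ∀ a b : ℕ, a < b → μ.real (Ev A h a ∩ Ev A h b) ≤ μ.real (Ev A h a) * μ.real (Ev A h b) := by
    intro a b hab
    by_cases hb : b ≤ a + h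
    · have h1 : Ev A h a ∩ Ev A h b = ∅ := by
        ext ω
        simp only [Set.mem_inter_iff, mem_Ev, Set.mem_empty_iff_false, iff_false]
        rintro ⟨h2, h3⟩
        exact h2.2 b hab hb h3.1
      rw [h1, measureReal_empty]
      have := measureReal_nonneg (μ := μ) (s := Ev A h a)
      have := measureReal_nonneg (μ := μ) (s := Ev A h b)
      positivity
    · refine le_of_eq (indep_real hA (S := Set.Icc a (a + h)) (T := Set.Icc b (b + h)) ?_ (F_Ev h a) (F_Ev h b))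
      rw [Set.disjoint_left]
      intro n hn hn2
      rw [Set.mem_Icc] at hn hn2
      omega
  rcases lt_or_gt_of_ne hab with h1 | h1
  · exact key a b h1
  · rw [Set.inter_comm, mul_comm]
    exact key b a h1

omit [MeasurableSpace Ω] in
theorem cnt_num (h x : ℕ) (ω : Ω) : cnt (A ω) h x = num (range x) (Ev A h) ω := by
  classical
  rw [cnt_eq, card_filter]
  push_cast
  unfold num
  refine sum_congr rfl (fun a _ => ?_)
  by_cases h1 : Long (A ω) h a
  · rw [if_pos h1, Set.indicator_of_mem ((mem_Ev h a ω).2 h1)]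
  · rw [if_neg h1, Set.indicator_of_notMem (fun h2 => h1 ((mem_Ev h a ω).1 h2))]

theorem conc_one (hA : IsModel μ p A) (h x : ℕ) {t : ℝ} (ht : 0 < t) :
    μ.real {ω | t ≤ |cnt (A ω) h x - EE p h x|} ≤ x / t ^ 2 := by
  have h1 := cheb (μ := μ) (range x) (Ev A h) (fun a _ => meas_Ev hA h a) (fun a _ b _ hab => neg_corr hA h hab) ht
  have h2 : ∑ a ∈ range x, μ.real (Ev A h a) = EE p h x := sum_congr rfl (fun a _ => real_Ev hA h a)
  rw [h2] at h1
  simp only [cnt_num]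
  refine h1.trans ?_
  apply div_le_div_of_nonneg_right _ (by positivity)
  rw [← h2]
  have h3 : ∀ a ∈ range x, μ.real (Ev A h a) ≤ 1 := fun a _ => measureReal_le_one
  refine (sum_le_sum h3).trans ?_
  simp

theorem EE_mono (hp0 : ∀ n, 0 ≤ p n) (hp1 : ∀ n, p n ≤ 1) (h : ℕ) {x y : ℕ} (hxy : x ≤ y) :
    EE p h x ≤ EE p h y ∧ EE p h y ≤ EE p h x + ((y : ℝ) - x) := by
  have h1 : EE p h y = EE p h x + ∑ a ∈ Ico x y, pr p h a := by
    unfold EE
    rw [sum_range_add_sum_Ico _ hxy]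
  have h2 : 0 ≤ ∑ a ∈ Ico x y, pr p h a := sum_nonneg (fun a _ => pr_nonneg hp0 hp1 h a)
  have h3 : ∑ a ∈ Ico x y, pr p h a ≤ (y : ℝ) - x := by
    have h4 : ∀ a ∈ Ico x y, pr p h a ≤ 1 := fun a _ => pr_le_one hp0 hp1 h a
    refine (sum_le_sum h4).trans ?_
    rw [sum_const, Nat.card_Ico, nsmul_eq_mul, mul_one, Nat.cast_sub hxy]
  constructor <;> linarith

/-- **Uniform concentration of the numbers of long gaps.** -/
theorem conc (hA : IsModel μ p A) (hp0 : ∀ n, 0 ≤ p n) (hp1 : ∀ n, p n ≤ 1) :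
    ∀ᵐ ω ∂μ, ∀ᶠ x : ℕ in atTop, ∀ h : ℕ, h ^ 4 ≤ x → |cnt (A ω) h x - EE p h x| ≤ 30 * (x : ℝ) ^ (7 / 8 : ℝ) := by
  have h1 : ∀ᵐ ω ∂μ, ∀ᶠ k : ℕ in atTop,
      ω ∉ ⋃ h ∈ range (k + 1), {ω | (k : ℝ) ^ (7 / 2 : ℝ) ≤ |cnt (A ω) h (k ^ 4) - EE p h (k ^ 4)|} := by
    refine bc (g := fun k : ℕ => 2 * (1 / (k : ℝ) ^ 2)) ?_ ?_
    · exact (Real.summable_one_div_nat_pow.2 (by norm_num)).mul_left 2
    · filter_upwards [eventually_ge_atTop 1] with k hk
      have hk' : (1 : ℝ) ≤ k := by exact_mod_cast hk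
      have hk0 : (0 : ℝ) < k := by linarith
      refine (measureReal_biUnion_finset_le _ _).trans ?_
      have h2 : ∀ h ∈ range (k + 1), μ.real {ω | (k : ℝ) ^ (7 / 2 : ℝ) ≤ |cnt (A ω) h (k ^ 4) - EE p h (k ^ 4)|} ≤
          1 / (k : ℝ) ^ 3 := by
        intro h _
        refine (conc_one hA h (k ^ 4) (by positivity)).trans (le_of_eq ?_)
        have h3 : ((k : ℝ) ^ (7 / 2 : ℝ)) ^ 2 = (k : ℝ) ^ 7 := by
          rw [← Real.rpow_natCast, ← Real.rpow_mul hk0.le, ← Real.rpow_natCast]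
          norm_num
        rw [h3]
        push_cast
        field_simp
      refine (sum_le_sum h2).trans ?_
      rw [sum_const, card_range, nsmul_eq_mul]
      push_cast
      rw [mul_one_div, mul_one_div, div_le_div_iff₀ (by positivity) (by positivity)]
      have : (k : ℝ) ^ 3 = k * (k : ℝ) ^ 2 := by ring
      rw [this]
      have h4 : (0 : ℝ) < (k : ℝ) ^ 2 := by positivity
      nlinarith
  filter_upwards [h1] with ω hω
  obtain ⟨k₀, hk₀⟩ := eventually_atTop.1 hω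
  filter_upwards [eventually_ge_atTop ((k₀ + 1) ^ 4)] with x hx h hh
  -- the fourth root
  obtain ⟨k, hk1, hk2⟩ : ∃ k : ℕ, k ^ 4 ≤ x ∧ x < (k + 1) ^ 4 := by
    have h2 : ∃ k : ℕ, x < (k + 1) ^ 4 := ⟨x, by nlinarith [Nat.one_le_pow 3 (x + 1) (by omega), pow_succ (x + 1) 3]⟩
    classical
    refine ⟨Nat.find h2, ?_, Nat.find_spec h2⟩
    by_contra hcon
    rw [not_le] at hcon
    have h3 : Nat.find h2 ≠ 0 := by
      intro h4
      rw [h4] at hcon
      simp at hcon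
    have h5 := Nat.find_min h2 (m := Nat.find h2 - 1) (by omega)
    rw [show Nat.find h2 - 1 + 1 = Nat.find h2 by omega] at h5
    exact h5 hcon
  have hkk : k₀ < k + 1 := by
    by_contra hcon
    have : (k + 1) ^ 4 ≤ (k₀ + 1) ^ 4 := Nat.pow_le_pow_left (by omega) 4
    omega
  have hk0 : 1 ≤ k := by
    by_contra hcon
    have h3 : k = 0 := by omega
    rw [h3] at hk2
    have h4 : 1 ≤ (k₀ + 1) ^ 4 := Nat.one_le_pow _ _ (by omega)
    omega
  have hhk : h ≤ k := by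
    by_contra hcon
    have : (k + 1) ^ 4 ≤ h ^ 4 := Nat.pow_le_pow_left (by omega) 4
    omega
  have e1 : |cnt (A ω) h (k ^ 4) - EE p h (k ^ 4)| < (k : ℝ) ^ (7 / 2 : ℝ) := by
    by_contra hcon
    rw [not_lt] at hcon
    refine hk₀ k (by omega) ?_
    rw [Set.mem_iUnion₂]
    exact ⟨h, mem_range.2 (by omega), hcon⟩
  have e2 : |cnt (A ω) h ((k + 1) ^ 4) - EE p h ((k + 1) ^ 4)| < ((k + 1 : ℕ) : ℝ) ^ (7 / 2 : ℝ) := by
    by_contra hcon
    rw [not_lt] at hcon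
    refine hk₀ (k + 1) (by omega) ?_
    rw [Set.mem_iUnion₂]
    exact ⟨h, mem_range.2 (by omega), hcon⟩
  have hk' : (1 : ℝ) ≤ k := by exact_mod_cast hk0
  have hxr : (k : ℝ) ^ 4 ≤ x := by exact_mod_cast hk1
  have hx0 : (0 : ℝ) ≤ x := Nat.cast_nonneg x
  have hx1 : (1 : ℝ) ≤ x := by
    have : (1 : ℝ) ≤ (k : ℝ) ^ 4 := one_le_pow₀ hk'
    linarith
  have hpow : ((k + 1 : ℕ) : ℝ) ^ (7 / 2 : ℝ) ≤ 12 * (x : ℝ) ^ (7 / 8 : ℝ) := by
    have h3 : ((k + 1 : ℕ) : ℝ) ^ (7 / 2 : ℝ) = (((k + 1 : ℕ) : ℝ) ^ 4) ^ (7 / 8 : ℝ) := by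
      rw [← Real.rpow_natCast, ← Real.rpow_mul (Nat.cast_nonneg _)]
      norm_num
    have h4 : ((k + 1 : ℕ) : ℝ) ^ 4 ≤ 16 * (x : ℝ) := by
      have h5 : ((k + 1 : ℕ) : ℝ) ≤ 2 * k := by
        push_cast
        linarith
      calc ((k + 1 : ℕ) : ℝ) ^ 4 ≤ (2 * (k : ℝ)) ^ 4 := pow_le_pow_left₀ (Nat.cast_nonneg _) h5 4
        _ = 16 * (k : ℝ) ^ 4 := by ring
        _ ≤ _ := by linarith
    rw [h3]
    calc (((k + 1 : ℕ) : ℝ) ^ 4) ^ (7 / 8 : ℝ) ≤ (16 * (x : ℝ)) ^ (7 / 8 : ℝ) :=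
          Real.rpow_le_rpow (by positivity) h4 (by norm_num)
      _ = (16 : ℝ) ^ (7 / 8 : ℝ) * (x : ℝ) ^ (7 / 8 : ℝ) := Real.mul_rpow (by norm_num) hx0
      _ ≤ 12 * (x : ℝ) ^ (7 / 8 : ℝ) := by
        apply mul_le_mul_of_nonneg_right _ (by positivity)
        have h6 : ((16 : ℝ) ^ (7 / 8 : ℝ)) ^ 8 ≤ (12 : ℝ) ^ 8 := by
          rw [← Real.rpow_natCast, ← Real.rpow_mul (by norm_num)]
          norm_num
        exact le_of_pow_le_pow_left₀ (by norm_num) (by norm_num) h6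
  have hpow1 : (k : ℝ) ^ (7 / 2 : ℝ) ≤ 12 * (x : ℝ) ^ (7 / 8 : ℝ) := by
    refine le_trans (Real.rpow_le_rpow (by positivity) ?_ (by norm_num)) hpow
    push_cast
    linarith
  have hdiff : (((k + 1) ^ 4 : ℕ) : ℝ) - ((k ^ 4 : ℕ) : ℝ) ≤ 15 * (x : ℝ) ^ (7 / 8 : ℝ) := by
    have h3 : (((k + 1) ^ 4 : ℕ) : ℝ) - ((k ^ 4 : ℕ) : ℝ) ≤ 15 * (k : ℝ) ^ 3 := by
      push_cast
      have h4 : (k : ℝ) ^ 2 ≤ (k : ℝ) ^ 3 := pow_le_pow_right₀ hk' (by norm_num)
      have h5 : (k : ℝ) ^ 1 ≤ (k : ℝ) ^ 3 := pow_le_pow_right₀ hk' (by norm_num)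
      have h6 : (1 : ℝ) ≤ (k : ℝ) ^ 3 := one_le_pow₀ hk'
      nlinarith
    refine h3.trans ?_
    apply mul_le_mul_of_nonneg_left _ (by norm_num)
    have h4 : (k : ℝ) ^ 3 = ((k : ℝ) ^ 4) ^ (3 / 4 : ℝ) := by
      rw [← Real.rpow_natCast, ← Real.rpow_natCast, ← Real.rpow_mul (by positivity)]
      norm_num
    rw [h4]
    refine (Real.rpow_le_rpow (by positivity) hxr (by norm_num)).trans ?_
    exact Real.rpow_le_rpow_of_exponent_le hx1 (by norm_num)
  obtain ⟨m1, m2⟩ := EE_mono hp0 hp1 h (x := k ^ 4) (y := x) hk1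
  obtain ⟨m3, m4⟩ := EE_mono hp0 hp1 h (x := x) (y := (k + 1) ^ 4) hk2.le
  have c1 := cnt_mono (A ω) h (x := k ^ 4) (y := x) hk1
  have c2 := cnt_mono (A ω) h (x := x) (y := (k + 1) ^ 4) hk2.le
  have hxx1 : ((k ^ 4 : ℕ) : ℝ) ≤ x := by exact_mod_cast hk1
  have hxx2 : (x : ℝ) ≤ (((k + 1) ^ 4 : ℕ) : ℝ) := by exact_mod_cast hk2.le
  rw [abs_lt] at e1 e2
  rw [abs_le]
  constructor <;> linarith [e1.1, e1.2, e2.1, e2.2]

end Pool.Agent.Q106.GMM
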