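import Pool.Agent.Q106.GMM.Poly

/-!
# The constant of the polynomial `X ^ 2 - 2` at the levels which are products of distinct primes
-/

set_option autoImplicit false

namespace Pool.Agent.Q106.GMM

open Finset Filter Pool.Agent.Q120.GM Polynomial
open scoped NumberTheorySymbols

/-- The number of the `r` modulo `Q` such that `r ^ 2 - 2` is a unit. -/
noncomputable def UQ (Q : ℕ) : ℕ := Nat.card {r : ZMod Q // IsUnit (r ^ 2 - 2)}

theorem UQ_mul {m n : ℕ} (h : m.Coprime n) : UQ (m * n) = UQ m * UQ n := by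
  unfold UQ
  rw [← Nat.card_prod]
  let e := ZMod.chineseRemainder h
  have hunit : ∀ r : ZMod (m * n), IsUnit (r ^ 2 - 2) ↔ IsUnit ((e r).1 ^ 2 - 2) ∧ IsUnit ((e r).2 ^ 2 - 2) := by
    intro r
    have h1 : IsUnit (r ^ 2 - 2) ↔ IsUnit (e (r ^ 2 - 2)) := (MulEquiv.isUnit_map e.toMulEquiv).symm
    rw [h1, Prod.isUnit_iff]
    have h2 : e (r ^ 2 - 2) = (e r) ^ 2 - 2 := by
      rw [map_sub, map_pow]
      congr 1
      exact map_ofNat e 2
    rw [h2]
    rfl
  refine Nat.card_congr ?_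
  refine (Equiv.subtypeEquiv e.toEquiv (q := fun s => IsUnit (s.1 ^ 2 - 2) ∧ IsUnit (s.2 ^ 2 - 2)) hunit).trans ?_
  exact Equiv.subtypeProdEquivProd (p := fun r : ZMod m => IsUnit (r ^ 2 - 2)) (q := fun r : ZMod n => IsUnit (r ^ 2 - 2))

theorem UQ_one : UQ 1 = 1 := by
  unfold UQ
  have h : ∀ r : ZMod 1, IsUnit (r ^ 2 - 2) := by decide
  rw [Nat.card_congr (Equiv.subtypeUnivEquiv h), Nat.card_zmod]

theorem UQ_two : UQ 2 = 1 := by
  unfold UQ
  rw [Nat.card_eq_one_iff_exists]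
  refine ⟨⟨1, by decide⟩, ?_⟩
  rintro ⟨r, hr⟩
  rw [Subtype.mk.injEq]
  revert hr
  revert r
  decide

theorem UQ_prime {p : ℕ} (hp : p.Prime) (h2 : p ≠ 2) : (UQ p : ℝ) = (p : ℝ) - 1 - (J(2 | p) : ℝ) := by
  have : Fact p.Prime := ⟨hp⟩
  have h1 := legendreSym.card_sqrts p h2 2
  unfold UQ
  have h3 : Nat.card {r : ZMod p // IsUnit (r ^ 2 - 2)} + ({x : ZMod p | x ^ 2 = (2 : ℤ)} : Set (ZMod p)).toFinset.card = p := by
    rw [Nat.card_eq_fintype_card, Fintype.card_subtype]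
    have h4 : (({x : ZMod p | x ^ 2 = ((2 : ℤ) : ZMod p)} : Set (ZMod p)).toFinset) =
        univ.filter (fun x : ZMod p => ¬ IsUnit (x ^ 2 - 2)) := by
      ext x
      simp only [Set.mem_toFinset, Set.mem_ofPred_eq, mem_filter, mem_univ, true_and, isUnit_iff_ne_zero, ne_eq, not_not,
        sub_eq_zero]
      norm_num
    rw [h4, card_filter_add_card_filter_not]
    simp [ZMod.card]
  have h5 : (J(2 | p) : ℤ) = legendreSym p 2 := (jacobiSym.legendreSym.to_jacobiSym p 2).symm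
  rw [h5]
  have h6 : ((Nat.card {r : ZMod p // IsUnit (r ^ 2 - 2)} : ℕ) : ℤ) + (legendreSym p 2 + 1) = p := by
    rw [← h1]
    exact_mod_cast h3
  have h7 : ((Nat.card {r : ZMod p // IsUnit (r ^ 2 - 2)} : ℕ) : ℝ) + ((legendreSym p 2 : ℝ) + 1) = p := by exact_mod_cast h6
  linarith

theorem gc_card {Q : ℕ} (hQ : 1 ≤ Q) [DecidablePred (GC Q (X ^ 2 - 2) {0})] :
    ((range Q).filter (GC Q (X ^ 2 - 2) {0})).card = UQ Q := by
  classical
  have : NeZero Q := ⟨by omega⟩
  unfold UQ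
  rw [Nat.card_eq_fintype_card, Fintype.card_subtype]
  refine card_bij (fun m _ => (m : ZMod Q)) ?_ ?_ ?_
  · intro m hm
    rw [mem_filter] at hm ⊢
    refine ⟨mem_univ _, ?_⟩
    have h := hm.2 0 (mem_singleton_self 0)
    rw [isCoprime_comm, ← ZMod.coe_int_isUnit_iff_isCoprime] at h
    simpa using h
  · intro m hm n hn h
    rw [mem_filter, mem_range] at hm hn
    have h1 := (ZMod.natCast_eq_natCast_iff' m n Q).1 h
    rwa [Nat.mod_eq_of_lt hm.1, Nat.mod_eq_of_lt hn.1] at h1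
  · intro r hr
    rw [mem_filter] at hr
    refine ⟨r.val, ?_, ZMod.natCast_zmod_val r⟩
    rw [mem_filter, mem_range]
    refine ⟨ZMod.val_lt r, ?_⟩
    intro h hh
    rw [mem_singleton] at hh
    subst hh
    rw [isCoprime_comm, ← ZMod.coe_int_isUnit_iff_isCoprime]
    have h1 := hr.2
    rw [← ZMod.natCast_zmod_val r] at h1
    simpa using h1

theorem singP_prod (T : Finset ℕ) (hT : ∀ p ∈ T, p.Prime) :
    singP (∏ p ∈ T, p) (X ^ 2 - 2) {0} = ∏ p ∈ T.filter (fun p => p ≠ 2), (1 - (J(2 | p) : ℝ) / ((p : ℝ) - 1)) := by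
  classical
  have key : ∀ T : Finset ℕ, (∀ p ∈ T, p.Prime) → 1 ≤ ∏ p ∈ T, p ∧
      (UQ (∏ p ∈ T, p) : ℝ) = (Nat.totient (∏ p ∈ T, p) : ℝ) * ∏ p ∈ T.filter (fun p => p ≠ 2), (1 - (J(2 | p) : ℝ) / ((p : ℝ) - 1)) := by
    intro T
    induction T using Finset.induction_on with
    | empty =>
      intro _
      simp [UQ_one]
    | insert p T hp ih =>
      intro hT
      have hpp := hT p (mem_insert_self _ _)
      obtain ⟨ih1, ih2⟩ := ih (fun q hq => hT q (mem_insert_of_mem hq))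
      have hcop : p.Coprime (∏ q ∈ T, q) := by
        refine Nat.Coprime.prod_right (fun q hq => ?_)
        refine (Nat.coprime_primes hpp (hT q (mem_insert_of_mem hq))).2 ?_
        rintro rfl
        exact hp hq
      rw [prod_insert hp]
      refine ⟨Nat.mul_pos hpp.pos ih1, ?_⟩
      rw [UQ_mul hcop, Nat.totient_mul hcop, Nat.cast_mul, Nat.cast_mul, ih2, Nat.totient_prime hpp, filter_insert]
      have hp1 : (1 : ℝ) < p := by exact_mod_cast hpp.one_lt
      have hp1' : (p : ℝ) - 1 ≠ 0 := by linarith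
      by_cases h2 : p = 2
      · subst h2
        rw [if_neg (by simp), UQ_two]
        norm_num
      · rw [if_pos h2, prod_insert (fun h => hp (mem_filter.1 h).1), UQ_prime hpp h2, Nat.cast_sub hpp.one_lt.le]
        field_simp
        push_cast
        ring
  obtain ⟨h1, h2⟩ := key T hT
  have h3 : (0 : ℝ) < (Nat.totient (∏ p ∈ T, p) : ℝ) := by exact_mod_cast Nat.totient_pos.2 h1
  have h4 : (0 : ℝ) < ((∏ p ∈ T, p : ℕ) : ℝ) := by exact_mod_cast h1
  unfold singP qq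
  rw [gc_card h1, h2, card_singleton, pow_one]
  field_simp

end Pool.Agent.Q106.GMM
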