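import Pool.Agent.Q106.GMM.Asy
import Pool.Agent.Q106.GMM.Stz

/-!
# Moments of the gaps and power sums of the differences of powers
-/

set_option autoImplicit false

namespace Pool.Agent.Q106.GMM

open Finset Filter Pool.Agent.Q120.GM
open Pool.Agent.Q120.AD (hl)
open scoped Topology

/-- The `n`-th element. -/
noncomputable def el (S : Set ℕ) (n : ℕ) : ℕ := Nat.nth (· ∈ S) n

/-- The properties of a typical set. -/
structure Typ (Q : ℕ) (S : Set ℕ) : Prop where
  gap : ∀ᶠ x : ℕ in atTop, ∃ n ∈ S, x < n ∧ (n : ℝ) ≤ x + 2 * Real.log x ^ 2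
  conc : ∀ᶠ x : ℕ in atTop, ∀ h : ℕ, h ^ 4 ≤ x → |cnt S h x - EE (level Q) h x| ≤ 30 * (x : ℝ) ^ (7 / 8 : ℝ)

section

variable {Q : ℕ} {S : Set ℕ}

theorem Typ.inf (h : Typ Q S) : S.Infinite := by
  obtain ⟨x₀, hx₀⟩ := eventually_atTop.1 h.gap
  rw [Set.infinite_iff_exists_gt]
  intro a
  obtain ⟨n, hn, h1, _⟩ := hx₀ (max a x₀) (le_max_right _ _)
  exact ⟨n, hn, lt_of_le_of_lt (le_max_left _ _) h1⟩

theorem el_mem (hS : S.Infinite) (n : ℕ) : el S n ∈ S := Nat.nth_mem_of_infinite hS n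

theorem el_mono (hS : S.Infinite) : StrictMono (el S) := Nat.nth_strictMono hS

theorem el_surj {m : ℕ} (hm : m ∈ S) : ∃ n, el S n = m := by
  classical
  exact ⟨Nat.count (· ∈ S) m, Nat.nth_count hm⟩

theorem el_ge (hS : S.Infinite) (n : ℕ) : n ≤ el S n := (el_mono hS).id_le n

theorem el_top (hS : S.Infinite) : Tendsto (el S) atTop atTop := (el_mono hS).tendsto_atTop

theorem cnt_el (hS : S.Infinite) (h N : ℕ) :
    cnt S h (el S N) = (((range N).filter (fun n => h < el S (n + 1) - el S n)).card : ℝ) := by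
  classical
  rw [cnt_eq]
  have h1 : (range (el S N)).filter (fun a => Long S h a) =
      ((range N).filter (fun n => h < el S (n + 1) - el S n)).image (el S) := by
    ext a
    rw [mem_filter, mem_range, mem_image]
    constructor
    · rintro ⟨h1, h2, h3⟩
      obtain ⟨n, rfl⟩ := el_surj h2
      refine ⟨n, ?_, rfl⟩
      rw [mem_filter, mem_range]
      refine ⟨(el_mono hS).lt_iff_lt.1 h1, ?_⟩
      by_contra hcon
      have h4 := el_mono hS (Nat.lt_succ_self n)
      exact h3 (el S (n + 1)) h4 (by omega) (el_mem hS _)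
    · rintro ⟨n, hn, rfl⟩
      rw [mem_filter, mem_range] at hn
      refine ⟨el_mono hS hn.1, el_mem hS n, fun m h2 h3 h4 => ?_⟩
      obtain ⟨k, rfl⟩ := el_surj h4
      have h5 : n < k := (el_mono hS).lt_iff_lt.1 h2
      have h6 : el S (n + 1) ≤ el S k := (el_mono hS).monotone h5
      omega
  rw [h1, card_image_of_injective _ (el_mono hS).injective]

/-- The moments of the gaps. -/
noncomputable def Mom (S : Set ℕ) (s : ℝ) (N : ℕ) : ℝ := ∑ n ∈ range N, ((el S (n + 1) : ℝ) - el S n) ^ s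

theorem gap_cast (hS : S.Infinite) (n : ℕ) : ((el S (n + 1) : ℝ) - el S n) = ((el S (n + 1) - el S n : ℕ) : ℝ) := by
  rw [Nat.cast_sub (el_mono hS (Nat.lt_succ_self n)).le]

theorem Mom_layer (hS : S.Infinite) {s : ℝ} (hs : 0 < s) {N H : ℕ} (hH : ∀ n < N, el S (n + 1) - el S n ≤ H) :
    Mom S s N = ∑ h ∈ range H, cc s h * cnt S h (el S N) := by
  classical
  unfold Mom
  have h1 : ∀ n ∈ range N, ((el S (n + 1) : ℝ) - el S n) ^ s =
      ∑ h ∈ range H, cc s h * (if h < el S (n + 1) - el S n then 1 else 0) := by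
    intro n hn
    rw [mem_range] at hn
    rw [gap_cast hS, ← cc_sum hs]
    have h2 : range (el S (n + 1) - el S n) = (range H).filter (fun h => h < el S (n + 1) - el S n) := by
      ext h
      rw [mem_filter, mem_range, mem_range]
      have := hH n hn
      omega
    rw [h2, sum_filter]
    refine sum_congr rfl (fun h _ => ?_)
    split_ifs <;> simp
  rw [sum_congr rfl h1, sum_comm]
  refine sum_congr rfl (fun h _ => ?_)
  rw [← mul_sum, cnt_el hS, card_filter]
  push_cast
  rfl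

/-- The bound for the gaps. -/
noncomputable def HH (x : ℕ) : ℕ := ⌊2 * Real.log x ^ 2⌋₊

theorem HH_one : Tendsto (fun x : ℕ => (HH x : ℝ) / Real.log x) atTop atTop := by
  have h1 : Tendsto (fun x : ℕ => Real.log (x : ℝ)) atTop atTop := hl
  refine tendsto_atTop_mono' _ ?_ h1
  filter_upwards [hl.eventually_ge_atTop 1] with x hx
  rw [le_div_iff₀ (by linarith)]
  have h2 : 2 * Real.log (x : ℝ) ^ 2 < (HH x : ℝ) + 1 := Nat.lt_floor_add_one _
  nlinarith

theorem HH_le (x : ℕ) : (HH x : ℝ) ≤ 2 * Real.log x ^ 2 := Nat.floor_le (by positivity)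

theorem HH_two : ∀ᶠ x : ℕ in atTop, HH x ≤ x := by
  filter_upwards [ev_log2] with x hx
  exact_mod_cast (HH_le x).trans hx

theorem HH_four : ∀ᶠ x : ℕ in atTop, HH x ^ 4 ≤ x := by
  filter_upwards [ev_power 16 8 (show (0 : ℝ) < 1 by norm_num)] with x hx
  rw [Real.rpow_one] at hx
  have h1 : (HH x : ℝ) ^ 4 ≤ (2 * Real.log x ^ 2) ^ 4 := pow_le_pow_left₀ (Nat.cast_nonneg _) (HH_le x) 4
  have h2 : (2 * Real.log (x : ℝ) ^ 2) ^ 4 = 16 * Real.log x ^ 8 := by ring
  rw [h2] at h1
  exact_mod_cast h1.trans hx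

theorem Typ.gap_bound (h : Typ Q S) : ∀ᶠ N : ℕ in atTop, ∀ n < N, el S (n + 1) - el S n ≤ HH (el S N) := by
  have hS := h.inf
  obtain ⟨x₀, hx₀⟩ := eventually_atTop.1 (h.gap.and (eventually_ge_atTop 1))
  have h1 : Tendsto (fun N => 2 * Real.log (el S N : ℝ) ^ 2) atTop atTop :=
    (Pool.Agent.Q120.AD.hl2.const_mul_atTop (by norm_num)).comp (el_top hS)
  filter_upwards [h1.eventually_ge_atTop (el S (x₀ + 1) : ℝ)] with N hN n hn
  have hle := (el_mono hS (Nat.lt_succ_self n)).le
  unfold HH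
  rw [Nat.le_floor_iff (by positivity)]
  by_cases h2 : x₀ ≤ el S n
  · obtain ⟨⟨m, hm, h3, h4⟩, h5⟩ := hx₀ (el S n) h2
    obtain ⟨k, rfl⟩ := el_surj hm
    have h6 : n < k := (el_mono hS).lt_iff_lt.1 h3
    have h7 : el S (n + 1) ≤ el S k := (el_mono hS).monotone h6
    have h8 : (el S (n + 1) : ℝ) ≤ el S k := by exact_mod_cast h7
    rw [Nat.cast_sub hle]
    have h9 : Real.log (el S n : ℝ) ≤ Real.log (el S N : ℝ) := by
      apply Real.log_le_log (by exact_mod_cast h5)
      exact_mod_cast ((el_mono hS) hn).le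
    have h10 : 0 ≤ Real.log (el S n : ℝ) := Real.log_natCast_nonneg _
    have h11 : Real.log (el S n : ℝ) ^ 2 ≤ Real.log (el S N : ℝ) ^ 2 := pow_le_pow_left₀ h10 h9 2
    linarith
  · have h3 : n < x₀ := by
      have := el_ge hS n
      omega
    have h4 : el S (n + 1) ≤ el S (x₀ + 1) := (el_mono hS).monotone (by omega)
    have h5 : ((el S (n + 1) - el S n : ℕ) : ℝ) ≤ el S (x₀ + 1) := by
      exact_mod_cast (Nat.sub_le _ _).trans h4
    linarith

theorem err_small (s : ℝ) : Tendsto (fun x : ℕ => 30 * (x : ℝ) ^ (7 / 8 : ℝ) * (2 * Real.log x ^ 2) ^ s /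
    ((x : ℝ) / Real.log x * Real.log x ^ s)) atTop (𝓝 0) := by
  have h1 := (isLittleO_log_rpow_rpow_atTop (s := 1 / 8) (s + 1) (by norm_num)).tendsto_div_nhds_zero
  have h2 := (h1.comp tendsto_natCast_atTop_atTop (α := ℕ)).const_mul (30 * (2 : ℝ) ^ s)
  rw [mul_zero] at h2
  refine h2.congr' ?_
  filter_upwards [hl.eventually_gt_atTop 0, eventually_ge_atTop 1] with x hx hx1
  have hx0 : (0 : ℝ) < x := by exact_mod_cast hx1
  simp only [Function.comp_apply]
  have h3 : (2 * Real.log (x : ℝ) ^ 2) ^ s = 2 ^ s * (Real.log x ^ s * Real.log x ^ s) := by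
    rw [Real.mul_rpow (by norm_num) (by positivity), sq, Real.mul_rpow hx.le hx.le]
  have h4 : (x : ℝ) = (x : ℝ) ^ (7 / 8 : ℝ) * (x : ℝ) ^ (1 / 8 : ℝ) := by
    rw [← Real.rpow_add hx0]
    norm_num
  have h5 : Real.log (x : ℝ) ^ (s + 1) = Real.log x ^ s * Real.log x := Real.rpow_add_one hx.ne' s
  have h6 := Real.rpow_pos_of_pos hx s
  have h7 := Real.rpow_pos_of_pos hx0 (7 / 8)
  have h8 := Real.rpow_pos_of_pos hx0 (1 / 8)
  rw [h3, h5]
  have h9 : 30 * (x : ℝ) ^ (7 / 8 : ℝ) * (2 ^ s * (Real.log x ^ s * Real.log x ^ s)) / ((x : ℝ) / Real.log x * Real.log x ^ s) =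
      30 * (x : ℝ) ^ (7 / 8 : ℝ) * (2 ^ s * (Real.log x ^ s * Real.log x ^ s)) /
        ((x : ℝ) ^ (7 / 8 : ℝ) * (x : ℝ) ^ (1 / 8 : ℝ) / Real.log x * Real.log x ^ s) := by rw [← h4]
  rw [h9]
  field_simp

theorem Typ.mom_x (h : Typ Q S) (hQ : 1 ≤ Q) {s : ℝ} (hs : 0 < s) :
    Tendsto (fun N : ℕ => Mom S s N / ((el S N : ℝ) / Real.log (el S N) * Real.log (el S N) ^ s)) atTop
      (𝓝 (Real.Gamma (s + 1))) := by
  have hS := h.inf
  have h1 := (TT_tendsto hQ hs HH HH_one HH_two).comp (el_top hS)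
  have h2 := (err_small s).comp (el_top hS)
  have h3 : Tendsto (fun N : ℕ => Mom S s N / ((el S N : ℝ) / Real.log (el S N) * Real.log (el S N) ^ s) -
      TT Q s (HH (el S N)) (el S N) / ((el S N : ℝ) / Real.log (el S N) * Real.log (el S N) ^ s)) atTop (𝓝 0) := by
    refine squeeze_zero_norm' ?_ h2
    filter_upwards [h.gap_bound, (el_top hS).eventually h.conc, (el_top hS).eventually HH_four,
      (el_top hS).eventually (hl.eventually_gt_atTop 0), (el_top hS).eventually (eventually_ge_atTop 1)] with N e1 e2 e3 e4 e5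
    have hx0 : (0 : ℝ) < el S N := by exact_mod_cast e5
    rw [← sub_div, Real.norm_eq_abs, abs_div]
    have hls := Real.rpow_pos_of_pos e4 s
    have h4 : |(el S N : ℝ) / Real.log (el S N) * Real.log (el S N) ^ s| =
      (el S N : ℝ) / Real.log (el S N) * Real.log (el S N) ^ s := abs_of_pos (by positivity)
    rw [h4]
    show _ ≤ 30 * (el S N : ℝ) ^ (7 / 8 : ℝ) * (2 * Real.log (el S N) ^ 2) ^ s / ((el S N : ℝ) / Real.log (el S N) * Real.log (el S N) ^ s)
    apply div_le_div_of_nonneg_right _ (by positivity)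
    rw [Mom_layer hS hs e1]
    unfold TT
    rw [← sum_sub_distrib]
    refine (abs_sum_le_sum_abs _ _).trans ?_
    have h5 : ∀ k ∈ range (HH (el S N)), |cc s k * cnt S k (el S N) - cc s k * EE (level Q) k (el S N)| ≤
        cc s k * (30 * (el S N : ℝ) ^ (7 / 8 : ℝ)) := by
      intro k hk
      rw [mem_range] at hk
      rw [← mul_sub, abs_mul, abs_of_nonneg (cc_nonneg hs k)]
      apply mul_le_mul_of_nonneg_left _ (cc_nonneg hs k)
      refine e2 k (le_trans ?_ e3)
      exact Nat.pow_le_pow_left hk.le 4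
    refine (sum_le_sum h5).trans ?_
    rw [← sum_mul, cc_sum hs, mul_comm]
    apply mul_le_mul_of_nonneg_left _ (by positivity)
    exact Real.rpow_le_rpow (Nat.cast_nonneg _) (HH_le _) hs.le
  have h4 := h3.add h1
  rw [zero_add] at h4
  refine h4.congr (fun N => ?_)
  simp only [Function.comp_apply]
  ring

theorem Typ.count_x (h : Typ Q S) (hQ : 1 ≤ Q) :
    Tendsto (fun N : ℕ => (N : ℝ) / ((el S N : ℝ) / Real.log (el S N))) atTop (𝓝 1) := by
  have hS := h.inf
  have h1 := (PP_tendsto hQ).comp (el_top hS)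
  have h2 := (err_small 0).comp (el_top hS)
  have h3 : Tendsto (fun N : ℕ => (N : ℝ) / ((el S N : ℝ) / Real.log (el S N)) -
      PP Q (el S N) / ((el S N : ℝ) / Real.log (el S N))) atTop (𝓝 0) := by
    refine squeeze_zero_norm' ?_ h2
    filter_upwards [(el_top hS).eventually h.conc, 
      (el_top hS).eventually (hl.eventually_gt_atTop 0), (el_top hS).eventually (eventually_ge_atTop 1)] with N e2 e4 e5
    have hx0 : (0 : ℝ) < el S N := by exact_mod_cast e5
    rw [← sub_div, Real.norm_eq_abs, abs_div]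
    have h4 : |(el S N : ℝ) / Real.log (el S N)| = (el S N : ℝ) / Real.log (el S N) := abs_of_pos (by positivity)
    rw [h4]
    show _ ≤ 30 * (el S N : ℝ) ^ (7 / 8 : ℝ) * (2 * Real.log (el S N) ^ 2) ^ (0 : ℝ) / ((el S N : ℝ) / Real.log (el S N) * Real.log (el S N) ^ (0 : ℝ))
    rw [Real.rpow_zero, Real.rpow_zero, mul_one, mul_one]
    apply div_le_div_of_nonneg_right _ (by positivity)
    have h5 := e2 0 (by simp)
    rw [EE_zero, cnt_el hS] at h5
    have h6 : ((range N).filter (fun n => 0 < el S (n + 1) - el S n)) = range N := by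
      refine filter_true_of_mem (fun n _ => ?_)
      have : el S n < el S (n + 1) := el_mono hS (Nat.lt_succ_self n)
      omega
    rw [h6, card_range] at h5
    exact h5
  have h4 := h3.add h1
  rw [zero_add] at h4
  refine h4.congr (fun N => ?_)
  simp only [Function.comp_apply]
  ring

theorem Typ.log_ratio (h : Typ Q S) (hQ : 1 ≤ Q) :
    Tendsto (fun N : ℕ => Real.log (el S N : ℝ) / Real.log N) atTop (𝓝 1) := by
  have hS := h.inf
  have h1 := h.count_x hQ
  have h2 : Tendsto (fun N : ℕ => Real.log ((N : ℝ) / ((el S N : ℝ) / Real.log (el S N)))) atTop (𝓝 (Real.log 1)) :=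
    (Real.continuousAt_log one_ne_zero).tendsto.comp h1
  have h3 : Tendsto (fun N : ℕ => 1 - Real.log (Real.log (el S N : ℝ)) / Real.log (el S N) +
      Real.log ((N : ℝ) / ((el S N : ℝ) / Real.log (el S N))) / Real.log (el S N)) atTop (𝓝 (1 - 0 + 0)) := by
    refine Tendsto.add (Tendsto.sub tendsto_const_nhds (loglog.comp (el_top hS))) ?_
    exact h2.div_atTop (hl.comp (el_top hS))
  rw [show (1 : ℝ) - 0 + 0 = 1 by norm_num] at h3
  have h4 := h3.inv₀ one_ne_zero
  rw [inv_one] at h4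
  refine h4.congr' ?_
  filter_upwards [(el_top hS).eventually (hl.eventually_gt_atTop 0), (el_top hS).eventually (eventually_ge_atTop 1),
    eventually_ge_atTop 2] with N e4 e5 e6
  have hx0 : (0 : ℝ) < el S N := by exact_mod_cast e5
  have hN : (2 : ℝ) ≤ N := by exact_mod_cast e6
  have hlN : 0 < Real.log (N : ℝ) := Real.log_pos (by linarith)
  rw [Real.log_div (by linarith) (by positivity), Real.log_div hx0.ne' e4.ne']
  have h5 : 1 - Real.log (Real.log (el S N : ℝ)) / Real.log (el S N) +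
      (Real.log N - (Real.log (el S N) - Real.log (Real.log (el S N)))) / Real.log (el S N) = Real.log N / Real.log (el S N) := by
    field_simp
    ring
  rw [h5, inv_div]

/-- `a_N ~ N log N`. -/
theorem Typ.el_asymp (h : Typ Q S) (hQ : 1 ≤ Q) :
    Tendsto (fun N : ℕ => (el S N : ℝ) / (N * Real.log N)) atTop (𝓝 1) := by
  have hS := h.inf
  have h1 := (h.log_ratio hQ).mul ((h.count_x hQ).inv₀ one_ne_zero)
  rw [inv_one, one_mul] at h1
  refine h1.congr' ?_
  filter_upwards [(el_top hS).eventually (hl.eventually_gt_atTop 0), (el_top hS).eventually (eventually_ge_atTop 1),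
    eventually_ge_atTop 2] with N e4 e5 e6
  have hx0 : (0 : ℝ) < el S N := by exact_mod_cast e5
  have hN : (2 : ℝ) ≤ N := by exact_mod_cast e6
  have hlN : 0 < Real.log (N : ℝ) := Real.log_pos (by linarith)
  field_simp

/-- **The moments of the gaps.** -/
theorem Typ.mom (h : Typ Q S) (hQ : 1 ≤ Q) {s : ℝ} (hs : 0 < s) :
    Tendsto (fun N : ℕ => Mom S s N / (N * Real.log N ^ s)) atTop (𝓝 (Real.Gamma (s + 1))) := by
  have hS := h.inf
  have h1 := (h.mom_x hQ hs).mul (((h.count_x hQ).inv₀ one_ne_zero).mul ((h.log_ratio hQ).rpow_const (p := s) (Or.inl one_ne_zero)))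
  rw [inv_one, Real.one_rpow, one_mul, mul_one] at h1
  refine h1.congr' ?_
  filter_upwards [(el_top hS).eventually (hl.eventually_gt_atTop 0), (el_top hS).eventually (eventually_ge_atTop 1),
    eventually_ge_atTop 2] with N e4 e5 e6
  have hx0 : (0 : ℝ) < el S N := by exact_mod_cast e5
  have hN : (2 : ℝ) ≤ N := by exact_mod_cast e6
  have hlN : 0 < Real.log (N : ℝ) := Real.log_pos (by linarith)
  rw [Real.div_rpow e4.le hlN.le]
  have := Real.rpow_pos_of_pos e4 s
  have := Real.rpow_pos_of_pos hlN s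
  field_simp

end

end Pool.Agent.Q106.GMM
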