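import Pool.Agent.Q106.GMM.Fin

/-!
# Random sets with independent elements of asymptotically periodic, slowly decreasing density

`q m = (v m + o(1)) / log^k m` with a periodic `v`. Number of the elements, upper and lower bound for the gaps.
-/

set_option autoImplicit false

namespace Pool.Agent.Q106.GMM

open Finset Filter Pool.Agent.Q120.GM MeasureTheory
open Pool.Agent.Q120.AD (hl)
open scoped Topology

/-- `q m = (v m + o(1)) / log^k m` with `v` periodic. -/
structure Per (q v : ℕ → ℝ) (R k : ℕ) : Prop where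
  q0 : ∀ m, 0 ≤ q m
  q1 : ∀ m, q m ≤ 1
  v0 : ∀ m, 0 ≤ v m
  per : Function.Periodic v R
  R0 : 1 ≤ R
  k0 : 1 ≤ k
  lim : Tendsto (fun m : ℕ => q m * Real.log m ^ k - v m) atTop (𝓝 0)

/-- The mean of `v`. -/
noncomputable def mean (v : ℕ → ℝ) (R : ℕ) : ℝ := (∑ m ∈ range R, v m) / R

section

variable {q v : ℕ → ℝ} {R k : ℕ}

theorem per_block (h : Function.Periodic v R) (a : ℕ) : ∑ m ∈ Ico a (a + R), v m = ∑ m ∈ range R, v m := by
  induction a with
  | zero => rw [Nat.zero_add, range_eq_Ico]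
  | succ a ih =>
    by_cases hR : R = 0
    · subst hR
      simp
    · have h1 : ∑ m ∈ Ico a (a + R + 1), v m = v a + ∑ m ∈ Ico (a + 1) (a + R + 1), v m :=
        sum_eq_sum_Ico_succ_bot (by omega) _
      have h2 : ∑ m ∈ Ico a (a + R + 1), v m = ∑ m ∈ Ico a (a + R), v m + v (a + R) := sum_Ico_succ_top (by omega) _
      have h3 : v (a + R) = v a := h a
      rw [show a + 1 + R = a + R + 1 by ring]
      linarith

theorem per_blocks (h : Function.Periodic v R) (a j : ℕ) :
    ∑ m ∈ Ico a (a + j * R), v m = j * ∑ m ∈ range R, v m := by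
  induction j with
  | zero => simp
  | succ j ih =>
    have h1 : Ico a (a + (j + 1) * R) = Ico a (a + j * R) ∪ Ico (a + j * R) (a + j * R + R) := by
      rw [Ico_union_Ico_eq_Ico (by omega) (by omega)]
      congr 1
      ring
    rw [h1, sum_union (Ico_disjoint_Ico_consecutive _ _ _), ih, per_block h]
    push_cast
    ring

/-- The sums of `v` over windows. -/
theorem Per.window (h : Per q v R k) (a w : ℕ) :
    mean v R * w - ∑ m ∈ range R, v m ≤ ∑ m ∈ Ico a (a + w), v m ∧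
      ∑ m ∈ Ico a (a + w), v m ≤ mean v R * w + ∑ m ∈ range R, v m := by
  have hR := h.R0
  have hRr : (0 : ℝ) < R := by exact_mod_cast (show 0 < R by omega)
  have hV : 0 ≤ ∑ m ∈ range R, v m := sum_nonneg (fun m _ => h.v0 m)
  have h1 : w / R * R ≤ w := Nat.div_mul_le_self w R
  have h2 : w < w / R * R + R := Nat.lt_div_mul_add (by omega)
  have e1 : ∑ m ∈ Ico a (a + w / R * R), v m ≤ ∑ m ∈ Ico a (a + w), v m :=
    sum_le_sum_of_subset_of_nonneg (Ico_subset_Ico_right (by omega)) (fun m _ _ => h.v0 m)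
  have e2 : ∑ m ∈ Ico a (a + w), v m ≤ ∑ m ∈ Ico a (a + (w / R + 1) * R), v m :=
    sum_le_sum_of_subset_of_nonneg (Ico_subset_Ico_right (by
      have : (w / R + 1) * R = w / R * R + R := by ring
      omega)) (fun m _ _ => h.v0 m)
  rw [per_blocks h.per] at e1 e2
  have h3 : ((w / R : ℕ) : ℝ) ≤ w / R := Nat.cast_div_le
  have h4 : (w : ℝ) / R ≤ ((w / R : ℕ) : ℝ) + 1 := by
    rw [div_le_iff₀ hRr]
    have h5 : (w : ℝ) < ((w / R * R + R : ℕ) : ℝ) := by exact_mod_cast h2
    push_cast at h5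
    linarith
  have h5 : mean v R * w = (w / R) * ∑ m ∈ range R, v m := by
    unfold mean
    ring
  rw [h5]
  push_cast at e2
  constructor
  · refine le_trans ?_ e1
    nlinarith
  · refine e2.trans ?_
    nlinarith

theorem mean_nonneg (h : Per q v R k) : 0 ≤ mean v R := by
  unfold mean
  have := sum_nonneg (fun m (_ : m ∈ range R) => h.v0 m)
  positivity

theorem Per.small (h : Per q v R k) : Tendsto q atTop (𝓝 0) := by
  have hb : ∃ V : ℝ, ∀ m, v m ≤ V := by
    refine ⟨∑ m ∈ range R, v m, fun m => ?_⟩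
    rw [← per_block h.per m]
    exact single_le_sum (f := v) (fun i _ => h.v0 i) (mem_Ico.2 ⟨le_rfl, by have := h.R0; omega⟩)
  obtain ⟨V, hV⟩ := hb
  have h1 := h.lim.eventually_lt_const (show (0 : ℝ) < 1 by norm_num)
  have h2 : Tendsto (fun m : ℕ => (V + 1) / Real.log m ^ k) atTop (𝓝 0) :=
    tendsto_const_nhds.div_atTop ((tendsto_pow_atTop (by have := h.k0; omega)).comp hl)
  refine squeeze_zero' (Eventually.of_forall h.q0) ?_ h2
  filter_upwards [h1, hl.eventually_gt_atTop 0] with m hm hm2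
  rw [le_div_iff₀ (by positivity)]
  linarith [hV m]

/-- The sums of `q` over windows, upper bound. -/
theorem Per.up (h : Per q v R k) {δ : ℝ} (hδ : 0 < δ) : ∀ᶠ x : ℕ in atTop, ∀ y w : ℕ, x ≤ y →
    ∑ m ∈ Ico y (y + w), q m ≤ ((mean v R + δ) * w + ∑ m ∈ range R, v m) / Real.log x ^ k := by
  have h1 := h.lim.eventually_lt_const hδ
  obtain ⟨x₀, hx₀⟩ := eventually_atTop.1 h1
  filter_upwards [eventually_ge_atTop (max x₀ 1), hl.eventually_gt_atTop 0] with x hx hx2 y w hxy
  have hx0 : x₀ ≤ x := le_of_max_le_left hx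
  have hx1 : 1 ≤ x := le_of_max_le_right hx
  have hxp : (0 : ℝ) < x := by exact_mod_cast (show 0 < x by omega)
  rw [le_div_iff₀ (by positivity), sum_mul]
  have h2 : ∀ m ∈ Ico y (y + w), q m * Real.log x ^ k ≤ v m + δ := by
    intro m hm
    rw [mem_Ico] at hm
    have h3 := hx₀ m (by omega)
    have h4 : Real.log (x : ℝ) ≤ Real.log (m : ℝ) := Real.log_le_log hxp (by exact_mod_cast (show x ≤ m by omega))
    have h5 : Real.log (x : ℝ) ^ k ≤ Real.log (m : ℝ) ^ k := pow_le_pow_left₀ hx2.le h4 k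
    have h6 := mul_le_mul_of_nonneg_left h5 (h.q0 m)
    linarith
  refine (sum_le_sum h2).trans ?_
  rw [sum_add_distrib, sum_const, Nat.card_Ico, nsmul_eq_mul]
  have h3 := (h.window y w).2
  have h4 : ((y + w - y : ℕ) : ℝ) = w := by
    rw [Nat.add_sub_cancel_left]
  rw [h4]
  linarith

/-- The sums of `q` over windows, lower bound. -/
theorem Per.low (h : Per q v R k) {δ : ℝ} (hδ : 0 < δ) : ∀ᶠ x : ℕ in atTop, ∀ y w : ℕ, x ≤ y → y + w ≤ 4 * x →
    ((mean v R - δ) * w - ∑ m ∈ range R, v m) / Real.log x ^ k ≤ ∑ m ∈ Ico y (y + w), q m := by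
  obtain ⟨V, hV⟩ : ∃ V, V = ∑ m ∈ range R, v m := ⟨_, rfl⟩
  have hV0 : 0 ≤ V := by rw [hV]; exact sum_nonneg (fun m _ => h.v0 m)
  have hs0 := mean_nonneg h
  obtain ⟨s, hs⟩ : ∃ s, s = mean v R := ⟨_, rfl⟩
  have h1 := h.lim.eventually_const_lt (show -(δ / 2) < 0 by linarith)
  obtain ⟨x₀, hx₀⟩ := eventually_atTop.1 h1
  have hr : Tendsto (fun x : ℕ => (Real.log x / Real.log (4 * x)) ^ k) atTop (𝓝 1) := by
    have h2 := (Pool.Agent.Q120.AD.tendsto_log_mul (show (0 : ℝ) < 4 by norm_num)).inv₀ one_ne_zero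
    rw [inv_one] at h2
    have h3 := h2.pow k
    rw [one_pow] at h3
    refine h3.congr (fun x => ?_)
    rw [inv_div]
  have hr2 := hr.eventually_const_lt (show 1 - δ / 2 / (s + 1) < 1 by
    have : 0 < δ / 2 / (s + 1) := by
      rw [← hs] at hs0
      positivity
    linarith)
  rw [← hs, ← hV]
  rw [← hs] at hs0
  filter_upwards [eventually_ge_atTop (max x₀ 1), hl.eventually_gt_atTop 0, hr2] with x hx hx2 hx3 y w hxy hw
  have hx0 : x₀ ≤ x := le_of_max_le_left hx
  have hx1 : 1 ≤ x := le_of_max_le_right hx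
  have hxp : (0 : ℝ) < x := by exact_mod_cast (show 0 < x by omega)
  obtain ⟨ρ, hρ⟩ : ∃ ρ, ρ = (Real.log x / Real.log (4 * x)) ^ k := ⟨_, rfl⟩
  rw [← hρ] at hx3
  have hl4 : Real.log (x : ℝ) ≤ Real.log (4 * x) := Real.log_le_log hxp (by linarith)
  have hl40 : 0 < Real.log (4 * (x : ℝ)) := by linarith
  have hq4 : 0 ≤ Real.log (x : ℝ) / Real.log (4 * x) := div_nonneg hx2.le hl40.le
  have hρ1 : ρ ≤ 1 := by
    rw [hρ]
    apply pow_le_one₀ hq4
    rw [div_le_one (by linarith)]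
    exact hl4
  have hρ0 : 0 ≤ ρ := by
    rw [hρ]
    exact pow_nonneg hq4 k
  rw [div_le_iff₀ (by positivity), sum_mul]
  have h2 : ∀ m ∈ Ico y (y + w), v m * ρ - δ / 2 ≤ q m * Real.log x ^ k := by
    intro m hm
    rw [mem_Ico] at hm
    have h3 := hx₀ m (by omega)
    have hmp : (0 : ℝ) < m := by exact_mod_cast (show 0 < m by omega)
    have h4 : Real.log (x : ℝ) ≤ Real.log (m : ℝ) := Real.log_le_log hxp (by exact_mod_cast (show x ≤ m by omega))
    have h4' : Real.log (m : ℝ) ≤ Real.log (4 * x) := by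
      apply Real.log_le_log hmp
      have : m ≤ 4 * x := by omega
      exact_mod_cast this
    have hlm : 0 < Real.log (m : ℝ) := by linarith
    -- `q m * log^k x = q m log^k m * (log x / log m)^k`
    have h5 : q m * Real.log x ^ k = (q m * Real.log m ^ k) * (Real.log x / Real.log m) ^ k := by
      rw [div_pow]
      field_simp
    have h6 : ρ ≤ (Real.log x / Real.log m) ^ k := by
      rw [hρ]
      apply pow_le_pow_left₀ hq4
      exact div_le_div_of_nonneg_left hx2.le hlm h4'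
    have h7 : (Real.log x / Real.log m) ^ k ≤ 1 := by
      apply pow_le_one₀ (div_nonneg hx2.le hlm.le)
      rw [div_le_one hlm]
      exact h4
    have h8 : 0 ≤ (Real.log x / Real.log (m : ℝ)) ^ k := hρ0.trans h6
    have h9 : v m - δ / 2 ≤ q m * Real.log m ^ k := by linarith
    rw [h5]
    have h10 := mul_le_mul_of_nonneg_right h9 h8
    have h11 := mul_le_mul_of_nonneg_left h6 (h.v0 m)
    nlinarith
  refine le_trans ?_ (sum_le_sum h2)
  rw [sum_sub_distrib, sum_const, Nat.card_Ico, nsmul_eq_mul, ← sum_mul]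
  have h3 := (h.window y w).1
  rw [← hs, ← hV] at h3
  have h4 : ((y + w - y : ℕ) : ℝ) = w := by
    rw [Nat.add_sub_cancel_left]
  rw [h4]
  have hw0 : (0 : ℝ) ≤ w := Nat.cast_nonneg w
  have h5 := mul_le_mul_of_nonneg_right h3 hρ0
  have h6 : s * (1 - ρ) ≤ δ / 2 := by
    have h7 : 1 - ρ < δ / 2 / (s + 1) := by linarith
    have h8 : s * (1 - ρ) ≤ s * (δ / 2 / (s + 1)) := mul_le_mul_of_nonneg_left h7.le hs0
    have h9 : s * (δ / 2 / (s + 1)) ≤ δ / 2 := by
      rw [mul_div_assoc', div_le_iff₀ (by linarith)]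
      nlinarith
    linarith
  have h7 : s * w * (1 - ρ) ≤ δ / 2 * w := by nlinarith
  have h8 : V * ρ ≤ V := by nlinarith
  nlinarith

/-- The partial sums of `q`. -/
theorem Per.sum (h : Per q v R k) :
    Tendsto (fun x : ℕ => (∑ m ∈ range x, q m) / ((x : ℝ) / Real.log x ^ k)) atTop (𝓝 (mean v R)) := by
  obtain ⟨w, hw⟩ : ∃ w : ℕ → ℝ, w = fun (m : ℕ) => (Real.log ((m : ℝ) + 2) ^ k)⁻¹ := ⟨_, rfl⟩
  have hlp : ∀ m : ℕ, 0 < Real.log ((m : ℝ) + 2) := fun m => by
    have : (0 : ℝ) ≤ m := Nat.cast_nonneg m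
    exact Real.log_pos (by linarith)
  have hw0 : ∀ m, 0 < w m := fun m => by
    rw [hw]
    have := hlp m
    positivity
  have hwa : Antitone w := by
    intro m n hmn
    rw [hw]
    show (Real.log ((n : ℝ) + 2) ^ k)⁻¹ ≤ (Real.log ((m : ℝ) + 2) ^ k)⁻¹
    have h1 := hlp m
    apply inv_anti₀ (by positivity)
    apply pow_le_pow_left₀ h1.le
    apply Real.log_le_log
    · have : (0 : ℝ) ≤ m := Nat.cast_nonneg m
      linarith
    · have : (m : ℝ) ≤ n := by exact_mod_cast hmn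
      linarith
  -- the sum of the weights
  have hrat : Tendsto (fun m : ℕ => w m * Real.log m ^ k) atTop (𝓝 1) := by
    have h1 := (log_shift.inv₀ one_ne_zero).pow k
    rw [inv_one, one_pow] at h1
    refine h1.congr (fun m => ?_)
    rw [hw, inv_div, div_pow]
    show Real.log (m : ℝ) ^ k / Real.log ((m : ℝ) + 2) ^ k = (Real.log ((m : ℝ) + 2) ^ k)⁻¹ * Real.log m ^ k
    rw [div_eq_mul_inv, mul_comm]
  have hW : Tendsto (fun N : ℕ => (∑ m ∈ range N, w m) / UU 1 (-(k : ℝ)) N) atTop (𝓝 1) := by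
    refine stolz_UU (Or.inl one_pos) (inc_ev (Or.inl one_pos)) ?_
    have h1 := (inc_pos one_pos (-(k : ℝ))).inv₀ one_ne_zero
    rw [inv_one] at h1
    have h2 := hrat.mul h1
    rw [mul_one] at h2
    refine h2.congr' ?_
    filter_upwards [hl.eventually_gt_atTop 0] with m hm
    rw [show (1 : ℝ) - 1 = 0 by norm_num, Real.rpow_zero, one_mul, Real.rpow_neg hm.le, Real.rpow_natCast, inv_div]
    field_simp
  have hU := UU_top (r := 1) (q := -(k : ℝ)) (Or.inl one_pos)
  have hWtop : Tendsto (fun N : ℕ => ∑ m ∈ range N, w m) atTop atTop := by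
    have h1 := hW.pos_mul_atTop one_pos hU
    refine h1.congr' ?_
    filter_upwards [hU.eventually_gt_atTop 0] with N hN
    field_simp
  -- the mean of `v`
  have hmean : Tendsto (fun N : ℕ => (∑ m ∈ range N, v m) / ∑ m ∈ range N, (1 : ℝ)) atTop (𝓝 (mean v R)) := by
    have h1 : Tendsto (fun N : ℕ => mean v R - (∑ m ∈ range R, v m) / N) atTop (𝓝 (mean v R - 0)) :=
      tendsto_const_nhds.sub (tendsto_const_nhds.div_atTop tendsto_natCast_atTop_atTop)
    have h2 : Tendsto (fun N : ℕ => mean v R + (∑ m ∈ range R, v m) / N) atTop (𝓝 (mean v R + 0)) :=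
      tendsto_const_nhds.add (tendsto_const_nhds.div_atTop tendsto_natCast_atTop_atTop)
    rw [sub_zero] at h1
    rw [add_zero] at h2
    refine tendsto_of_tendsto_of_tendsto_of_le_of_le' h1 h2 ?_ ?_
    · filter_upwards [eventually_ge_atTop 1] with N hN
      have hN0 : (0 : ℝ) < N := by exact_mod_cast (show 0 < N by omega)
      have h3 := (h.window 0 N).1
      rw [Nat.zero_add, ← range_eq_Ico] at h3
      rw [sum_const, card_range, nsmul_eq_mul, mul_one, le_div_iff₀ hN0, sub_mul, div_mul_cancel₀ _ hN0.ne']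
      exact h3
    · filter_upwards [eventually_ge_atTop 1] with N hN
      have hN0 : (0 : ℝ) < N := by exact_mod_cast (show 0 < N by omega)
      have h3 := (h.window 0 N).2
      rw [Nat.zero_add, ← range_eq_Ico] at h3
      rw [sum_const, card_range, nsmul_eq_mul, mul_one, div_le_iff₀ hN0, add_mul, div_mul_cancel₀ _ hN0.ne']
      exact h3
  have h1 := abel_div (b := v) (f := fun _ => (1 : ℝ)) (w := w) (fun _ => zero_le_one) hwa (fun m => (hw0 m).le) hmean
    (by
      filter_upwards [eventually_ge_atTop 1] with N hN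
      rw [sum_const, card_range, nsmul_eq_mul, mul_one]
      exact_mod_cast (show 0 < N by omega))
    (by simpa using hWtop)
  simp only [one_mul] at h1
  -- the error
  have h2 : Tendsto (fun N : ℕ => (∑ m ∈ range N, (q m - v m * w m)) / ∑ m ∈ range N, w m) atTop (𝓝 0) := by
    refine stolz (Eventually.of_forall hw0) hWtop ?_
    have hb : ∃ V : ℝ, ∀ m, v m ≤ V := by
      refine ⟨∑ m ∈ range R, v m, fun m => ?_⟩
      rw [← per_block h.per m]
      exact single_le_sum (f := v) (fun i _ => h.v0 i) (mem_Ico.2 ⟨le_rfl, by have := h.R0; omega⟩)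
    obtain ⟨V, hV⟩ := hb
    have h3 : Tendsto (fun m : ℕ => (q m * Real.log m ^ k - v m) * (w m * Real.log m ^ k)⁻¹ +
        v m * ((w m * Real.log m ^ k)⁻¹ - 1)) atTop (𝓝 (0 * 1⁻¹ + 0)) := by
      refine Tendsto.add (h.lim.mul (hrat.inv₀ one_ne_zero)) ?_
      have h4 : Tendsto (fun m : ℕ => (w m * Real.log m ^ k)⁻¹ - 1) atTop (𝓝 (1⁻¹ - 1)) :=
        (hrat.inv₀ one_ne_zero).sub_const 1
      rw [inv_one, sub_self] at h4
      have h5 : Tendsto (fun m : ℕ => V * |(w m * Real.log m ^ k)⁻¹ - 1|) atTop (𝓝 (V * |(0 : ℝ)|)) :=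
        (h4.abs).const_mul V
      rw [abs_zero, mul_zero] at h5
      refine squeeze_zero_norm (fun m => ?_) h5
      rw [Real.norm_eq_abs, abs_mul, abs_of_nonneg (h.v0 m)]
      exact mul_le_mul_of_nonneg_right (hV m) (abs_nonneg _)
    rw [zero_mul, zero_add] at h3
    refine h3.congr' ?_
    filter_upwards [hl.eventually_gt_atTop 0] with m hm
    have := hw0 m
    field_simp
    ring
  have h3 := (h1.add h2).mul hW
  rw [add_zero, mul_one] at h3
  refine h3.congr' ?_
  filter_upwards [hWtop.eventually_gt_atTop 0, hl.eventually_gt_atTop 0] with N hN hN2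
  have h4 : UU 1 (-(k : ℝ)) N = (N : ℝ) / Real.log N ^ k := by
    unfold UU
    rw [Real.rpow_one, Real.rpow_neg hN2.le, Real.rpow_natCast]
    rfl
  rw [h4, ← add_div, ← sum_add_distrib, div_mul_div_cancel₀ hN.ne']
  congr 1
  exact sum_congr rfl (fun m _ => by ring)

end

section

variable {Ω : Type*} [MeasurableSpace Ω] {μ : Measure Ω} [IsProbabilityMeasure μ] {B : Ω → Set ℕ} {q v : ℕ → ℝ} {R k : ℕ}

/-- **The number of the elements.** -/
theorem ren_count (hB : IsModel μ q B) (h : Per q v R k) :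
    ∀ᵐ ω ∂μ, Tendsto (fun x : ℕ => cnt (B ω) 0 x / ((x : ℝ) / Real.log x ^ k)) atTop (𝓝 (mean v R)) := by
  filter_upwards [conc hB h.q0 h.q1] with ω hω
  have h1 : Tendsto (fun x : ℕ => 30 * (x : ℝ) ^ (7 / 8 : ℝ) / ((x : ℝ) / Real.log x ^ k)) atTop (𝓝 0) := by
    have h2 := (isLittleO_log_rpow_rpow_atTop (s := 1 / 8) (k : ℝ) (by norm_num)).tendsto_div_nhds_zero
    have h3 := (h2.comp tendsto_natCast_atTop_atTop (α := ℕ)).const_mul 30
    rw [mul_zero] at h3
    refine h3.congr' ?_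
    filter_upwards [hl.eventually_gt_atTop 0, eventually_ge_atTop 1] with x hx hx1
    have hx0 : (0 : ℝ) < x := by exact_mod_cast hx1
    simp only [Function.comp_apply]
    have h4 : (x : ℝ) = (x : ℝ) ^ (7 / 8 : ℝ) * (x : ℝ) ^ (1 / 8 : ℝ) := by
      rw [← Real.rpow_add hx0]
      norm_num
    have h7 := Real.rpow_pos_of_pos hx0 (7 / 8)
    have h8 := Real.rpow_pos_of_pos hx0 (1 / 8)
    rw [Real.rpow_natCast]
    have h9 : 30 * (x : ℝ) ^ (7 / 8 : ℝ) / ((x : ℝ) / Real.log x ^ k) =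
        30 * (x : ℝ) ^ (7 / 8 : ℝ) / ((x : ℝ) ^ (7 / 8 : ℝ) * (x : ℝ) ^ (1 / 8 : ℝ) / Real.log x ^ k) := by rw [← h4]
    rw [h9]
    field_simp
  have h2 : Tendsto (fun x : ℕ => cnt (B ω) 0 x / ((x : ℝ) / Real.log x ^ k) -
      (∑ m ∈ range x, q m) / ((x : ℝ) / Real.log x ^ k)) atTop (𝓝 0) := by
    refine squeeze_zero_norm' ?_ h1
    filter_upwards [hω, hl.eventually_gt_atTop 0, eventually_ge_atTop 1] with x e1 e2 e3
    have hx0 : (0 : ℝ) < x := by exact_mod_cast e3
    have h3 := e1 0 (by simp)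
    have h4 : EE q 0 x = ∑ m ∈ range x, q m := by
      unfold EE pr
      refine sum_congr rfl (fun a _ => ?_)
      simp
    rw [h4] at h3
    rw [← sub_div, Real.norm_eq_abs, abs_div, abs_of_pos (show 0 < (x : ℝ) / Real.log x ^ k by positivity)]
    exact div_le_div_of_nonneg_right h3 (by positivity)
  have h3 := h2.add h.sum
  rw [zero_add] at h3
  refine h3.congr (fun x => ?_)
  ring

/-- **Upper bound for the gaps.** -/
theorem ren_upper (hB : IsModel μ q B) (h : Per q v R k) (hs : 0 < mean v R) {ε : ℝ} (hε : 0 < ε) (hε1 : ε ≤ 1) :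
    ∀ᵐ ω ∂μ, ∀ᶠ x : ℕ in atTop, ∃ m ∈ B ω, x < m ∧ (m : ℝ) ≤ x + (1 + ε) * Real.log x ^ (k + 1) / mean v R := by
  obtain ⟨s, hsd⟩ : ∃ s, s = mean v R := ⟨_, rfl⟩
  obtain ⟨V, hV⟩ : ∃ V, V = ∑ m ∈ range R, v m := ⟨_, rfl⟩
  have hV0 : 0 ≤ V := by rw [hV]; exact sum_nonneg (fun m _ => h.v0 m)
  rw [← hsd] at hs ⊢
  obtain ⟨W, hW⟩ : ∃ W : ℕ → ℕ, W = fun (x : ℕ) => ⌊(1 + ε) * Real.log x ^ (k + 1) / s⌋₊ := ⟨_, rfl⟩
  have hsum : Summable (fun x : ℕ => (x : ℝ) ^ (-(1 + ε / 2))) := Real.summable_nat_rpow.2 (by linarith)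
  have hδ : 0 < ε / 8 * s := by positivity
  have h1 := h.low hδ
  have hbd : ∀ᶠ x : ℕ in atTop, μ.real (free B (Ico (x + 1) (x + 1 + W x))) ≤ (x : ℝ) ^ (-(1 + ε / 2)) := by
    filter_upwards [h1, ev_power ((1 + ε) / s) (k + 1) (show (0 : ℝ) < 1 by norm_num), hl.eventually_ge_atTop 1,
      hl.eventually_ge_atTop (4 * (s + V) / ε), eventually_ge_atTop 1] with x e1 e2 e3 e4 e5
    have hx0 : (0 : ℝ) < x := by exact_mod_cast e5
    rw [Real.rpow_one] at e2
    obtain ⟨L, hL⟩ : ∃ L, L = Real.log (x : ℝ) := ⟨_, rfl⟩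
    rw [← hL] at e1 e2 e3 e4
    have hWle : (W x : ℝ) ≤ (1 + ε) * L ^ (k + 1) / s := by
      rw [hW, hL]
      exact Nat.floor_le (by positivity)
    have hWge : (1 + ε) * L ^ (k + 1) / s - 1 ≤ W x := by
      rw [hW, hL]
      exact (Nat.sub_one_lt_floor _).le
    have hWx : W x ≤ x := by
      have : (1 + ε) * L ^ (k + 1) / s = (1 + ε) / s * L ^ (k + 1) := by ring
      rw [this] at hWle
      exact_mod_cast hWle.trans e2
    rw [real_free hB]
    have h2 : ∏ n ∈ Ico (x + 1) (x + 1 + W x), (1 - q n) ≤ ∏ n ∈ Ico (x + 1) (x + 1 + W x), Real.exp (-(q n)) :=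
      Finset.prod_le_prod (fun n _ => by linarith [h.q1 n]) (fun n _ => Real.one_sub_le_exp_neg _)
    refine h2.trans ?_
    rw [← Real.exp_sum, sum_neg_distrib, Real.rpow_def_of_pos hx0, ← hL]
    apply Real.exp_le_exp.2
    have h3 := e1 (x + 1) (W x) (by omega) (by omega)
    rw [← hsd, ← hV] at h3
    have hLk : 1 ≤ L ^ k := one_le_pow₀ e3
    have h4 : (1 + ε / 2) * L ≤ ((s - ε / 8 * s) * W x - V) / L ^ k := by
      rw [le_div_iff₀ (by positivity)]
      have h5 : (s - ε / 8 * s) * ((1 + ε) * L ^ (k + 1) / s - 1) ≤ (s - ε / 8 * s) * W x :=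
        mul_le_mul_of_nonneg_left hWge (by nlinarith)
      have h6 : (s - ε / 8 * s) * ((1 + ε) * L ^ (k + 1) / s - 1) = (1 - ε / 8) * (1 + ε) * (L * L ^ k) - (s - ε / 8 * s) := by
        rw [pow_succ]
        field_simp
      rw [h6] at h5
      rw [div_le_iff₀ hε] at e4
      have h7 : s + V ≤ ε / 4 * (L * L ^ k) := by nlinarith
      have h8 : (1 + 3 * ε / 4) * (L * L ^ k) ≤ (1 - ε / 8) * (1 + ε) * (L * L ^ k) := by
        apply mul_le_mul_of_nonneg_right _ (by positivity)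
        nlinarith
      nlinarith
    linarith
  filter_upwards [bc hsum hbd] with ω hω
  filter_upwards [hω, hl.eventually_ge_atTop 0] with x hx hx0
  have hx' : ¬ ∀ n ∈ Ico (x + 1) (x + 1 + W x), n ∉ B ω := hx
  push Not at hx'
  obtain ⟨n, hn, h2⟩ := hx'
  rw [mem_Ico] at hn
  refine ⟨n, h2, by omega, ?_⟩
  have h3 : (W x : ℝ) ≤ (1 + ε) * Real.log x ^ (k + 1) / s := by
    rw [hW]
    exact Nat.floor_le (by positivity)
  have h4 : (n : ℝ) ≤ x + W x := by
    have : n ≤ x + W x := by omega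
    exact_mod_cast this
  linarith

/-- **Lower bound for the gaps.** -/
theorem ren_lower (hB : IsModel μ q B) (h : Per q v R k) (hs : 0 < mean v R) {ε : ℝ} (hε : 0 < ε) (hε1 : ε < 1) :
    ∀ᵐ ω ∂μ, ∀ᶠ x : ℕ in atTop, ∃ y : ℕ, x ≤ y ∧ y ≤ 2 * x ∧ ∀ m : ℕ, y < m →
      (m : ℝ) ≤ y + (1 - ε) * Real.log y ^ (k + 1) / mean v R → m ∉ B ω := by
  classical
  obtain ⟨s, hsd⟩ : ∃ s, s = mean v R := ⟨_, rfl⟩
  obtain ⟨V, hV⟩ : ∃ V, V = ∑ m ∈ range R, v m := ⟨_, rfl⟩
  have hV0 : 0 ≤ V := by rw [hV]; exact sum_nonneg (fun m _ => h.v0 m)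
  rw [← hsd] at hs ⊢
  obtain ⟨W, hW⟩ : ∃ W : ℕ → ℕ, W = fun (x : ℕ) => ⌊(1 - ε) * Real.log (2 * (x : ℝ)) ^ (k + 1) / s⌋₊ := ⟨_, rfl⟩
  obtain ⟨st, hst⟩ : ∃ st : ℕ → ℕ → ℕ, st = fun x i => x + i * (W x + 1) := ⟨_, rfl⟩
  obtain ⟨E, hE⟩ : ∃ E : ℕ → ℕ → Set Ω, E = fun x i => free B (Ico (st x i + 1) (st x i + 1 + W x)) := ⟨_, rfl⟩
  obtain ⟨J, hJ⟩ : ∃ J : ℕ → ℕ, J = fun x => x / (W x + 1) := ⟨_, rfl⟩
  have hsum : Summable (fun x : ℕ => (x : ℝ) ^ (-(2 : ℝ))) := Real.summable_nat_rpow.2 (by norm_num)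
  obtain ⟨δ, hδd⟩ : ∃ δ, δ = ε / 8 * s := ⟨_, rfl⟩
  have hδ : 0 < δ := by rw [hδd]; positivity
  have h1 := h.up hδ
  have h2 := h.small.eventually_lt_const (show (0 : ℝ) < ε / 8 by positivity)
  obtain ⟨x₀, hx₀⟩ := eventually_atTop.1 h2
  have hr : Tendsto (fun x : ℕ => (Real.log (2 * (x : ℝ)) / Real.log x) ^ (k + 1)) atTop (𝓝 1) := by
    have h3 := (Pool.Agent.Q120.AD.tendsto_log_mul (show (0 : ℝ) < 2 by norm_num)).pow (k + 1)
    rw [one_pow] at h3
    exact h3
  have hr2 := hr.eventually_lt_const (show (1 : ℝ) < 1 + ε / 8 by linarith)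
  have hbd : ∀ᶠ x : ℕ in atTop, μ.real (⋂ i ∈ range (J x), (E x i)ᶜ) ≤ (x : ℝ) ^ (-(2 : ℝ)) := by
    filter_upwards [h1, eventually_ge_atTop (max x₀ 3), hr2, hl.eventually_ge_atTop 1,
      hl.eventually_ge_atTop (8 * (s + V + 1) / ε), ev_power (4 * (2 / s + 1)) (k + 2) (show 0 < ε / 4 by linarith),
      ev_power (2 * (2 / s + 1)) (k + 1) (show (0 : ℝ) < 1 by norm_num)] with
      x e1 e2 e3 e4 e5 e6 e7
    have hx0' : x₀ ≤ x := le_of_max_le_left e2
    have hx3 : 3 ≤ x := le_of_max_le_right e2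
    have hx0 : (0 : ℝ) < x := by exact_mod_cast (show 0 < x by omega)
    have hx1 : (1 : ℝ) ≤ x := by exact_mod_cast (show 1 ≤ x by omega)
    obtain ⟨L, hL⟩ : ∃ L, L = Real.log (x : ℝ) := ⟨_, rfl⟩
    rw [← hL] at e1 e3 e4 e5 e6 e7
    have hL0 : 0 < L := by linarith
    have hLk : 1 ≤ L ^ k := one_le_pow₀ e4
    have hl2 : 0 ≤ Real.log (2 * (x : ℝ)) := Real.log_nonneg (by linarith)
    have hWle : (W x : ℝ) ≤ (1 - ε) * ((1 + ε / 8) * L ^ (k + 1)) / s := by
      have h3 : (W x : ℝ) ≤ (1 - ε) * Real.log (2 * (x : ℝ)) ^ (k + 1) / s := by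
        rw [hW]
        apply Nat.floor_le
        have : 0 ≤ 1 - ε := by linarith
        positivity
      refine h3.trans ?_
      apply div_le_div_of_nonneg_right _ hs.le
      apply mul_le_mul_of_nonneg_left _ (by linarith)
      rw [div_pow, div_lt_iff₀ (by positivity)] at e3
      exact e3.le
    have hW2 : (W x : ℝ) + 1 ≤ (2 / s + 1) * L ^ (k + 1) := by
      have h3 : (1 - ε) * ((1 + ε / 8) * L ^ (k + 1)) / s ≤ 2 / s * L ^ (k + 1) := by
        rw [div_mul_eq_mul_div]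
        apply div_le_div_of_nonneg_right _ hs.le
        rw [← mul_assoc]
        apply mul_le_mul_of_nonneg_right _ (by positivity)
        nlinarith
      have h4 : 1 ≤ L ^ (k + 1) := one_le_pow₀ e4
      linarith
    have hWx : 2 * (W x + 1) ≤ x := by
      rw [Real.rpow_one] at e7
      have h3 : (2 : ℝ) * (W x + 1) ≤ x := by linarith
      exact_mod_cast h3
    -- one window
    have hone : ∀ i ∈ range (J x), Real.exp (-((1 - ε / 2) * L)) ≤ μ.real (E x i) := by
      intro i _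
      rw [hE]
      show _ ≤ μ.real (free B (Ico (st x i + 1) (st x i + 1 + W x)))
      rw [real_free hB]
      have hsx : x ≤ st x i := by
        rw [hst]
        exact Nat.le_add_right _ _
      have h3 : ∏ n ∈ Ico (st x i + 1) (st x i + 1 + W x), Real.exp (-(q n / (1 - ε / 8))) ≤
          ∏ n ∈ Ico (st x i + 1) (st x i + 1 + W x), (1 - q n) := by
        refine Finset.prod_le_prod (fun n _ => (Real.exp_pos _).le) (fun n hn => ?_)
        rw [mem_Ico] at hn
        have h4 : q n < ε / 8 := hx₀ n (by omega)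
        have h5 := h.q0 n
        have h6 : 0 < 1 - q n := by linarith
        have h7 := Real.one_sub_inv_le_log_of_pos h6
        have h8 : -(q n / (1 - ε / 8)) ≤ Real.log (1 - q n) := by
          refine le_trans ?_ h7
          have h9 : 1 - (1 - q n)⁻¹ = -(q n / (1 - q n)) := by field_simp; ring
          rw [h9, neg_le_neg_iff]
          exact div_le_div_of_nonneg_left h5 (by linarith) (by linarith)
        calc Real.exp (-(q n / (1 - ε / 8))) ≤ Real.exp (Real.log (1 - q n)) := Real.exp_le_exp.2 h8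
          _ = _ := Real.exp_log h6
      refine le_trans ?_ h3
      rw [← Real.exp_sum, sum_neg_distrib, ← sum_div]
      apply Real.exp_le_exp.2
      rw [neg_le_neg_iff]
      have h4 := e1 (st x i + 1) (W x) (by omega)
      rw [← hsd, ← hV] at h4
      rw [div_le_iff₀ (by linarith)]
      refine h4.trans ?_
      rw [div_le_iff₀ (by positivity)]
      have h5 : (s + δ) * W x ≤ (1 + ε / 8) * (1 - ε) * (1 + ε / 8) * (L * L ^ k) := by
        have h6 : (s + δ) * W x ≤ (s + δ) * ((1 - ε) * ((1 + ε / 8) * L ^ (k + 1)) / s) :=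
          mul_le_mul_of_nonneg_left hWle (by positivity)
        refine h6.trans (le_of_eq ?_)
        rw [hδd, pow_succ]
        field_simp
      have h6 : V ≤ ε / 8 * (L * L ^ k) := by
        rw [div_le_iff₀ hε] at e5
        nlinarith
      have h7 : (1 + ε / 8) * (1 - ε) * (1 + ε / 8) + ε / 8 ≤ (1 - ε / 2) * (1 - ε / 8) := by
        nlinarith [mul_pos hε hε, mul_pos (mul_pos hε hε) hε]
      have h8 := mul_le_mul_of_nonneg_right h7 (show 0 ≤ L * L ^ k by positivity)
      nlinarith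
    -- independence
    have hind : μ.real (⋂ i ∈ range (J x), (E x i)ᶜ) = ∏ i ∈ range (J x), μ.real ((E x i)ᶜ) := by
      refine indep_many hB (range (J x)) (fun i => Set.Ico (st x i + 1) (st x i + 1 + W x)) ?_ (fun i => (E x i)ᶜ)
        (fun i _ => MeasurableSet.compl ?_)
      · intro i _ j _ hij
        rw [Set.disjoint_left]
        intro n hn hn2
        rw [Set.mem_Ico] at hn hn2
        rw [hst] at hn hn2
        simp only at hn hn2
        rcases lt_or_gt_of_ne hij with h3 | h3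
        · have h4 : (i + 1) * (W x + 1) ≤ j * (W x + 1) := Nat.mul_le_mul_right _ h3
          have h5 : (i + 1) * (W x + 1) = i * (W x + 1) + (W x + 1) := by ring
          omega
        · have h4 : (j + 1) * (W x + 1) ≤ i * (W x + 1) := Nat.mul_le_mul_right _ h3
          have h5 : (j + 1) * (W x + 1) = j * (W x + 1) + (W x + 1) := by ring
          omega
      · rw [hE]
        refine F_free (fun n hn => ?_)
        rw [mem_Ico] at hn
        exact hn
    rw [hind]
    have hmeas : ∀ i, MeasurableSet (E x i) := fun i => by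
      rw [hE]
      exact meas_free hB _
    have h3 : ∏ i ∈ range (J x), μ.real ((E x i)ᶜ) ≤ ∏ i ∈ range (J x), Real.exp (-(Real.exp (-((1 - ε / 2) * L)))) := by
      refine Finset.prod_le_prod (fun i _ => measureReal_nonneg) (fun i hi => ?_)
      rw [measureReal_compl (hmeas i), probReal_univ]
      have h4 := hone i hi
      have h5 := Real.one_sub_le_exp_neg (Real.exp (-((1 - ε / 2) * L)))
      linarith
    refine h3.trans ?_
    rw [← Real.exp_sum, sum_neg_distrib, sum_const, card_range, nsmul_eq_mul, Real.rpow_def_of_pos hx0, ← hL]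
    apply Real.exp_le_exp.2
    have h4 : L * (-(2 : ℝ)) = -(2 * L) := by ring
    rw [h4, neg_le_neg_iff]
    have hJ1 : (x : ℝ) / (2 * (W x + 1)) ≤ J x := by
      have h5 : x < (J x + 1) * (W x + 1) := by
        rw [hJ]
        have := Nat.lt_div_mul_add (a := x) (b := W x + 1) (by omega)
        have h6 : (x / (W x + 1) + 1) * (W x + 1) = x / (W x + 1) * (W x + 1) + (W x + 1) := by ring
        show x < (x / (W x + 1) + 1) * (W x + 1)
        omega
      have h6 : (x : ℝ) < (J x + 1) * (W x + 1) := by exact_mod_cast h5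
      have h7 : (2 : ℝ) * (W x + 1) ≤ x := by exact_mod_cast hWx
      rw [div_le_iff₀ (by positivity)]
      have h8 : (J x : ℝ) * (2 * (W x + 1)) = 2 * ((J x + 1) * (W x + 1)) - 2 * (W x + 1) := by ring
      rw [h8]
      linarith only [h6, h7]
    have h5 : (x : ℝ) * Real.exp (-((1 - ε / 2) * L)) = (x : ℝ) ^ (ε / 2) := by
      have h6 : (x : ℝ) = Real.exp L := by rw [hL, Real.exp_log hx0]
      rw [Real.rpow_def_of_pos hx0, ← hL]
      nth_rewrite 1 [h6]
      rw [← Real.exp_add]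
      congr 1
      ring
    have h6 : 2 * L * (2 * (W x + 1)) ≤ (x : ℝ) ^ (ε / 2) := by
      have h7 : 2 * L * (2 * ((W x : ℝ) + 1)) ≤ 4 * (2 / s + 1) * L ^ (k + 2) := by
        have h8 := mul_le_mul_of_nonneg_left hW2 (show 0 ≤ 4 * L by positivity)
        calc 2 * L * (2 * ((W x : ℝ) + 1)) = 4 * L * ((W x : ℝ) + 1) := by ring
          _ ≤ 4 * L * ((2 / s + 1) * L ^ (k + 1)) := h8
          _ = _ := by ring
      refine h7.trans (e6.trans ?_)
      exact Real.rpow_le_rpow_of_exponent_le hx1 (by linarith)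
    have h7 := mul_le_mul_of_nonneg_right hJ1 (Real.exp_pos (-((1 - ε / 2) * L))).le
    refine le_trans ?_ h7
    rw [div_mul_eq_mul_div, h5, le_div_iff₀ (by positivity)]
    exact h6
  filter_upwards [bc hsum hbd] with ω hω
  filter_upwards [hω, eventually_ge_atTop 1] with x hx hx1
  rw [Set.mem_iInter₂] at hx
  push Not at hx
  obtain ⟨i, hi, h3⟩ := hx
  rw [mem_range] at hi
  have h4 : ω ∈ E x i := by
    by_contra hcon
    exact h3 hcon
  have hle : st x i ≤ 2 * x := by
    rw [hst]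
    show x + i * (W x + 1) ≤ 2 * x
    rw [hJ] at hi
    have h5 : x / (W x + 1) * (W x + 1) ≤ x := Nat.div_mul_le_self _ _
    have h6 : i * (W x + 1) ≤ x / (W x + 1) * (W x + 1) := Nat.mul_le_mul_right _ hi.le
    omega
  refine ⟨st x i, ?_, hle, ?_⟩
  · rw [hst]
    exact Nat.le_add_right _ _
  · intro m hm hm2
    rw [hE] at h4
    refine h4 m ?_
    rw [mem_Ico]
    refine ⟨hm, ?_⟩
    have hst1 : 1 ≤ st x i := by
      rw [hst]
      show 1 ≤ x + i * (W x + 1)
      omega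
    have h5 : Real.log (st x i : ℝ) ≤ Real.log (2 * (x : ℝ)) := by
      apply Real.log_le_log
      · exact_mod_cast hst1
      · exact_mod_cast hle
    have h6 : Real.log (st x i : ℝ) ^ (k + 1) ≤ Real.log (2 * (x : ℝ)) ^ (k + 1) :=
      pow_le_pow_left₀ (Real.log_natCast_nonneg _) h5 _
    have h7 : (1 - ε) * Real.log (st x i : ℝ) ^ (k + 1) / s ≤ (1 - ε) * Real.log (2 * (x : ℝ)) ^ (k + 1) / s := by
      apply div_le_div_of_nonneg_right _ hs.le
      exact mul_le_mul_of_nonneg_left h6 (by linarith)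
    have h8 : (m : ℝ) - st x i ≤ (1 - ε) * Real.log (2 * (x : ℝ)) ^ (k + 1) / s := by linarith
    have h9 : m - st x i ≤ W x := by
      rw [hW]
      rw [Nat.le_floor_iff]
      · rw [Nat.cast_sub hm.le]
        exact h8
      · have h10 : (0 : ℝ) < (m : ℝ) - st x i := by
          have : (st x i : ℝ) < m := by exact_mod_cast hm
          linarith
        linarith
    omega

end

end Pool.Agent.Q106.GMM
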