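import Pool.Agent.Q106.GMM.Exact
import Pool.Agent.Q106.GMM.Ren

/-!
# The expected number of the chains of a fixed exact length
-/

set_option autoImplicit false

namespace Pool.Agent.Q106.GMM

open Finset Filter Pool.Agent.Q120.GM MeasureTheory
open Pool.Agent.Q120.AD (hl)
open scoped Topology

/-- All first `l` iterates of (a large representative of) the class of `m` are coprime to `Q`. -/
def GoodC (Q : ℕ) (f : ℕ → ℕ) (n₀ l m : ℕ) : Prop := ∀ i < l, (f^[i] (m + Q * n₀)).Coprime Q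

open Classical in
/-- The constant of the chains of exact length `l`. -/
noncomputable def cE (Q : ℕ) (f : ℕ → ℕ) (n₀ l : ℕ) : ℝ :=
  (((range Q).filter (GoodC Q f n₀ l)).card : ℝ) / Q * qq Q ^ l

section

variable {Q : ℕ} {f : ℕ → ℕ} {C n₀ : ℕ}

theorem log_iter (hf : Step f C n₀) (i : ℕ) :
    Tendsto (fun m : ℕ => Real.log ((f^[i] m : ℕ) : ℝ) / Real.log (m : ℝ)) atTop (𝓝 1) := by
  have h1 : Tendsto (fun m : ℕ => 1 + i * Real.log (C : ℝ) / Real.log (m : ℝ)) atTop (𝓝 (1 + 0)) :=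
    tendsto_const_nhds.add (hl.const_div_atTop _)
  rw [add_zero] at h1
  refine tendsto_of_tendsto_of_tendsto_of_le_of_le' tendsto_const_nhds h1 ?_ ?_
  · filter_upwards [hl.eventually_gt_atTop 0, eventually_ge_atTop n₀, eventually_ge_atTop 1] with m h2 h3 h4
    rw [le_div_iff₀ h2, one_mul]
    exact Real.log_le_log (by exact_mod_cast h4) (by exact_mod_cast hf.ge i h3)
  · filter_upwards [hl.eventually_gt_atTop 0, eventually_ge_atTop n₀, eventually_ge_atTop 1] with m h2 h3 h4
    have hC : (0 : ℝ) < C := by exact_mod_cast hf.cone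
    have hm : (0 : ℝ) < m := by exact_mod_cast h4
    have h5 : ((f^[i] m : ℕ) : ℝ) ≤ (C : ℝ) ^ i * m := by exact_mod_cast hf.le_pow i h3
    have h6 : (0 : ℝ) < ((f^[i] m : ℕ) : ℝ) := by
      have := hf.ge i h3
      exact_mod_cast (show 0 < f^[i] m by omega)
    have h7 := Real.log_le_log h6 h5
    rw [Real.log_mul (by positivity) hm.ne', Real.log_pow] at h7
    rw [div_le_iff₀ h2, add_mul, one_mul, div_mul_cancel₀ _ h2.ne']
    linarith

theorem iter_top (hf : Step f C n₀) (i : ℕ) : Tendsto (fun m : ℕ => f^[i] m) atTop atTop := by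
  refine tendsto_atTop_mono' atTop ?_ tendsto_id
  filter_upwards [eventually_ge_atTop n₀] with m hm
  exact hf.ge i hm

/-- The unrestricted factor. -/
noncomputable def uf (Q : ℕ) (f : ℕ → ℕ) (i m : ℕ) : ℝ :=
  min 1 (qq Q / Real.log ((f^[i] m : ℕ) : ℝ)) * Real.log (m : ℝ)

theorem uf_tendsto (hf : Step f C n₀) (i : ℕ) : Tendsto (uf Q f i) atTop (𝓝 (qq Q)) := by
  have h1 : Tendsto (fun m : ℕ => qq Q / (Real.log ((f^[i] m : ℕ) : ℝ) / Real.log (m : ℝ))) atTop (𝓝 (qq Q / 1)) :=
    tendsto_const_nhds.div (log_iter hf i) one_ne_zero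
  rw [div_one] at h1
  refine h1.congr' ?_
  have h2 : Tendsto (fun m : ℕ => Real.log ((f^[i] m : ℕ) : ℝ)) atTop atTop := hl.comp (iter_top hf i)
  filter_upwards [h2.eventually_gt_atTop 0, h2.eventually_ge_atTop (qq Q)] with m h3 h4
  unfold uf
  have h5 : qq Q / Real.log ((f^[i] m : ℕ) : ℝ) ≤ 1 := by
    rw [div_le_one h3]
    exact h4
  rw [min_eq_right h5]
  field_simp

theorem level_van (hQ : 1 ≤ Q) (i : ℕ) (hf : Step f C n₀) : Tendsto (fun m : ℕ => level Q (f^[i] m)) atTop (𝓝 0) := by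
  have h2 : Tendsto (fun m : ℕ => Real.log ((f^[i] m : ℕ) : ℝ)) atTop atTop := hl.comp (iter_top hf i)
  refine squeeze_zero' (Eventually.of_forall (fun m => level_nonneg Q _)) ?_ (h2.const_div_atTop (qq Q))
  filter_upwards [h2.eventually_gt_atTop 0, (iter_top hf i).eventually_ge_atTop 1] with m h3 h4
  exact level_le h3 (by exact_mod_cast h4) le_rfl

open Classical in
theorem ex_per (hQ : 1 ≤ Q) (hf : Step f C n₀) (hP : PerC Q f n₀) {l : ℕ} (hl1 : 1 ≤ l) :
    Per (gE Q f l) (fun m => if GoodC Q f n₀ l m then qq Q ^ l else 0) Q l := by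
  have hq := qq_pos hQ
  refine ⟨gE_nonneg Q f l, ?_, ?_, ?_, hQ, hl1, ?_⟩
  · intro m
    unfold gE
    have h1 : ∏ i ∈ range l, level Q (f^[i] m) ≤ 1 := prod_le_one (fun i _ => level_nonneg Q _) (fun i _ => level_le_one Q _)
    have h2 : 0 ≤ ∏ i ∈ range l, level Q (f^[i] m) := prod_nonneg (fun i _ => level_nonneg Q _)
    have h3 := level_nonneg Q (f^[l] m)
    have h4 := level_le_one Q (f^[l] m)
    nlinarith
  · intro m
    split_ifs
    · positivity
    · exact le_rfl
  · intro m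
    dsimp only
    have h1 : GoodC Q f n₀ l (m + Q) ↔ GoodC Q f n₀ l m := by
      unfold GoodC
      have hQn : n₀ ≤ Q * n₀ := Nat.le_mul_of_pos_left _ hQ
      refine forall_congr' (fun i => imp_congr_right (fun _ => ?_))
      refine hP _ _ (by omega) (by omega) ?_ i
      rw [show m + Q + Q * n₀ = m + Q * n₀ + Q by ring, Nat.add_mod_right]
    simp only [h1]
  · have h1 : Tendsto (fun m : ℕ => (∏ i ∈ range l, uf Q f i m) * (1 - level Q (f^[l] m)) - qq Q ^ l) atTop (𝓝 0) := by
      have h2 : Tendsto (fun m : ℕ => ∏ i ∈ range l, uf Q f i m) atTop (𝓝 (∏ i ∈ range l, qq Q)) :=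
        tendsto_finsetProd _ (fun i _ => uf_tendsto hf i)
      have h3 := (h2.mul ((level_van (Q := Q) hQ l hf).const_sub 1)).sub_const (qq Q ^ l)
      simpa using h3
    refine squeeze_zero_norm' ?_ ((tendsto_zero_iff_norm_tendsto_zero).1 h1)
    filter_upwards [eventually_ge_atTop n₀] with m hm
    have hQn : n₀ ≤ m + Q * n₀ := by
      have := Nat.le_mul_of_pos_left n₀ hQ
      omega
    have hcl : m % Q = (m + Q * n₀) % Q := by rw [Nat.add_mul_mod_self_left]
    by_cases hg : GoodC Q f n₀ l m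
    · rw [if_pos hg]
      have h2 : (∏ i ∈ range l, level Q (f^[i] m)) * Real.log (m : ℝ) ^ l = ∏ i ∈ range l, uf Q f i m := by
        rw [← card_range l, ← prod_const, card_range, ← prod_mul_distrib]
        refine prod_congr rfl (fun i hi => ?_)
        unfold uf level qq
        rw [if_pos ((hP m _ hm hQn hcl i).2 (hg i (mem_range.1 hi)))]
      unfold gE
      rw [mul_right_comm, h2]
    · rw [if_neg hg]
      have h2 : gE Q f l m = 0 := by
        unfold GoodC at hg
        push Not at hg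
        obtain ⟨i, hi, hc⟩ := hg
        unfold gE
        rw [prod_eq_zero (mem_range.2 hi), zero_mul]
        unfold level
        rw [if_neg (fun h => hc ((hP m _ hm hQn hcl i).1 h))]
      rw [h2, zero_mul, sub_zero, norm_zero]
      exact norm_nonneg _

open Classical in
theorem mean_ex (l : ℕ) : mean (fun m => if GoodC Q f n₀ l m then qq Q ^ l else 0) Q = cE Q f n₀ l := by
  unfold mean cE
  rw [← sum_filter, sum_const, nsmul_eq_mul]
  ring

/-- The expected number of the chains of exact length `l`. -/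
theorem ex_fix (hQ : 1 ≤ Q) (hf : Step f C n₀) (hP : PerC Q f n₀) {l : ℕ} (hl1 : 1 ≤ l) :
    Tendsto (fun x : ℕ => EX Q f n₀ l x / ((x : ℝ) / Real.log x ^ l)) atTop (𝓝 (cE Q f n₀ l)) := by
  classical
  have hper := ex_per hQ hf hP hl1
  have h1 := hper.sum
  rw [mean_ex] at h1
  have h2 : Tendsto (fun x : ℕ => ((n₀ : ℝ) + 1) / ((x : ℝ) / Real.log x ^ l)) atTop (𝓝 0) := by
    refine Tendsto.const_div_atTop ?_ _
    have h3 := (isLittleO_log_rpow_rpow_atTop (s := 1 / 2) (l : ℝ) (by norm_num)).tendsto_div_nhds_zero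
    have h4 := (h3.comp tendsto_natCast_atTop_atTop (α := ℕ))
    refine tendsto_atTop_mono' atTop (f₁ := fun x : ℕ => (x : ℝ) ^ (1 / 2 : ℝ)) ?_
      ((tendsto_rpow_atTop (by norm_num)).comp tendsto_natCast_atTop_atTop)
    filter_upwards [h4.eventually_lt_const (show (0 : ℝ) < 1 by norm_num), hl.eventually_gt_atTop 0, eventually_ge_atTop 1]
      with x e1 e2 e3
    have hx0 : (0 : ℝ) < x := by exact_mod_cast e3
    simp only [Function.comp_apply] at e1
    rw [Real.rpow_natCast] at e1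
    have h5 := Real.rpow_pos_of_pos hx0 (1 / 2)
    rw [div_lt_one h5] at e1
    rw [le_div_iff₀ (by positivity)]
    have h6 : (x : ℝ) = (x : ℝ) ^ (1 / 2 : ℝ) * (x : ℝ) ^ (1 / 2 : ℝ) := by
      rw [← Real.rpow_add hx0]
      norm_num
    calc (x : ℝ) ^ (1 / 2 : ℝ) * Real.log x ^ l ≤ (x : ℝ) ^ (1 / 2 : ℝ) * (x : ℝ) ^ (1 / 2 : ℝ) := by gcongr
      _ = x := h6.symm
  have h3 : Tendsto (fun x : ℕ => EX Q f n₀ l x / ((x : ℝ) / Real.log x ^ l) -
      (∑ m ∈ range x, gE Q f l m) / ((x : ℝ) / Real.log x ^ l)) atTop (𝓝 0) := by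
    refine squeeze_zero_norm' ?_ h2
    filter_upwards [hl.eventually_gt_atTop 0, eventually_ge_atTop 1] with x e2 e3
    have hx0 : (0 : ℝ) < x := by exact_mod_cast e3
    have hpos : 0 < (x : ℝ) / Real.log x ^ l := by positivity
    rw [← sub_div, Real.norm_eq_abs, abs_div, abs_of_pos hpos]
    refine div_le_div_of_nonneg_right ?_ hpos.le
    have h5 : EX Q f n₀ l x = ∑ m ∈ range (x + 1), gE Q f l m - ∑ m ∈ (range (x + 1)).filter (fun n => ¬ n₀ ≤ n), gE Q f l m := by
      unfold EX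
      rw [← sum_filter_add_sum_filter_not (range (x + 1)) (fun n => n₀ ≤ n)]
      ring
    have h6 : 0 ≤ ∑ m ∈ (range (x + 1)).filter (fun n => ¬ n₀ ≤ n), gE Q f l m := sum_nonneg (fun m _ => hper.q0 m)
    have h7 : ∑ m ∈ (range (x + 1)).filter (fun n => ¬ n₀ ≤ n), gE Q f l m ≤ n₀ := by
      calc ∑ m ∈ (range (x + 1)).filter (fun n => ¬ n₀ ≤ n), gE Q f l m
          ≤ ∑ m ∈ (range (x + 1)).filter (fun n => ¬ n₀ ≤ n), (1 : ℝ) := sum_le_sum (fun m _ => hper.q1 m)
        _ = (((range (x + 1)).filter (fun n => ¬ n₀ ≤ n)).card : ℝ) := by simp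
        _ ≤ ((range n₀).card : ℝ) := by
          have : ((range (x + 1)).filter (fun n => ¬ n₀ ≤ n)) ⊆ range n₀ := by
            intro m hm
            rw [mem_filter] at hm
            exact mem_range.2 (by omega)
          exact_mod_cast card_le_card this
        _ = n₀ := by simp
    have h8 := hper.q0 x
    have h9 := hper.q1 x
    rw [h5, sum_range_succ, abs_le]
    constructor <;> linarith
  have h4 := h3.add h1
  rw [zero_add] at h4
  refine h4.congr (fun x => ?_)
  ring

/-- The constant is positive if some class has a good orbit. -/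
theorem cE_pos (hQ : 1 ≤ Q) {r : ℕ} (hg : ∀ n, n₀ ≤ n → n % Q = r % Q → ∀ i, (f^[i] n).Coprime Q) (l : ℕ) : 0 < cE Q f n₀ l := by
  classical
  have hq := qq_pos hQ
  have hQ0 : (0 : ℝ) < Q := by exact_mod_cast hQ
  have h1 : 0 < ((range Q).filter (GoodC Q f n₀ l)).card := by
    apply card_pos.2
    refine ⟨r % Q, mem_filter.2 ⟨mem_range.2 (Nat.mod_lt _ (by omega)), ?_⟩⟩
    intro i _
    refine hg _ ?_ ?_ i
    · have := Nat.le_mul_of_pos_left n₀ hQ
      omega
    · rw [Nat.add_mul_mod_self_left, Nat.mod_mod]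
  have h2 : (0 : ℝ) < (((range Q).filter (GoodC Q f n₀ l)).card : ℝ) := by exact_mod_cast h1
  unfold cE
  positivity

end

end Pool.Agent.Q106.GMM
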