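import Pool.Agent.Q106.GMM.Fin
import Pool.Agent.Q120.GM.ChainLow

/-!
# Chains of exact length in the sieved models: uniform asymptotics
-/

set_option autoImplicit false

namespace Pool.Agent.Q106.GMM

open Finset Filter Pool.Agent.Q120.GM MeasureTheory
open Pool.Agent.Q120.AD (hl)
open scoped Topology

/-- A chain of exact length `l` starts at `n`. -/
def Ex (S : Set ℕ) (f : ℕ → ℕ) (l n : ℕ) : Prop := (∀ i < l, f^[i] n ∈ S) ∧ f^[l] n ∉ S

/-- Its probability. -/
noncomputable def gE (Q : ℕ) (f : ℕ → ℕ) (l n : ℕ) : ℝ :=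
  (∏ i ∈ range l, level Q (f^[i] n)) * (1 - level Q (f^[l] n))

open Classical in
/-- The number of the chains of exact length `l` with starting points in `[n₀, x]`. -/
noncomputable def TE (S : Set ℕ) (f : ℕ → ℕ) (n₀ l x : ℕ) : ℝ :=
  ((((range (x + 1)).filter (fun n => n₀ ≤ n)).filter (fun n => Ex S f l n)).card : ℝ)

/-- The expected number. -/
noncomputable def EX (Q : ℕ) (f : ℕ → ℕ) (n₀ l x : ℕ) : ℝ := ∑ n ∈ (range (x + 1)).filter (fun n => n₀ ≤ n), gE Q f l n

theorem gE_nonneg (Q : ℕ) (f : ℕ → ℕ) (l n : ℕ) : 0 ≤ gE Q f l n := by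
  unfold gE
  exact mul_nonneg (prod_nonneg (fun i _ => level_nonneg Q _)) (by linarith [level_le_one Q (f^[l] n)])

theorem TE_mono (S : Set ℕ) (f : ℕ → ℕ) (n₀ l : ℕ) {x y : ℕ} (hxy : x ≤ y) : TE S f n₀ l x ≤ TE S f n₀ l y := by
  classical
  unfold TE
  have h : ((range (x + 1)).filter (fun n => n₀ ≤ n)).filter (fun n => Ex S f l n) ⊆
      ((range (y + 1)).filter (fun n => n₀ ≤ n)).filter (fun n => Ex S f l n) :=
    filter_subset_filter _ (filter_subset_filter _ (range_subset_range.2 (by omega)))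
  exact_mod_cast card_le_card h

section

variable {Ω : Type*} [MeasurableSpace Ω] {μ : Measure Ω} [IsProbabilityMeasure μ] {A : Ω → Set ℕ} {Q : ℕ}
  {f : ℕ → ℕ} {C n₀ : ℕ}

/-- The event. -/
def GE (A : Ω → Set ℕ) (f : ℕ → ℕ) (l n : ℕ) : Set Ω := all A (orb f n l) ∩ free A {f^[l] n}

omit [MeasurableSpace Ω] in
theorem mem_GE (l n : ℕ) (ω : Ω) : ω ∈ GE A f l n ↔ Ex (A ω) f l n := by
  unfold GE Ex all free
  simp only [Set.mem_inter_iff, Set.mem_ofPred_eq, mem_singleton, forall_eq]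
  refine and_congr_left (fun _ => ?_)
  constructor
  · intro h i hi
    exact h _ (mem_orb.2 ⟨i, hi, rfl⟩)
  · intro h m hm
    rw [mem_orb] at hm
    obtain ⟨i, hi, rfl⟩ := hm
    exact h i hi

theorem F_GE (l n : ℕ) : MeasurableSet[F A (orb f n (l + 1) : Set ℕ)] (GE A f l n) := by
  refine MeasurableSet.inter (F_all (fun i hi => ?_)) (F_free (fun i hi => ?_))
  · rw [mem_orb] at hi
    obtain ⟨j, hj, rfl⟩ := hi
    exact mem_coe.2 (mem_orb.2 ⟨j, by omega, rfl⟩)
  · rw [mem_singleton] at hi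
    rw [hi]
    exact mem_coe.2 (mem_orb.2 ⟨l, by omega, rfl⟩)

theorem meas_GE (hA : IsModel μ (level Q) A) (l n : ℕ) : MeasurableSet (GE A f l n) := F_le hA _ _ (F_GE l n)

theorem real_GE (hA : IsModel μ (level Q) A) (hf : Step f C n₀) {l n : ℕ} (hn : n₀ ≤ n) : μ.real (GE A f l n) = gE Q f l n := by
  unfold GE gE
  rw [indep_real hA (S := (orb f n l : Set ℕ)) (T := {f^[l] n}) ?_ (F_all (fun i hi => hi)) (F_free (fun i hi => ?_)),
    real_all hA, real_free hA, prod_singleton, hf.prod_orb hn]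
  · rw [Set.disjoint_singleton_right]
    intro h
    rw [mem_coe, mem_orb] at h
    obtain ⟨i, hi, h1⟩ := h
    have := (hf.strict hn).injective h1
    omega
  · rw [mem_singleton] at hi
    rw [hi]
    exact Set.mem_singleton _

theorem GE_corr (hA : IsModel μ (level Q) A) (hf : Step f C n₀) (l : ℕ) {m n : ℕ} (hm : n₀ ≤ m) (hn : n₀ ≤ n)
    (hmn : m ≠ n) : μ.real (GE A f l m ∩ GE A f l n) ≤ μ.real (GE A f l m) * μ.real (GE A f l n) := by
  have key : ∀ m n : ℕ, n₀ ≤ m → n₀ ≤ n → m < n →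
      μ.real (GE A f l m ∩ GE A f l n) ≤ μ.real (GE A f l m) * μ.real (GE A f l n) := by
    intro m n hm hn hmn
    by_cases h : ∃ j, 1 ≤ j ∧ j ≤ l ∧ f^[j] m = n
    · obtain ⟨j, hj1, hjl, hj⟩ := h
      have h1 : GE A f l m ∩ GE A f l n = ∅ := by
        ext ω
        simp only [Set.mem_inter_iff, mem_GE, Set.mem_empty_iff_false, iff_false]
        rintro ⟨h2, h3⟩
        apply h2.2
        have h4 := h3.1 (l - j) (by omega)
        rw [← hj, ← Function.iterate_add_apply, Nat.sub_add_cancel hjl] at h4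
        exact h4
      rw [h1, measureReal_empty]
      exact mul_nonneg measureReal_nonneg measureReal_nonneg
    · refine le_of_eq (indep_real hA (S := (orb f m (l + 1) : Set ℕ)) (T := (orb f n (l + 1) : Set ℕ)) ?_ (F_GE l m) (F_GE l n))
      rw [Set.disjoint_left]
      intro x hx hx2
      rw [mem_coe, mem_orb] at hx hx2
      obtain ⟨i, hi, h1⟩ := hx
      obtain ⟨i', hi', h2⟩ := hx2
      rcases le_or_gt i' i with h3 | h3
      · have h4 : f^[i'] (f^[i - i'] m) = f^[i'] n := by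
          rw [← Function.iterate_add_apply, Nat.add_sub_cancel' h3, h1, h2]
        have h5 := hf.inj_iter i' (hm.trans (hf.ge _ hm)) hn h4
        refine h ⟨i - i', ?_, by omega, h5⟩
        by_contra h6
        have h7 : i - i' = 0 := by omega
        rw [h7] at h5
        exact hmn.ne h5
      · have h4 : f^[i] m = f^[i] (f^[i' - i] n) := by
          rw [← Function.iterate_add_apply, Nat.add_sub_cancel' h3.le, h1, h2]
        have h5 := hf.inj_iter i hm (hn.trans (hf.ge _ hn)) h4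
        have h6 := hf.ge (i' - i) hn
        omega
  rcases lt_or_gt_of_ne hmn with h1 | h1
  · exact key m n hm hn h1
  · rw [Set.inter_comm, mul_comm]
    exact key n m hn hm h1

omit [MeasurableSpace Ω] in
theorem TE_num (l x : ℕ) (ω : Ω) : TE (A ω) f n₀ l x = num ((range (x + 1)).filter (fun n => n₀ ≤ n)) (GE A f l) ω := by
  classical
  unfold TE
  rw [card_filter]
  push_cast
  unfold num
  refine sum_congr rfl (fun a _ => ?_)
  by_cases h1 : Ex (A ω) f l a
  · rw [if_pos h1, Set.indicator_of_mem ((mem_GE l a ω).2 h1)]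
  · rw [if_neg h1, Set.indicator_of_notMem (fun h2 => h1 ((mem_GE l a ω).1 h2))]

theorem exact_cheb (hA : IsModel μ (level Q) A) (hf : Step f C n₀) (l x : ℕ) {t : ℝ} (ht : 0 < t) :
    μ.real {ω | t ≤ |TE (A ω) f n₀ l x - EX Q f n₀ l x|} ≤ EX Q f n₀ l x / t ^ 2 := by
  have h1 := cheb (μ := μ) ((range (x + 1)).filter (fun n => n₀ ≤ n)) (GE A f l) (fun a _ => meas_GE hA l a)
    (fun a ha b hb hab => GE_corr hA hf l (mem_filter.1 ha).2 (mem_filter.1 hb).2 hab) ht
  have h2 : ∑ a ∈ (range (x + 1)).filter (fun n => n₀ ≤ n), μ.real (GE A f l a) = EX Q f n₀ l x :=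
    sum_congr rfl (fun a ha => real_GE hA hf (mem_filter.1 ha).2)
  rw [h2] at h1
  simp only [TE_num]
  exact h1

end

section

variable {Q : ℕ} {f : ℕ → ℕ} {C n₀ : ℕ}

/-- `level` is antitone on the integers coprime to `Q`. -/
theorem level_anti {m n : ℕ} (hm : 2 ≤ m) (hmn : m ≤ n) (hc : m.Coprime Q) : level Q n ≤ level Q m := by
  have hm' : (2 : ℝ) ≤ m := by exact_mod_cast hm
  have h1 : 0 < Real.log (m : ℝ) := Real.log_pos (by linarith)
  have h2 : Real.log (m : ℝ) ≤ Real.log (n : ℝ) := Real.log_le_log (by linarith) (by exact_mod_cast hmn)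
  have hq : 0 ≤ (Q : ℝ) / Nat.totient Q := by positivity
  unfold level
  rw [if_pos hc]
  split_ifs
  · exact min_le_min le_rfl (div_le_div_of_nonneg_left hq h1 h2)
  · exact le_min zero_le_one (by positivity)

/-- The classes of the orbits. -/
def PerC (Q : ℕ) (f : ℕ → ℕ) (n₀ : ℕ) : Prop :=
  ∀ m n, n₀ ≤ m → n₀ ≤ n → m % Q = n % Q → ∀ i, ((f^[i] m).Coprime Q ↔ (f^[i] n).Coprime Q)

theorem gE_step (hf : Step f C n₀) (hmono : Monotone f) (hP : PerC Q f n₀) {n₁ : ℕ} (hn₁ : n₀ ≤ n₁) (hn₂ : 2 ≤ n₁)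
    (hsmall : ∀ m, n₁ ≤ m → level Q m ≤ 1 / 2) {m n l : ℕ} (hm : n₁ ≤ m) (hmn : m ≤ n) (hcl : m % Q = n % Q) :
    gE Q f l n ≤ 2 * gE Q f l m := by
  have hm0 : n₀ ≤ m := hn₁.trans hm
  have hn0 : n₀ ≤ n := hm0.trans hmn
  unfold gE
  by_cases hg : ∀ i < l, (f^[i] m).Coprime Q
  · have h1 : ∏ i ∈ range l, level Q (f^[i] n) ≤ ∏ i ∈ range l, level Q (f^[i] m) := by
      refine Finset.prod_le_prod (fun i _ => level_nonneg Q _) (fun i hi => ?_)
      rw [mem_range] at hi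
      have h2 := hf.ge i hm0
      exact level_anti (by omega) (hmono.iterate i hmn) (hg i hi)
    have h2 : 1 - level Q (f^[l] n) ≤ 1 := by linarith [level_nonneg Q (f^[l] n)]
    have h3 : 1 / 2 ≤ 1 - level Q (f^[l] m) := by
      have := hsmall (f^[l] m) (hm.trans (hf.ge l hm0))
      linarith
    have h4 : 0 ≤ ∏ i ∈ range l, level Q (f^[i] m) := prod_nonneg (fun i _ => level_nonneg Q _)
    have h5 : (∏ i ∈ range l, level Q (f^[i] n)) * (1 - level Q (f^[l] n)) ≤ (∏ i ∈ range l, level Q (f^[i] m)) * 1 :=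
      mul_le_mul h1 h2 (by linarith [level_le_one Q (f^[l] n)]) h4
    nlinarith
  · push Not at hg
    obtain ⟨i, hi, hc⟩ := hg
    have hc' : ¬ (f^[i] n).Coprime Q := fun h => hc ((hP m n hm0 hn0 hcl i).2 h)
    have h1 : ∏ i ∈ range l, level Q (f^[i] n) = 0 := by
      refine prod_eq_zero (mem_range.2 hi) ?_
      unfold level
      rw [if_neg hc']
    rw [h1, zero_mul]
    have := gE_nonneg Q f l m
    unfold gE at this
    linarith

theorem EX_mono (Q : ℕ) (f : ℕ → ℕ) (n₀ l : ℕ) {x y : ℕ} (hxy : x ≤ y) : EX Q f n₀ l x ≤ EX Q f n₀ l y := by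
  unfold EX
  exact sum_le_sum_of_subset_of_nonneg (filter_subset_filter _ (range_subset_range.2 (by omega)))
    (fun n _ _ => gE_nonneg Q f l n)

/-- Interpolation. -/
theorem EX_step (hQ : 1 ≤ Q) (hf : Step f C n₀) (hmono : Monotone f) (hP : PerC Q f n₀) :
    ∀ᶠ x : ℕ in atTop, ∀ y l : ℕ, x ≤ y → EX Q f n₀ l y ≤ (1 + 16 * Q * (((y : ℝ) - x) / x)) * EX Q f n₀ l x := by
  have hsm : ∀ᶠ m : ℕ in atTop, level Q m ≤ 1 / 2 := by
    filter_upwards [hl.eventually_ge_atTop (2 * qq Q + 1), eventually_ge_atTop 1] with m h1 h2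
    have hq := qq_pos hQ
    have hm0 : (0 : ℝ) < m := by exact_mod_cast h2
    refine (level_le (x := (m : ℝ)) (by linarith) hm0 le_rfl).trans ?_
    rw [div_le_div_iff₀ (by linarith) (by norm_num)]
    linarith
  obtain ⟨n₁, hn₁⟩ := eventually_atTop.1 (hsm.and (eventually_ge_atTop (max n₀ 2)))
  have hn1 : max n₀ 2 ≤ n₁ := (hn₁ n₁ le_rfl).2
  have hsmall : ∀ m, n₁ ≤ m → level Q m ≤ 1 / 2 := fun m hm => (hn₁ m hm).1
  have hQ0 : (0 : ℝ) < Q := by exact_mod_cast (show 0 < Q by omega)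
  filter_upwards [eventually_ge_atTop (4 * n₁ + 8 * Q)] with x hx y l hxy
  have hx0 : (0 : ℝ) < x := by exact_mod_cast (show 0 < x by omega)
  -- the number of the comparison points
  obtain ⟨J, hJ⟩ : ∃ J, J = x / (4 * Q) := ⟨_, rfl⟩
  have hJ1 : 4 * Q * J ≤ x := by rw [hJ]; exact Nat.mul_div_le x (4 * Q)
  have hJ2 : (x : ℝ) / (8 * Q) ≤ J := by
    have h1 : x < 4 * Q * (J + 1) := by
      rw [hJ]
      exact Nat.lt_mul_div_succ x (by omega)
    have h2 : (x : ℝ) < 4 * Q * (J + 1) := by exact_mod_cast h1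
    have h3 : (8 : ℝ) * Q ≤ x := by exact_mod_cast (show 8 * Q ≤ x by omega)
    rw [div_le_iff₀ (by positivity)]
    nlinarith
  have hone : ∀ n ∈ Ico (x + 1) (y + 1), gE Q f l n ≤ 2 * (8 * Q / x) * EX Q f n₀ l x := by
    intro n hn
    rw [mem_Ico] at hn
    -- the points `x - i`, congruent to `n`
    obtain ⟨s, hs1, hs2, hs3⟩ : ∃ s, s ≤ x ∧ x < s + Q ∧ s % Q = n % Q := by
      refine ⟨x - (x + (Q - n % Q)) % Q, Nat.sub_le _ _, ?_, ?_⟩
      · have h1 : (x + (Q - n % Q)) % Q < Q := Nat.mod_lt _ (by omega)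
        omega
      · have h1 : (x + (Q - n % Q)) % Q < Q := Nat.mod_lt _ (by omega)
        have h2 : (x + (Q - n % Q)) % Q ≤ x := by omega
        have h3 : n % Q < Q := Nat.mod_lt _ (by omega)
        have h4 : x - (x + (Q - n % Q)) % Q + (Q - n % Q) + (x + (Q - n % Q)) % Q = x + (Q - n % Q) := by omega
        have h5 : x + (Q - n % Q) = Q * ((x + (Q - n % Q)) / Q) + (x + (Q - n % Q)) % Q := (Nat.div_add_mod _ _).symm
        have h6 : x - (x + (Q - n % Q)) % Q + (Q - n % Q) = Q * ((x + (Q - n % Q)) / Q) := by omega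
        have h7 : x - (x + (Q - n % Q)) % Q + Q = Q * ((x + (Q - n % Q)) / Q) + n % Q := by omega
        have h8 : (x - (x + (Q - n % Q)) % Q + Q) % Q = (x - (x + (Q - n % Q)) % Q) % Q := Nat.add_mod_right _ _
        rw [← h8, h7, Nat.mul_add_mod]
        exact Nat.mod_mod _ _
    have h1 : ∀ j ∈ range J, gE Q f l n ≤ 2 * gE Q f l (s - j * Q) := by
      intro j hj
      rw [mem_range] at hj
      have h2 : j * Q ≤ J * Q := Nat.mul_le_mul_right _ hj.le
      have h3 : 4 * (J * Q) ≤ x := by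
        have : 4 * Q * J = 4 * (J * Q) := by ring
        omega
      refine gE_step hf hmono hP (by omega) (by omega) hsmall (by omega) (by omega) ?_
      rw [← hs3]
      have h4 : s = (s - j * Q) + j * Q := by omega
      conv_rhs => rw [h4]
      rw [Nat.add_mul_mod_self_right]
    have h2 : (J : ℝ) * gE Q f l n ≤ 2 * EX Q f n₀ l x := by
      have h3 := sum_le_sum h1
      rw [sum_const, card_range, nsmul_eq_mul, ← mul_sum] at h3
      refine h3.trans ?_
      apply mul_le_mul_of_nonneg_left _ (by norm_num)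
      have hinj : ∀ i ∈ range J, ∀ j ∈ range J, s - i * Q = s - j * Q → i = j := by
        intro i hi j hj hij
        rw [mem_range] at hi hj
        have e1 : i * Q ≤ J * Q := Nat.mul_le_mul_right _ hi.le
        have e2 : j * Q ≤ J * Q := Nat.mul_le_mul_right _ hj.le
        have e3 : 4 * (J * Q) ≤ x := by
          have : 4 * Q * J = 4 * (J * Q) := by ring
          omega
        have e4 : i * Q = j * Q := by omega
        exact Nat.eq_of_mul_eq_mul_right (by omega) e4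
      rw [← sum_image (s := range J) (g := fun j => s - j * Q) (f := gE Q f l) hinj]
      unfold EX
      refine sum_le_sum_of_subset_of_nonneg (fun m hm => ?_) (fun n _ _ => gE_nonneg Q f l n)
      rw [mem_image] at hm
      obtain ⟨j, hj, rfl⟩ := hm
      rw [mem_range] at hj
      have e1 : j * Q ≤ J * Q := Nat.mul_le_mul_right _ hj.le
      have e3 : 4 * (J * Q) ≤ x := by
        have : 4 * Q * J = 4 * (J * Q) := by ring
        omega
      rw [mem_filter, mem_range]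
      constructor <;> omega
    have h3 : (x : ℝ) / (8 * Q) * gE Q f l n ≤ 2 * EX Q f n₀ l x :=
      (mul_le_mul_of_nonneg_right hJ2 (gE_nonneg Q f l n)).trans h2
    have h4 : gE Q f l n = (8 * Q / x) * ((x : ℝ) / (8 * Q) * gE Q f l n) := by field_simp
    rw [h4]
    have h5 := mul_le_mul_of_nonneg_left h3 (show (0 : ℝ) ≤ 8 * Q / x by positivity)
    linarith
  have hsplit : EX Q f n₀ l y ≤ EX Q f n₀ l x + ∑ n ∈ Ico (x + 1) (y + 1), gE Q f l n := by
    unfold EX
    have h1 : (range (y + 1)).filter (fun n => n₀ ≤ n) ⊆ (range (x + 1)).filter (fun n => n₀ ≤ n) ∪ Ico (x + 1) (y + 1) := by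
      intro n hn
      rw [mem_filter, mem_range] at hn
      rw [mem_union, mem_filter, mem_range, mem_Ico]
      omega
    refine (sum_le_sum_of_subset_of_nonneg h1 (fun n _ _ => gE_nonneg Q f l n)).trans ?_
    rw [sum_union]
    rw [Finset.disjoint_left]
    intro n hn hn2
    rw [mem_filter, mem_range] at hn
    rw [mem_Ico] at hn2
    omega
  refine hsplit.trans ?_
  have h1 := sum_le_sum hone
  rw [sum_const, Nat.card_Ico, nsmul_eq_mul] at h1
  have h2 : ((y + 1 - (x + 1) : ℕ) : ℝ) = (y : ℝ) - x := by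
    rw [show y + 1 - (x + 1) = y - x by omega, Nat.cast_sub hxy]
  rw [h2] at h1
  have h3 : (1 + 16 * Q * (((y : ℝ) - x) / x)) * EX Q f n₀ l x =
      EX Q f n₀ l x + ((y : ℝ) - x) * (2 * (8 * Q / x) * EX Q f n₀ l x) := by
    field_simp
    ring
  rw [h3]
  linarith

end

section

variable {Ω : Type*} [MeasurableSpace Ω] {μ : Measure Ω} [IsProbabilityMeasure μ] {A : Ω → Set ℕ} {Q : ℕ}
  {f : ℕ → ℕ} {C n₀ : ℕ}

/-- `log log x → ∞`. -/
theorem hll : Tendsto (fun x : ℕ => Real.log (Real.log (x : ℝ))) atTop atTop := Real.tendsto_log_atTop.comp hl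

/-- The expected numbers are large. -/
theorem EX_big (hA : IsModel μ (level Q) A) (hQ : 1 ≤ Q) (hf : Step f C n₀) {r : ℕ}
    (hg : ∀ n, n₀ ≤ n → n % Q = r % Q → ∀ i, (f^[i] n).Coprime Q) {ε : ℝ} (hε : 0 < ε) (hε1 : ε < 1) :
    ∀ᶠ x : ℕ in atTop, ∀ l : ℕ, (l : ℝ) ≤ (1 - ε) * (Real.log x / Real.log (Real.log x)) →
      (x : ℝ) ^ (ε / 4) ≤ EX Q f n₀ l x := by
  have hq := qq_pos hQ
  have hq1 : 1 ≤ qq Q := by
    unfold qq
    have h1 : Nat.totient Q ≤ Q := Nat.totient_le Q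
    have h2 : (0 : ℝ) < Nat.totient Q := by exact_mod_cast Nat.totient_pos.2 hQ
    rw [le_div_iff₀ h2, one_mul]
    exact_mod_cast h1
  have hQ0 : (0 : ℝ) < Q := by exact_mod_cast (show 0 < Q by omega)
  have hC1 : 0 ≤ Real.log C := Real.log_nonneg (by exact_mod_cast hf.cone)
  have hsm : ∀ᶠ m : ℕ in atTop, level Q m ≤ 1 / 2 := by
    filter_upwards [hl.eventually_ge_atTop (2 * qq Q + 1), eventually_ge_atTop 1] with m h1 h2
    have hm0 : (0 : ℝ) < m := by exact_mod_cast h2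
    refine (level_le (x := (m : ℝ)) (by linarith) hm0 le_rfl).trans ?_
    rw [div_le_div_iff₀ (by linarith) (by norm_num)]
    linarith
  obtain ⟨n₁, hn₁⟩ := eventually_atTop.1 (hsm.and ((hl.eventually_ge_atTop (qq Q)).and (eventually_ge_atTop (max n₀ 2))))
  have hblk := card_blk hQ r
  obtain ⟨X₀, hX₀⟩ := eventually_atTop.1 hblk
  have hpow : Tendsto (fun x : ℕ => (x : ℝ) ^ (ε / 4)) atTop atTop :=
    (tendsto_rpow_atTop (by positivity)).comp tendsto_natCast_atTop_atTop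
  filter_upwards [eventually_ge_atTop (2 * (X₀ + n₁) + 6), hpow.eventually_ge_atTop (48 * Q), hl.eventually_ge_atTop 3,
    hll.eventually_ge_atTop (Real.log C + 2 / ε + 1)] with x hx hx2 hx3 hx4 l hlx
  have hx0 : (0 : ℝ) < x := by exact_mod_cast (show 0 < x by omega)
  obtain ⟨L, hL⟩ : ∃ L, L = Real.log (x : ℝ) := ⟨_, rfl⟩
  rw [← hL] at hx3 hx4 hlx
  have hε2 : 0 < 2 / ε := by positivity
  have hLL : 0 < Real.log L := by linarith
  obtain ⟨X, hX⟩ : ∃ X, X = x / 2 := ⟨_, rfl⟩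
  have hX1 : X₀ ≤ X := by omega
  have hX2 : n₁ ≤ X := by omega
  have hX3 : 3 * X + 3 ≥ x := by omega
  have hX4 : X + X / 2 ≤ x := by omega
  -- `l log C ≤ L`
  have hl1 : (l : ℝ) * Real.log L ≤ (1 - ε) * L := by
    have h1 := mul_le_mul_of_nonneg_right hlx hLL.le
    have h2 : (1 - ε) * (L / Real.log L) * Real.log L = (1 - ε) * L := by field_simp
    linarith
  have hl0 : (0 : ℝ) ≤ l := Nat.cast_nonneg l
  have hlC : (l : ℝ) * Real.log C ≤ L := by
    have h1 : (l : ℝ) * Real.log C ≤ l * Real.log L := mul_le_mul_of_nonneg_left (by linarith) hl0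
    nlinarith
  have hone : ∀ n ∈ blk Q r X, 1 / 2 * Real.exp (-((1 - ε / 2) * L)) ≤ gE Q f l n := by
    intro n hn
    obtain ⟨m1, m2, m3⟩ := mem_blk hn
    have hnn1 : n₁ ≤ n := by omega
    obtain ⟨k1, k2, k3⟩ := hn₁ n hnn1
    have hn0 : n₀ ≤ n := (le_max_left _ _).trans k3
    have hn2 : 2 ≤ n := (le_max_right _ _).trans k3
    have hnx : (n : ℝ) ≤ x := by exact_mod_cast (show n ≤ x by omega)
    have hn2' : (2 : ℝ) ≤ n := by exact_mod_cast hn2
    have h1 := le_ch (k := l) hA hf hn0 hnx k2 (Real.log_pos (by linarith)) (hg n hn0 m3)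
    rw [real_all hA, hf.prod_orb hn0, ← hL] at h1
    have h2 : level Q (f^[l] n) ≤ 1 / 2 := (hn₁ _ (hnn1.trans (hf.ge l hn0))).1
    have h3 : Real.exp (-((1 - ε / 2) * L)) ≤ (qq Q / (L + l * Real.log C)) ^ l := by
      have h4 : qq Q / (2 * L) ≤ qq Q / (L + l * Real.log C) := by
        apply div_le_div_of_nonneg_left hq.le
        · have : 0 ≤ (l : ℝ) * Real.log C := by positivity
          linarith
        · linarith
      have h5 : (1 / (2 * L)) ^ l ≤ (qq Q / (L + l * Real.log C)) ^ l := by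
        apply pow_le_pow_left₀ (by positivity)
        refine le_trans ?_ h4
        exact div_le_div_of_nonneg_right hq1 (by positivity)
      refine le_trans ?_ h5
      have h6 : (1 / (2 * L)) ^ l = Real.exp (-(l * (Real.log 2 + Real.log L))) := by
        have h60 : Real.exp ((l : ℝ) * Real.log (2 * L)) = (2 * L) ^ l := by
          rw [Real.exp_nat_mul, Real.exp_log (by positivity)]
        rw [← Real.log_mul (by norm_num) (by linarith), one_div, inv_pow, Real.exp_neg, h60]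
      rw [h6]
      apply Real.exp_le_exp.2
      rw [neg_le_neg_iff]
      have h7 : Real.log 2 ≤ 1 := by
        have := Real.log_two_lt_d9
        linarith
      have h8 : (l : ℝ) ≤ ε / 2 * L := by
        have h9 : 2 / ε ≤ Real.log L := by linarith
        rw [div_le_iff₀ hε] at h9
        -- `l * 2 ≤ l * ε * log L ≤ ε (1 - ε) L`
        have h10 : (l : ℝ) * 2 ≤ l * (Real.log L * ε) := mul_le_mul_of_nonneg_left h9 hl0
        nlinarith
      nlinarith
    have h4 : 0 ≤ ∏ i ∈ range l, level Q (f^[i] n) := prod_nonneg (fun i _ => level_nonneg Q _)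
    unfold gE
    have h5 := h3.trans h1
    nlinarith
  have hsum : ((blk Q r X).card : ℝ) * (1 / 2 * Real.exp (-((1 - ε / 2) * L))) ≤ EX Q f n₀ l x := by
    have h1 := sum_le_sum hone
    rw [sum_const, nsmul_eq_mul] at h1
    refine h1.trans ?_
    unfold EX
    refine sum_le_sum_of_subset_of_nonneg (fun n hn => ?_) (fun n _ _ => gE_nonneg Q f l n)
    obtain ⟨m1, m2, m3⟩ := mem_blk hn
    have hnn1 : n₁ ≤ n := by omega
    obtain ⟨k1, k2, k3⟩ := hn₁ n hnn1
    have hn0 : n₀ ≤ n := (le_max_left _ _).trans k3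
    rw [mem_filter, mem_range]
    constructor <;> omega
  refine le_trans ?_ hsum
  have hcard : (x : ℝ) / (24 * Q) ≤ (blk Q r X).card := by
    refine le_trans ?_ (hX₀ X hX1)
    have h1 : (x : ℝ) ≤ 6 * X := by
      have : x ≤ 6 * X := by omega
      exact_mod_cast this
    rw [div_le_div_iff₀ (by positivity) (by positivity)]
    nlinarith
  have h1 : (x : ℝ) * Real.exp (-((1 - ε / 2) * L)) = (x : ℝ) ^ (ε / 2) := by
    have h6 : (x : ℝ) = Real.exp L := by rw [hL, Real.exp_log hx0]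
    rw [Real.rpow_def_of_pos hx0, ← hL]
    nth_rewrite 1 [h6]
    rw [← Real.exp_add]
    congr 1
    ring
  have h2 : (x : ℝ) ^ (ε / 2) = (x : ℝ) ^ (ε / 4) * (x : ℝ) ^ (ε / 4) := by
    rw [← Real.rpow_add hx0]
    congr 1
    ring
  have h3 := mul_le_mul_of_nonneg_right hcard (show 0 ≤ 1 / 2 * Real.exp (-((1 - ε / 2) * L)) by positivity)
  refine le_trans ?_ h3
  have h4 : (x : ℝ) / (24 * Q) * (1 / 2 * Real.exp (-((1 - ε / 2) * L))) = (x : ℝ) ^ (ε / 4) * ((x : ℝ) ^ (ε / 4) / (48 * Q)) := by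
    have : (x : ℝ) / (24 * Q) * (1 / 2 * Real.exp (-((1 - ε / 2) * L))) = (x * Real.exp (-((1 - ε / 2) * L))) / (48 * Q) := by
      field_simp
      ring
    rw [this, h1, h2]
    ring
  rw [h4]
  have h5 : 1 ≤ (x : ℝ) ^ (ε / 4) / (48 * Q) := by
    rw [le_div_iff₀ (by positivity), one_mul]
    exact hx2
  have h6 := Real.rpow_pos_of_pos hx0 (ε / 4)
  nlinarith

/-- **Uniform asymptotics of the numbers of the chains of exact length `l`.** -/
theorem exact_one (hA : IsModel μ (level Q) A) (hQ : 1 ≤ Q) (hf : Step f C n₀) (hmono : Monotone f) (hP : PerC Q f n₀) {r : ℕ}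
    (hg : ∀ n, n₀ ≤ n → n % Q = r % Q → ∀ i, (f^[i] n).Coprime Q) {ε δ : ℝ} (hε : 0 < ε) (hε1 : ε < 1) (hδ : 0 < δ)
    (hδ1 : δ < 1) : ∀ᵐ ω ∂μ, ∀ᶠ x : ℕ in atTop, ∀ l : ℕ, (l : ℝ) ≤ (1 - ε) * (Real.log x / Real.log (Real.log x)) →
      |TE (A ω) f n₀ l x - EX Q f n₀ l x| ≤ δ * EX Q f n₀ l x := by
  classical
  have hQ0 : (0 : ℝ) < Q := by exact_mod_cast (show 0 < Q by omega)
  obtain ⟨ε', hε'⟩ : ∃ ε', ε' = ε / 2 := ⟨_, rfl⟩
  have hε'0 : 0 < ε' := by linarith
  have hε'1 : ε' < 1 := by linarith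
  obtain ⟨M, hM⟩ := exists_nat_gt (24 / ε')
  have hM0 : 0 < M := by
    have : (0 : ℝ) < M := lt_trans (by positivity) hM
    exact_mod_cast this
  have hMr : (0 : ℝ) < M := by exact_mod_cast hM0
  obtain ⟨R, hR⟩ : ∃ R : ℕ → ℝ, R = fun (x : ℕ) => (1 - ε') * (Real.log (x : ℝ) / Real.log (Real.log (x : ℝ))) := ⟨_, rfl⟩
  have hgrid : Tendsto (fun k : ℕ => k ^ M) atTop atTop := tendsto_pow_atTop hM0.ne'
  have hbig := hgrid.eventually (EX_big hA hQ hf hg hε'0 hε'1)
  obtain ⟨B, hB⟩ : ∃ B : ℕ → Set Ω, B = fun k => ⋃ l ∈ (range (k + 1)).filter (fun l : ℕ => (l : ℝ) ≤ R (k ^ M)),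
      {ω | EX Q f n₀ l (k ^ M) ^ (3 / 4 : ℝ) ≤ |TE (A ω) f n₀ l (k ^ M) - EX Q f n₀ l (k ^ M)|} := ⟨_, rfl⟩
  have hbc : ∀ᵐ ω ∂μ, ∀ᶠ k : ℕ in atTop, ω ∉ B k := by
    refine bc (g := fun k : ℕ => 2 * (1 / (k : ℝ) ^ 2)) ?_ ?_
    · exact (Real.summable_one_div_nat_pow.2 (by norm_num)).mul_left 2
    · filter_upwards [hbig, eventually_ge_atTop 1] with k h1 hk
      have hk' : (1 : ℝ) ≤ k := by exact_mod_cast hk
      have hk0 : (0 : ℝ) < k := by linarith
      rw [hB]
      refine (measureReal_biUnion_finset_le _ _).trans ?_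
      have h2 : ∀ l ∈ (range (k + 1)).filter (fun l : ℕ => (l : ℝ) ≤ R (k ^ M)),
          μ.real {ω | EX Q f n₀ l (k ^ M) ^ (3 / 4 : ℝ) ≤ |TE (A ω) f n₀ l (k ^ M) - EX Q f n₀ l (k ^ M)|} ≤ 1 / (k : ℝ) ^ 3 := by
        intro l hlR
        rw [mem_filter, hR] at hlR
        have h3 := h1 l hlR.2
        obtain ⟨E, hE⟩ : ∃ E, E = EX Q f n₀ l (k ^ M) := ⟨_, rfl⟩
        rw [← hE] at h3 ⊢
        have h4 : (k : ℝ) ^ (6 : ℝ) ≤ E := by
          refine le_trans ?_ h3
          push_cast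
          rw [← Real.rpow_natCast, ← Real.rpow_mul hk0.le]
          apply Real.rpow_le_rpow_of_exponent_le hk'
          rw [div_lt_iff₀ hε'0] at hM
          linarith
        have hE0 : 0 < E := lt_of_lt_of_le (by positivity) h4
        have h5 := exact_cheb (n₀ := n₀) hA hf l (k ^ M) (t := E ^ (3 / 4 : ℝ)) (by positivity)
        rw [← hE] at h5
        refine h5.trans ?_
        have h6 : (E ^ (3 / 4 : ℝ)) ^ 2 = E * E ^ (1 / 2 : ℝ) := by
          rw [← Real.rpow_natCast, ← Real.rpow_mul hE0.le]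
          nth_rewrite 2 [← Real.rpow_one E]
          rw [← Real.rpow_add hE0]
          norm_num
        rw [h6]
        have h7 : (k : ℝ) ^ 3 ≤ E ^ (1 / 2 : ℝ) := by
          have h8 := Real.rpow_le_rpow (by positivity) h4 (show (0 : ℝ) ≤ 1 / 2 by norm_num)
          rw [← Real.rpow_mul hk0.le] at h8
          refine le_trans (le_of_eq ?_) h8
          rw [← Real.rpow_natCast]
          norm_num
        have h8 : 0 < E ^ (1 / 2 : ℝ) := Real.rpow_pos_of_pos hE0 _
        rw [div_le_div_iff₀ (by positivity) (by positivity)]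
        nlinarith
      refine (sum_le_sum h2).trans ?_
      rw [sum_const, nsmul_eq_mul]
      have h3 : (((range (k + 1)).filter (fun l : ℕ => (l : ℝ) ≤ R (k ^ M))).card : ℝ) ≤ k + 1 := by
        have := card_filter_le (range (k + 1)) (fun l : ℕ => (l : ℝ) ≤ R (k ^ M))
        rw [card_range] at this
        exact_mod_cast this
      have h4 : (((range (k + 1)).filter (fun l : ℕ => (l : ℝ) ≤ R (k ^ M))).card : ℝ) * (1 / (k : ℝ) ^ 3) ≤
          (2 * k) * (1 / (k : ℝ) ^ 3) := mul_le_mul_of_nonneg_right (by linarith) (by positivity)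
      refine h4.trans (le_of_eq ?_)
      field_simp
  filter_upwards [hbc] with ω hω
  obtain ⟨η, hη⟩ : ∃ η, η = δ / 4 := ⟨_, rfl⟩
  have hη0 : 0 < η := by linarith
  -- properties of the grid
  have hlogk : Tendsto (fun k : ℕ => Real.log (k : ℝ)) atTop atTop := hl
  have hrat : Tendsto (fun k : ℕ => Real.log ((k : ℝ) + 1) / Real.log k) atTop (𝓝 1) := by
    have h1 : Tendsto (fun k : ℕ => 1 + Real.log (1 + 1 / (k : ℝ)) / Real.log k) atTop (𝓝 (1 + 0)) := by
      refine tendsto_const_nhds.add ?_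
      have h2 : Tendsto (fun n : ℕ => 1 + 1 / (n : ℝ)) atTop (𝓝 (1 + 0)) :=
        tendsto_const_nhds.add tendsto_one_div_atTop_nhds_zero_nat
      rw [add_zero] at h2
      have h3 : Tendsto (fun n : ℕ => Real.log (1 + 1 / (n : ℝ))) atTop (𝓝 (Real.log 1)) :=
        (Real.continuousAt_log one_ne_zero).tendsto.comp h2
      exact h3.div_atTop hl
    rw [add_zero] at h1
    refine h1.congr' ?_
    filter_upwards [hl.eventually_gt_atTop 0, eventually_ge_atTop 1] with n hn hn1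
    have hn0 : (0 : ℝ) < n := by exact_mod_cast hn1
    have h2 : Real.log ((n : ℝ) + 1) = Real.log n + Real.log (1 + 1 / (n : ℝ)) := by
      rw [← Real.log_mul hn0.ne' (by positivity)]
      congr 1
      field_simp
    rw [h2]
    field_simp
  have hinc : Tendsto (fun k : ℕ => 16 * (Q : ℝ) * ((1 + 1 / (k : ℝ)) ^ M - 1)) atTop (𝓝 0) := by
    have h2 : Tendsto (fun n : ℕ => 1 + 1 / (n : ℝ)) atTop (𝓝 (1 + 0)) :=
      tendsto_const_nhds.add tendsto_one_div_atTop_nhds_zero_nat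
    rw [add_zero] at h2
    have h3 := ((h2.pow M).sub_const 1).const_mul (16 * (Q : ℝ))
    rw [one_pow, sub_self, mul_zero] at h3
    exact h3
  have hratev := hrat.eventually_lt_const (show (1 : ℝ) < (1 - ε') / (1 - ε) by
    rw [lt_div_iff₀ (by linarith)]
    linarith)
  have hincev := hinc.eventually_lt_const hη0
  have hEbig : Tendsto (fun k : ℕ => ((k ^ M : ℕ) : ℝ) ^ (ε' / 4)) atTop atTop :=
    ((tendsto_rpow_atTop (by positivity)).comp tendsto_natCast_atTop_atTop).comp hgrid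
  have hstep := hgrid.eventually (EX_step (n₀ := n₀) hQ hf hmono hP)
  have hlen : ∀ᶠ k : ℕ in atTop, R (k ^ M) ≤ k := by
    have h1 : ∀ᶠ k : ℕ in atTop, (M : ℝ) * Real.log k ^ 1 ≤ (k : ℝ) ^ (1 : ℝ) := ev_power M 1 one_pos
    filter_upwards [h1, hgrid.eventually (hll.eventually_ge_atTop 1), hgrid.eventually (hl.eventually_ge_atTop 0)] with k h1 h2 h3
    rw [pow_one, Real.rpow_one] at h1
    rw [hR]
    show (1 - ε') * (Real.log ((k ^ M : ℕ) : ℝ) / Real.log (Real.log ((k ^ M : ℕ) : ℝ))) ≤ k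
    have h4 : Real.log ((k ^ M : ℕ) : ℝ) / Real.log (Real.log ((k ^ M : ℕ) : ℝ)) ≤ Real.log ((k ^ M : ℕ) : ℝ) :=
      div_le_self h3 h2
    have h5 : Real.log ((k ^ M : ℕ) : ℝ) = M * Real.log k := by
      push_cast
      rw [Real.log_pow]
    have h6 : 0 ≤ Real.log ((k ^ M : ℕ) : ℝ) / Real.log (Real.log ((k ^ M : ℕ) : ℝ)) := by positivity
    nlinarith
  obtain ⟨k₀, hk₀⟩ := eventually_atTop.1 ((hω.and (hbig.and (hstep.and (hlen.and (hratev.and (hincev.and
    ((hEbig.eventually_ge_atTop ((1 / η) ^ 4)).and ((hgrid.eventually (hll.eventually_ge_atTop 1)).and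
    ((hgrid.eventually (hl.eventually_ge_atTop 1)).and (eventually_ge_atTop 2)))))))))))
  filter_upwards [eventually_ge_atTop ((k₀ + 1) ^ M)] with x hx l hlx
  -- the root
  obtain ⟨k, hk1, hk2⟩ : ∃ k : ℕ, k ^ M ≤ x ∧ x < (k + 1) ^ M := by
    have h2 : ∃ k : ℕ, x < (k + 1) ^ M := ⟨x, lt_of_lt_of_le (Nat.lt_succ_self x) (Nat.le_self_pow hM0.ne' _)⟩
    refine ⟨Nat.find h2, ?_, Nat.find_spec h2⟩
    by_contra hcon
    rw [not_le] at hcon
    have h3 : Nat.find h2 ≠ 0 := by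
      intro h4
      rw [h4, zero_pow hM0.ne'] at hcon
      omega
    have h5 := Nat.find_min h2 (m := Nat.find h2 - 1) (by omega)
    rw [show Nat.find h2 - 1 + 1 = Nat.find h2 by omega] at h5
    exact h5 hcon
  have hkk : k₀ ≤ k := by
    by_contra hcon
    have : (k + 1) ^ M ≤ (k₀ + 1) ^ M := Nat.pow_le_pow_left (by omega) M
    omega
  obtain ⟨a1, a2, a3, a4, a5, a6, a7, a8, a9, a10⟩ := hk₀ k hkk
  obtain ⟨b1, b2, b3, b4, b5, b6, b7, b8, b9, b10⟩ := hk₀ (k + 1) (by omega)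
  have hk0 : (0 : ℝ) < k := by exact_mod_cast (show 0 < k by omega)
  have hx1 : ((k ^ M : ℕ) : ℝ) ≤ x := by exact_mod_cast hk1
  have hx2 : (x : ℝ) ≤ (((k + 1) ^ M : ℕ) : ℝ) := by exact_mod_cast hk2.le
  have hkM0 : (0 : ℝ) < ((k ^ M : ℕ) : ℝ) := by
    have : 0 < k ^ M := pow_pos (show 0 < k by omega) M
    exact_mod_cast this
  have hx0 : (0 : ℝ) < x := by linarith
  have hL1 : Real.log ((k ^ M : ℕ) : ℝ) ≤ Real.log x := Real.log_le_log hkM0 hx1
  have hL2 : Real.log (x : ℝ) ≤ Real.log (((k + 1) ^ M : ℕ) : ℝ) := Real.log_le_log hx0 hx2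
  have hε1' : 0 < 1 - ε := by linarith
  -- the ranges
  have hr1 : (l : ℝ) ≤ R (k ^ M) := by
    rw [hR]
    show (l : ℝ) ≤ (1 - ε') * (Real.log ((k ^ M : ℕ) : ℝ) / Real.log (Real.log ((k ^ M : ℕ) : ℝ)))
    refine hlx.trans ?_
    have h1 : Real.log (x : ℝ) / Real.log (Real.log x) ≤ Real.log (x : ℝ) / Real.log (Real.log ((k ^ M : ℕ) : ℝ)) := by
      apply div_le_div_of_nonneg_left (by linarith) (by linarith)
      exact Real.log_le_log (by linarith) hL1
    have h2 : (1 - ε) * Real.log (x : ℝ) ≤ (1 - ε') * Real.log ((k ^ M : ℕ) : ℝ) := by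
      have h3 : Real.log (x : ℝ) ≤ (1 - ε') / (1 - ε) * Real.log ((k ^ M : ℕ) : ℝ) := by
        refine hL2.trans ?_
        push_cast
        rw [Real.log_pow, Real.log_pow]
        have hlk : 0 < Real.log (k : ℝ) := Real.log_pos (by exact_mod_cast (show 1 < k by omega))
        rw [div_lt_iff₀ hlk] at a5
        have := mul_le_mul_of_nonneg_left a5.le hMr.le
        linarith
      have h4 := mul_le_mul_of_nonneg_left h3 hε1'.le
      have h5 : (1 - ε) * ((1 - ε') / (1 - ε) * Real.log ((k ^ M : ℕ) : ℝ)) = (1 - ε') * Real.log ((k ^ M : ℕ) : ℝ) := by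
        field_simp
      linarith
    calc (1 - ε) * (Real.log (x : ℝ) / Real.log (Real.log x)) ≤
        (1 - ε) * (Real.log (x : ℝ) / Real.log (Real.log ((k ^ M : ℕ) : ℝ))) := mul_le_mul_of_nonneg_left h1 hε1'.le
      _ = (1 - ε) * Real.log (x : ℝ) / Real.log (Real.log ((k ^ M : ℕ) : ℝ)) := by ring
      _ ≤ (1 - ε') * Real.log ((k ^ M : ℕ) : ℝ) / Real.log (Real.log ((k ^ M : ℕ) : ℝ)) :=
        div_le_div_of_nonneg_right h2 (by linarith)
      _ = _ := by ring
  have hr2 : (l : ℝ) ≤ R ((k + 1) ^ M) := by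
    rw [hR]
    show (l : ℝ) ≤ (1 - ε') * (Real.log (((k + 1) ^ M : ℕ) : ℝ) / Real.log (Real.log (((k + 1) ^ M : ℕ) : ℝ)))
    refine hlx.trans ?_
    have h1 := GG_mono (c := 0) (L := Real.log (x : ℝ)) (M := Real.log (((k + 1) ^ M : ℕ) : ℝ)) (by linarith)
      (by
        rw [add_zero]
        exact a8.trans (Real.log_le_log (by linarith) hL1)) hL2
    unfold Pool.Agent.Q120.GM.GG at h1
    rw [add_zero, add_zero] at h1
    have h0 : 0 ≤ Real.log (x : ℝ) / Real.log (Real.log x) := by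
      apply div_nonneg (by linarith)
      have := a8.trans (Real.log_le_log (by linarith) hL1)
      linarith
    have h2 : (1 - ε) * (Real.log (x : ℝ) / Real.log (Real.log x)) ≤ (1 - ε') * (Real.log (x : ℝ) / Real.log (Real.log x)) :=
      mul_le_mul_of_nonneg_right (by linarith) h0
    exact h2.trans (mul_le_mul_of_nonneg_left h1 (by linarith))
  -- concentration on the grid
  have hconc : ∀ j : ℕ, ω ∉ B j → (∀ l : ℕ, (l : ℝ) ≤ (1 - ε') * (Real.log ((j ^ M : ℕ) : ℝ) / Real.log (Real.log ((j ^ M : ℕ) : ℝ))) →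
      ((j ^ M : ℕ) : ℝ) ^ (ε' / 4) ≤ EX Q f n₀ l (j ^ M)) → R (j ^ M) ≤ j → (1 / η) ^ 4 ≤ ((j ^ M : ℕ) : ℝ) ^ (ε' / 4) →
      (l : ℝ) ≤ R (j ^ M) → |TE (A ω) f n₀ l (j ^ M) - EX Q f n₀ l (j ^ M)| ≤ η * EX Q f n₀ l (j ^ M) := by
    intro j c1 c2 c3 c4 c5
    have h1 : |TE (A ω) f n₀ l (j ^ M) - EX Q f n₀ l (j ^ M)| < EX Q f n₀ l (j ^ M) ^ (3 / 4 : ℝ) := by
      by_contra hcon
      rw [not_lt] at hcon
      apply c1
      rw [hB]
      show ω ∈ ⋃ l ∈ (range (j + 1)).filter (fun l : ℕ => (l : ℝ) ≤ R (j ^ M)), _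
      rw [Set.mem_iUnion₂]
      refine ⟨l, ?_, hcon⟩
      rw [mem_filter, mem_range]
      refine ⟨?_, c5⟩
      have : (l : ℝ) ≤ j := c5.trans c3
      have : l ≤ j := by exact_mod_cast this
      omega
    refine h1.le.trans ?_
    obtain ⟨E, hE⟩ : ∃ E, E = EX Q f n₀ l (j ^ M) := ⟨_, rfl⟩
    have h2 : (1 / η) ^ 4 ≤ E := by
      rw [hE]
      refine c4.trans (c2 l ?_)
      rw [hR] at c5
      exact c5
    rw [← hE]
    have hE0 : 0 < E := lt_of_lt_of_le (by positivity) h2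
    have h3 : E = E ^ (3 / 4 : ℝ) * E ^ (1 / 4 : ℝ) := by
      rw [← Real.rpow_add hE0]
      norm_num
    have h4 : 1 / η ≤ E ^ (1 / 4 : ℝ) := by
      have h5 := Real.rpow_le_rpow (by positivity) h2 (show (0 : ℝ) ≤ 1 / 4 by norm_num)
      rw [← Real.rpow_natCast, ← Real.rpow_mul (by positivity)] at h5
      norm_num at h5 ⊢
      exact h5
    have h5 : 0 < E ^ (3 / 4 : ℝ) := Real.rpow_pos_of_pos hE0 _
    rw [div_le_iff₀ hη0] at h4
    nth_rewrite 2 [h3]
    nlinarith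
  have k1 := hconc k a1 a2 a4 a7 hr1
  have k2 := hconc (k + 1) b1 b2 b4 b7 hr2
  have k3 := a3 ((k + 1) ^ M) l (hk1.trans hk2.le)
  have k4 : 16 * (Q : ℝ) * (((((k + 1) ^ M : ℕ) : ℝ) - ((k ^ M : ℕ) : ℝ)) / ((k ^ M : ℕ) : ℝ)) < η := by
    refine lt_of_le_of_lt (le_of_eq ?_) a6
    congr 1
    push_cast
    rw [sub_div, div_self (by positivity), ← div_pow]
    congr 2
    field_simp
  have k5 := EX_mono Q f n₀ l hk1
  have k6 := EX_mono Q f n₀ l hk2.le
  have k7 := TE_mono (A ω) f n₀ l hk1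
  have k8 := TE_mono (A ω) f n₀ l hk2.le
  have hE10 : 0 ≤ EX Q f n₀ l (k ^ M) := sum_nonneg (fun n _ => gE_nonneg Q f l n)
  obtain ⟨E1, hE1⟩ : ∃ E1, E1 = EX Q f n₀ l (k ^ M) := ⟨_, rfl⟩
  obtain ⟨E2, hE2⟩ : ∃ E2, E2 = EX Q f n₀ l ((k + 1) ^ M) := ⟨_, rfl⟩
  obtain ⟨E, hE⟩ : ∃ E, E = EX Q f n₀ l x := ⟨_, rfl⟩
  have k9 : E2 ≤ (1 + η) * E1 := by
    rw [hE1, hE2]
    refine k3.trans ?_
    exact mul_le_mul_of_nonneg_right (by linarith) hE10
  rw [← hE] at k5 k6 ⊢
  rw [← hE1] at k1 k5 hE10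
  rw [← hE2] at k2 k6
  rw [abs_le] at k1 k2 ⊢
  have hη1 : η < 1 / 4 := by linarith
  have hEE : 0 ≤ E := hE10.trans k5
  have u1 : TE (A ω) f n₀ l x ≤ (1 + η) * E2 := by linarith [k2.2]
  have u2 : (1 - η) * E1 ≤ TE (A ω) f n₀ l x := by linarith [k1.1]
  have u3 : (1 + η) * E2 ≤ (1 + η) * ((1 + η) * E) :=
    mul_le_mul_of_nonneg_left (k9.trans (mul_le_mul_of_nonneg_left k5 (by linarith))) (by linarith)
  have u4 : (1 - 2 * η) * E ≤ (1 - η) * E1 := by
    have h1 : (1 - 2 * η) * E ≤ (1 - 2 * η) * ((1 + η) * E1) :=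
      mul_le_mul_of_nonneg_left (k6.trans k9) (by linarith)
    nlinarith
  constructor
  · nlinarith
  · nlinarith


end

end Pool.Agent.Q106.GMM
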