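import Pool.Agent.Q106.GMM.Det

/-!
# Power sums of the differences of powers
-/

set_option autoImplicit false

namespace Pool.Agent.Q106.GMM

open Finset Filter Pool.Agent.Q120.GM MeasureTheory
open Pool.Agent.Q120.AD (hl)
open scoped Topology

section

variable {Q : ℕ} {S : Set ℕ}

/-- `log (n + 2) / log n → 1`. -/
theorem log_shift : Tendsto (fun n : ℕ => Real.log ((n : ℝ) + 2) / Real.log n) atTop (𝓝 1) := by
  have h1 : Tendsto (fun n : ℕ => 1 + Real.log (1 + 2 / (n : ℝ)) / Real.log n) atTop (𝓝 (1 + 0)) := by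
    refine tendsto_const_nhds.add ?_
    have h2 : Tendsto (fun n : ℕ => 1 + 2 / (n : ℝ)) atTop (𝓝 (1 + 0)) :=
      tendsto_const_nhds.add (tendsto_const_nhds.div_atTop tendsto_natCast_atTop_atTop)
    rw [add_zero] at h2
    have h3 : Tendsto (fun n : ℕ => Real.log (1 + 2 / (n : ℝ))) atTop (𝓝 (Real.log 1)) :=
      (Real.continuousAt_log one_ne_zero).tendsto.comp h2
    exact h3.div_atTop hl
  rw [add_zero] at h1
  refine h1.congr' ?_
  filter_upwards [hl.eventually_gt_atTop 0, eventually_ge_atTop 1] with n hn hn1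
  have hn0 : (0 : ℝ) < n := by exact_mod_cast hn1
  have h2 : Real.log ((n : ℝ) + 2) = Real.log n + Real.log (1 + 2 / (n : ℝ)) := by
    rw [← Real.log_mul hn0.ne' (by positivity)]
    congr 1
    field_simp
  rw [h2]
  field_simp

/-- The reference weights. -/
noncomputable def ff (s : ℝ) (n : ℕ) : ℝ := Real.log ((n : ℝ) + 2) ^ s

theorem ff_pos (s : ℝ) (n : ℕ) : 0 < Pool.Agent.Q106.GMM.ff s n := by
  unfold Pool.Agent.Q106.GMM.ff
  have : (0 : ℝ) ≤ n := Nat.cast_nonneg n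
  exact Real.rpow_pos_of_pos (Real.log_pos (by linarith)) s

theorem ff_ratio (s : ℝ) : Tendsto (fun n : ℕ => Pool.Agent.Q106.GMM.ff s n / Real.log n ^ s) atTop (𝓝 1) := by
  have h1 := log_shift.rpow_const (p := s) (Or.inl one_ne_zero)
  rw [Real.one_rpow] at h1
  refine h1.congr' ?_
  filter_upwards [hl.eventually_gt_atTop 0] with n hn
  have : (0 : ℝ) ≤ n := Nat.cast_nonneg n
  rw [Real.div_rpow (Real.log_pos (by linarith)).le hn.le]
  rfl

theorem inc_ev {r q : ℝ} (h : 0 < r ∨ (r = 0 ∧ 0 < q)) : ∀ᶠ n : ℕ in atTop, 0 < UU r q ((n + 1 : ℕ) : ℝ) - UU r q n := by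
  rcases h with h | ⟨h, h'⟩
  · have h1 := (inc_pos h q).eventually_const_lt h
    filter_upwards [h1, hl.eventually_gt_atTop 0, eventually_ge_atTop 1] with n hn hn1 hn2
    have hn0 : (0 : ℝ) < n := by exact_mod_cast hn2
    by_contra hcon
    rw [not_lt] at hcon
    have := div_nonpos_of_nonpos_of_nonneg hcon (show 0 ≤ (n : ℝ) ^ (r - 1) * Real.log n ^ q by positivity)
    linarith
  · subst h
    have h1 := (inc_zero q).eventually_const_lt h'
    filter_upwards [h1, hl.eventually_gt_atTop 0, eventually_ge_atTop 1] with n hn hn1 hn2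
    have hn0 : (0 : ℝ) < n := by exact_mod_cast hn2
    by_contra hcon
    rw [not_lt] at hcon
    have := div_nonpos_of_nonpos_of_nonneg hcon (show 0 ≤ (n : ℝ) ^ (-1 : ℝ) * Real.log n ^ (q - 1) by positivity)
    linarith

/-- The partial sums of the reference weights. -/
theorem ff_sum (s : ℝ) : Tendsto (fun N : ℕ => (∑ n ∈ range N, Pool.Agent.Q106.GMM.ff s n) / (N * Real.log N ^ s)) atTop (𝓝 1) := by
  have h1 := inc_pos one_pos s
  have h2 := (ff_ratio s).mul (h1.inv₀ one_ne_zero)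
  rw [inv_one, mul_one] at h2
  have h3 : Tendsto (fun n : ℕ => Pool.Agent.Q106.GMM.ff s n / (UU 1 s ((n + 1 : ℕ) : ℝ) - UU 1 s n)) atTop (𝓝 1) := by
    refine h2.congr' ?_
    filter_upwards [hl.eventually_gt_atTop 0, inc_ev (r := 1) (q := s) (Or.inl one_pos)] with n hn hn2
    have := Real.rpow_pos_of_pos hn s
    rw [show (1 : ℝ) - 1 = 0 by norm_num, Real.rpow_zero, one_mul]
    field_simp
  have h4 := stolz_UU (Or.inl one_pos) (inc_ev (r := 1) (q := s) (Or.inl one_pos)) h3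
  refine h4.congr (fun N => ?_)
  unfold UU
  rw [Real.rpow_one]

theorem Typ.mom_ff (h : Typ Q S) (hQ : 1 ≤ Q) {s : ℝ} (hs : 0 < s) :
    Tendsto (fun N : ℕ => (∑ n ∈ range N, ((el S (n + 1) : ℝ) - el S n) ^ s) / ∑ n ∈ range N, Pool.Agent.Q106.GMM.ff s n) atTop
      (𝓝 (Real.Gamma (s + 1))) := by
  have h1 := (h.mom hQ hs).mul ((ff_sum s).inv₀ one_ne_zero)
  rw [inv_one, mul_one] at h1
  refine h1.congr' ?_
  filter_upwards [hl.eventually_gt_atTop 0, eventually_ge_atTop 1] with N hN hN1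
  have hN0 : (0 : ℝ) < N := by exact_mod_cast hN1
  have := Real.rpow_pos_of_pos hN s
  have h2 : 0 < ∑ n ∈ range N, Pool.Agent.Q106.GMM.ff s n :=
    sum_pos (fun n _ => ff_pos s n) ⟨0, mem_range.2 (by omega)⟩
  unfold Mom
  field_simp

/-- The weights. -/
noncomputable def ww (S : Set ℕ) (θ : ℝ) (n : ℕ) : ℝ := ((el S n : ℝ) + 1) ^ (-θ)

theorem ww_pos (θ : ℝ) (n : ℕ) : 0 < ww S θ n := by
  unfold ww
  have : (0 : ℝ) ≤ el S n := Nat.cast_nonneg _
  positivity

theorem ww_anti (hS : S.Infinite) {θ : ℝ} (hθ : 0 ≤ θ) : Antitone (ww S θ) := by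
  intro m n hmn
  unfold ww
  have h1 : (el S m : ℝ) ≤ el S n := by exact_mod_cast (el_mono hS).monotone hmn
  have h2 : (0 : ℝ) ≤ el S m := Nat.cast_nonneg _
  exact Real.rpow_le_rpow_of_nonpos (by linarith) (by linarith) (by linarith)

theorem Typ.ww_ratio (h : Typ Q S) (hQ : 1 ≤ Q) (θ : ℝ) :
    Tendsto (fun n : ℕ => ww S θ n / (n * Real.log n) ^ (-θ)) atTop (𝓝 1) := by
  have hS := h.inf
  have h1 : Tendsto (fun n : ℕ => ((el S n : ℝ) + 1) / (n * Real.log n)) atTop (𝓝 (1 + 0)) := by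
    have h2 : Tendsto (fun n : ℕ => (1 : ℝ) / (n * Real.log n)) atTop (𝓝 0) :=
      tendsto_const_nhds.div_atTop (tendsto_natCast_atTop_atTop.atTop_mul_atTop₀ hl)
    refine ((h.el_asymp hQ).add h2).congr (fun n => ?_)
    rw [← add_div]
  rw [add_zero] at h1
  have h2 := h1.rpow_const (p := -θ) (Or.inl one_ne_zero)
  rw [Real.one_rpow] at h2
  refine h2.congr' ?_
  filter_upwards [hl.eventually_gt_atTop 0] with n hn
  rw [Real.div_rpow (by positivity) (by positivity)]
  rfl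

/-- The general term of the comparison sum. -/
theorem Typ.term (h : Typ Q S) (hQ : 1 ≤ Q) (s θ : ℝ) :
    Tendsto (fun n : ℕ => (Pool.Agent.Q106.GMM.ff s n * ww S θ n) / ((n : ℝ) ^ (-θ) * Real.log n ^ (s - θ))) atTop (𝓝 1) := by
  have h1 := (ff_ratio s).mul (h.ww_ratio hQ θ)
  rw [one_mul] at h1
  refine h1.congr' ?_
  filter_upwards [hl.eventually_gt_atTop 0, eventually_ge_atTop 1] with n hn hn1
  have hn0 : (0 : ℝ) < n := by exact_mod_cast hn1
  have h2 := Real.rpow_pos_of_pos hn0 (-θ)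
  have h3 := Real.rpow_pos_of_pos hn (-θ)
  have h4 := Real.rpow_pos_of_pos hn s
  rw [Real.mul_rpow hn0.le hn.le, show s - θ = s + -θ by ring, Real.rpow_add hn]
  field_simp

theorem Typ.V_lt (h : Typ Q S) (hQ : 1 ≤ Q) {s θ : ℝ} (hθ : θ < 1) :
    Tendsto (fun N : ℕ => (∑ n ∈ range N, Pool.Agent.Q106.GMM.ff s n * ww S θ n) / UU (1 - θ) (s - θ) N) atTop (𝓝 (1 / (1 - θ))) := by
  have hr : 0 < 1 - θ := by linarith
  have h1 := inc_pos hr (s - θ)
  have h2 := (h.term hQ s θ).mul (h1.inv₀ hr.ne')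
  rw [one_mul, ← one_div] at h2
  refine stolz_UU (Or.inl hr) (inc_ev (Or.inl hr)) (h2.congr' ?_)
  filter_upwards [hl.eventually_gt_atTop 0, eventually_ge_atTop 1, inc_ev (r := 1 - θ) (q := s - θ) (Or.inl hr)] with n hn hn1 hn2
  have hn0 : (0 : ℝ) < n := by exact_mod_cast hn1
  have h3 := Real.rpow_pos_of_pos hn0 (-θ)
  have h4 := Real.rpow_pos_of_pos hn (s - θ)
  rw [show 1 - θ - 1 = -θ by ring]
  field_simp

theorem Typ.V_eq (h : Typ Q S) (hQ : 1 ≤ Q) {s : ℝ} (hs : 0 < s) :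
    Tendsto (fun N : ℕ => (∑ n ∈ range N, Pool.Agent.Q106.GMM.ff s n * ww S 1 n) / UU 0 s N) atTop (𝓝 (1 / s)) := by
  have h1 := inc_zero s
  have h2 := (h.term hQ s 1).mul (h1.inv₀ hs.ne')
  rw [one_mul, ← one_div] at h2
  refine stolz_UU (Or.inr ⟨rfl, hs⟩) (inc_ev (Or.inr ⟨rfl, hs⟩)) (h2.congr' ?_)
  filter_upwards [hl.eventually_gt_atTop 0, eventually_ge_atTop 1, inc_ev (r := 0) (q := s) (Or.inr ⟨rfl, hs⟩)] with n hn hn1 hn2
  have hn0 : (0 : ℝ) < n := by exact_mod_cast hn1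
  have h3 := Real.rpow_pos_of_pos hn0 (-1)
  have h4 := Real.rpow_pos_of_pos hn (s - 1)
  field_simp

theorem Typ.V_gt (h : Typ Q S) (hQ : 1 ≤ Q) {s θ : ℝ} (hθ : 1 < θ) :
    Summable (fun n : ℕ => Pool.Agent.Q106.GMM.ff s n * ww S θ n) := by
  have h1 := (h.term hQ s θ).eventually_le_const (show (1 : ℝ) < 2 by norm_num)
  have h2 := (isLittleO_log_rpow_rpow_atTop (s := (θ - 1) / 2) (s - θ) (by linarith)).bound (show (0 : ℝ) < 1 by norm_num)
  have h3 := tendsto_natCast_atTop_atTop (R := ℝ).eventually h2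
  have h4 : Summable (fun n : ℕ => 2 * (n : ℝ) ^ (-((θ + 1) / 2))) :=
    (Real.summable_nat_rpow.2 (by linarith)).mul_left 2
  refine Summable.of_norm_bounded_eventually_nat h4 ?_
  filter_upwards [h1, h3, hl.eventually_gt_atTop 0, eventually_ge_atTop 1] with n e1 e2 hn hn1
  have hn0 : (0 : ℝ) < n := by exact_mod_cast hn1
  have h5 := Real.rpow_pos_of_pos hn0 (-θ)
  have h6 := Real.rpow_pos_of_pos hn (s - θ)
  rw [Real.norm_of_nonneg (mul_nonneg (ff_pos s n).le (ww_pos θ n).le)]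
  rw [div_le_iff₀ (by positivity)] at e1
  rw [one_mul, Real.norm_of_nonneg h6.le, Real.norm_of_nonneg (by positivity)] at e2
  refine e1.trans ?_
  apply mul_le_mul_of_nonneg_left _ (by norm_num)
  calc (n : ℝ) ^ (-θ) * Real.log n ^ (s - θ) ≤ (n : ℝ) ^ (-θ) * (n : ℝ) ^ ((θ - 1) / 2) := mul_le_mul_of_nonneg_left e2 h5.le
    _ = _ := by
      rw [← Real.rpow_add hn0]
      congr 1
      ring

/-- The differences of the powers. -/
noncomputable def dif (S : Set ℕ) (α : ℝ) (n : ℕ) : ℝ := (el S (n + 1) : ℝ) ^ α - (el S n : ℝ) ^ α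

theorem dif_bounds {α x y : ℝ} (hα : 0 < α) (hα1 : α < 1) (hx : 0 < x) (hxy : x < y) :
    α * y ^ (α - 1) * (y - x) ≤ y ^ α - x ^ α ∧ y ^ α - x ^ α ≤ α * x ^ (α - 1) * (y - x) := by
  obtain ⟨c, hc, hc2⟩ := exists_hasDerivAt_eq_slope (fun t : ℝ => t ^ α) (fun t => α * t ^ (α - 1)) hxy
    (fun t ht => (Real.hasDerivAt_rpow_const (Or.inl (by linarith [ht.1] : t ≠ 0))).continuousAt.continuousWithinAt)
    (fun t ht => Real.hasDerivAt_rpow_const (Or.inl (by linarith [ht.1] : t ≠ 0)))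
  have h1 : y ^ α - x ^ α = α * c ^ (α - 1) * (y - x) := by
    rw [hc2, div_mul_cancel₀ _ (sub_pos.2 hxy).ne']
  have hc0 : 0 < c := by linarith [hc.1]
  rw [h1]
  constructor
  · apply mul_le_mul_of_nonneg_right _ (by linarith)
    apply mul_le_mul_of_nonneg_left _ hα.le
    exact Real.rpow_le_rpow_of_nonpos hc0 hc.2.le (by linarith)
  · apply mul_le_mul_of_nonneg_right _ (by linarith)
    apply mul_le_mul_of_nonneg_left _ hα.le
    exact Real.rpow_le_rpow_of_nonpos hx hc.1.le (by linarith)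

theorem Typ.next_ratio (h : Typ Q S) (hQ : 1 ≤ Q) : Tendsto (fun n : ℕ => (el S (n + 1) : ℝ) / el S n) atTop (𝓝 1) := by
  have hS := h.inf
  have h1 : Tendsto (fun n : ℕ => ((n + 1 : ℕ) : ℝ) / n) atTop (𝓝 1) := by
    have h2 : Tendsto (fun n : ℕ => 1 + 1 / (n : ℝ)) atTop (𝓝 (1 + 0)) :=
      tendsto_const_nhds.add tendsto_one_div_atTop_nhds_zero_nat
    rw [add_zero] at h2
    refine h2.congr' ?_
    filter_upwards [eventually_ge_atTop 1] with n hn
    have hn0 : (0 : ℝ) < n := by exact_mod_cast hn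
    push_cast
    field_simp
  have h2 : Tendsto (fun n : ℕ => Real.log ((n + 1 : ℕ) : ℝ) / Real.log n) atTop (𝓝 1) := by
    have h3 : Tendsto (fun n : ℕ => 1 + Real.log (((n + 1 : ℕ) : ℝ) / n) / Real.log n) atTop (𝓝 (1 + 0)) := by
      refine tendsto_const_nhds.add ?_
      have h4 : Tendsto (fun n : ℕ => Real.log (((n + 1 : ℕ) : ℝ) / n)) atTop (𝓝 (Real.log 1)) :=
        (Real.continuousAt_log one_ne_zero).tendsto.comp h1
      exact h4.div_atTop hl
    rw [add_zero] at h3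
    refine h3.congr' ?_
    filter_upwards [eventually_ge_atTop 1, hl.eventually_gt_atTop 0] with n hn hn2
    have hn0 : (0 : ℝ) < n := by exact_mod_cast hn
    rw [Real.log_div (by positivity) hn0.ne']
    field_simp
    ring
  have h3 := ((h.el_asymp hQ).comp (tendsto_add_atTop_nat 1)).mul (((h.el_asymp hQ).inv₀ one_ne_zero).mul (h1.mul h2))
  rw [inv_one, one_mul, one_mul, one_mul] at h3
  refine h3.congr' ?_
  filter_upwards [eventually_ge_atTop 1, hl.eventually_gt_atTop 0, (el_top hS).eventually (eventually_ge_atTop 1)] with n hn hn2 hn3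
  have hn0 : (0 : ℝ) < n := by exact_mod_cast hn
  have hx0 : (0 : ℝ) < el S n := by exact_mod_cast hn3
  have hl1 : 0 < Real.log ((n + 1 : ℕ) : ℝ) := by
    refine lt_of_lt_of_le hn2 (Real.log_le_log hn0 ?_)
    push_cast
    linarith
  simp only [Function.comp_apply]
  field_simp

theorem Typ.dif_ratio (h : Typ Q S) (hQ : 1 ≤ Q) {α s : ℝ} (hα : 0 < α) (hα1 : α < 1) :
    Tendsto (fun n : ℕ => dif S α n ^ s / (((el S (n + 1) : ℝ) - el S n) ^ s * ww S ((1 - α) * s) n)) atTop (𝓝 (α ^ s)) := by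
  have hS := h.inf
  -- the ratio before taking powers
  have h1 : Tendsto (fun n : ℕ => ((el S n : ℝ) + 1) / el S n) atTop (𝓝 1) := by
    have h2 : Tendsto (fun n : ℕ => 1 + 1 / (el S n : ℝ)) atTop (𝓝 (1 + 0)) :=
      tendsto_const_nhds.add (tendsto_one_div_atTop_nhds_zero_nat.comp (el_top hS))
    rw [add_zero] at h2
    refine h2.congr' ?_
    filter_upwards [(el_top hS).eventually (eventually_ge_atTop 1)] with n hn3
    have hx0 : (0 : ℝ) < el S n := by exact_mod_cast hn3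
    field_simp
  have h2 : Tendsto (fun n : ℕ => dif S α n / (((el S (n + 1) : ℝ) - el S n) * ((el S n : ℝ) + 1) ^ (α - 1))) atTop (𝓝 α) := by
    have u1 : Tendsto (fun n : ℕ => α * (((el S (n + 1) : ℝ) / el S n) * (((el S n : ℝ) + 1) / el S n)⁻¹) ^ (α - 1)) atTop
        (𝓝 (α * (1 * 1⁻¹) ^ (α - 1))) := by
      refine Tendsto.const_mul α (Tendsto.rpow_const ?_ (Or.inl (by norm_num)))
      exact (h.next_ratio hQ).mul (h1.inv₀ one_ne_zero)
    have u2 : Tendsto (fun n : ℕ => α * ((((el S n : ℝ) + 1) / el S n)⁻¹) ^ (α - 1)) atTop (𝓝 (α * (1⁻¹) ^ (α - 1))) :=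
      Tendsto.const_mul α (Tendsto.rpow_const (h1.inv₀ one_ne_zero) (Or.inl (by norm_num)))
    rw [inv_one, mul_one, Real.one_rpow, mul_one] at u1
    rw [inv_one, Real.one_rpow, mul_one] at u2
    refine tendsto_of_tendsto_of_tendsto_of_le_of_le' u1 u2 ?_ ?_
    · filter_upwards [(el_top hS).eventually (eventually_ge_atTop 1)] with n hn3
      have hx0 : (0 : ℝ) < el S n := by exact_mod_cast hn3
      have hlt : (el S n : ℝ) < el S (n + 1) := by exact_mod_cast el_mono hS (Nat.lt_succ_self n)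
      have hd := (dif_bounds hα hα1 hx0 hlt).1
      have h3 : (((el S (n + 1) : ℝ) / el S n) * (((el S n : ℝ) + 1) / el S n)⁻¹) = (el S (n + 1) : ℝ) / ((el S n : ℝ) + 1) := by
        field_simp
      have hp := Real.rpow_pos_of_pos (show (0 : ℝ) < (el S n : ℝ) + 1 by linarith) (α - 1)
      have hg : (0 : ℝ) < (el S (n + 1) : ℝ) - el S n := by linarith
      rw [h3, Real.div_rpow (by linarith) (by linarith), le_div_iff₀ (by positivity)]
      refine le_trans (le_of_eq ?_) hd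
      field_simp
    · filter_upwards [(el_top hS).eventually (eventually_ge_atTop 1)] with n hn3
      have hx0 : (0 : ℝ) < el S n := by exact_mod_cast hn3
      have hlt : (el S n : ℝ) < el S (n + 1) := by exact_mod_cast el_mono hS (Nat.lt_succ_self n)
      have hd := (dif_bounds hα hα1 hx0 hlt).2
      have hp := Real.rpow_pos_of_pos (show (0 : ℝ) < (el S n : ℝ) + 1 by linarith) (α - 1)
      have hg : (0 : ℝ) < (el S (n + 1) : ℝ) - el S n := by linarith
      rw [inv_div, Real.div_rpow (by linarith) (by linarith), div_le_iff₀ (by positivity)]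
      refine hd.trans (le_of_eq ?_)
      field_simp
  have h3 := h2.rpow_const (p := s) (Or.inl hα.ne')
  refine h3.congr' ?_
  filter_upwards [(el_top hS).eventually (eventually_ge_atTop 1)] with n hn3
  have hx0 : (0 : ℝ) < el S n := by exact_mod_cast hn3
  have hlt : (el S n : ℝ) < el S (n + 1) := by exact_mod_cast el_mono hS (Nat.lt_succ_self n)
  have hg : (0 : ℝ) < (el S (n + 1) : ℝ) - el S n := by linarith
  have hd0 : 0 ≤ dif S α n := by
    unfold dif
    have := Real.rpow_le_rpow hx0.le hlt.le hα.le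
    linarith
  rw [Real.div_rpow hd0 (by positivity), Real.mul_rpow hg.le (by positivity)]
  unfold ww
  rw [← Real.rpow_mul (by positivity)]
  congr 3
  ring

theorem Typ.terms_pos (h : Typ Q S) (s θ : ℝ) (n : ℕ) :
    0 < ((el S (n + 1) : ℝ) - el S n) ^ s * ww S θ n := by
  have hlt : (el S n : ℝ) < el S (n + 1) := by exact_mod_cast el_mono h.inf (Nat.lt_succ_self n)
  exact mul_pos (Real.rpow_pos_of_pos (by linarith) s) (ww_pos θ n)

theorem Typ.sum_div (h : Typ Q S) (hQ : 1 ≤ Q) {α s : ℝ} (hα : 0 < α) (hα1 : α < 1) (hs : 0 < s) {r q c : ℝ}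
    (hr : 0 < r ∨ (r = 0 ∧ 0 < q)) (hc : 0 < c)
    (hV : Tendsto (fun N : ℕ => (∑ n ∈ range N, Pool.Agent.Q106.GMM.ff s n * ww S ((1 - α) * s) n) / UU r q N) atTop (𝓝 c)) :
    Tendsto (fun N : ℕ => (∑ n ∈ range N, dif S α n ^ s) / UU r q N) atTop (𝓝 (α ^ s * Real.Gamma (s + 1) * c)) := by
  have hS := h.inf
  have hθ : 0 ≤ (1 - α) * s := mul_nonneg (by linarith) hs.le
  have hU := UU_top hr
  have hVtop : Tendsto (fun N : ℕ => ∑ n ∈ range N, Pool.Agent.Q106.GMM.ff s n * ww S ((1 - α) * s) n) atTop atTop := by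
    have h1 := hV.pos_mul_atTop hc hU
    refine h1.congr' ?_
    filter_upwards [hU.eventually_gt_atTop 0] with N hN
    field_simp
  have h1 := abel_div (b := fun n => ((el S (n + 1) : ℝ) - el S n) ^ s) (fun n => (ff_pos s n).le) (ww_anti hS hθ)
    (fun n => (ww_pos _ n).le) (h.mom_ff hQ hs)
    (by
      filter_upwards [eventually_ge_atTop 1] with N hN
      exact sum_pos (fun n _ => ff_pos s n) ⟨0, mem_range.2 (by omega)⟩) hVtop
  have hG : 0 < Real.Gamma (s + 1) := Real.Gamma_pos_of_pos (by linarith)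
  have h2 := h1.mul hV
  have h3 : Tendsto (fun N : ℕ => (∑ n ∈ range N, ((el S (n + 1) : ℝ) - el S n) ^ s * ww S ((1 - α) * s) n) / UU r q N) atTop
      (𝓝 (Real.Gamma (s + 1) * c)) := by
    refine h2.congr' ?_
    filter_upwards [hVtop.eventually_gt_atTop 0] with N hN
    field_simp
  have h4 : Tendsto (fun N : ℕ => ∑ n ∈ range N, ((el S (n + 1) : ℝ) - el S n) ^ s * ww S ((1 - α) * s) n) atTop atTop := by
    have h5 := h3.pos_mul_atTop (mul_pos hG hc) hU
    refine h5.congr' ?_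
    filter_upwards [hU.eventually_gt_atTop 0] with N hN
    field_simp
  have h5 := stolz (Eventually.of_forall (fun n => h.terms_pos s ((1 - α) * s) n)) h4 (h.dif_ratio hQ hα hα1)
  have h6 := h5.mul h3
  rw [← mul_assoc] at h6
  refine h6.congr' ?_
  filter_upwards [h4.eventually_gt_atTop 0] with N hN
  field_simp

theorem Typ.sum_conv (h : Typ Q S) (hQ : 1 ≤ Q) {α s : ℝ} (hα : 0 < α) (hα1 : α < 1) (hs : 0 < s) (hθ : 1 < (1 - α) * s) :
    Summable (fun n : ℕ => dif S α n ^ s) := by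
  have hS := h.inf
  have h1 := abel_conv (b := fun n => ((el S (n + 1) : ℝ) - el S n) ^ s)
    (fun n => (Real.rpow_nonneg (by
      have : (el S n : ℝ) < el S (n + 1) := by exact_mod_cast el_mono h.inf (Nat.lt_succ_self n)
      linarith) s)) (fun n => (ff_pos s n).le) (ww_anti hS (by linarith : 0 ≤ (1 - α) * s))
    (fun n => (ww_pos _ n).le) (h.mom_ff hQ hs)
    (by
      filter_upwards [eventually_ge_atTop 1] with N hN
      exact sum_pos (fun n _ => ff_pos s n) ⟨0, mem_range.2 (by omega)⟩) (h.V_gt hQ hθ)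
  have h2 := (h.dif_ratio hQ hα hα1).eventually_le_const (show α ^ s < α ^ s + 1 by linarith)
  refine Summable.of_norm_bounded_eventually_nat (h1.mul_left (α ^ s + 1)) ?_
  filter_upwards [h2, (el_top hS).eventually (eventually_ge_atTop 1)] with n e1 hn3
  have hx0 : (0 : ℝ) < el S n := by exact_mod_cast hn3
  have hlt : (el S n : ℝ) < el S (n + 1) := by exact_mod_cast el_mono hS (Nat.lt_succ_self n)
  have hd0 : 0 ≤ dif S α n := by
    unfold dif
    have := Real.rpow_le_rpow hx0.le hlt.le hα.le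
    linarith
  rw [Real.norm_of_nonneg (Real.rpow_nonneg hd0 s)]
  rwa [div_le_iff₀ (h.terms_pos s ((1 - α) * s) n)] at e1

end

section

variable {Ω : Type*} [MeasurableSpace Ω] {μ : Measure Ω} [IsProbabilityMeasure μ] {A : Ω → Set ℕ} {Q : ℕ}

/-- Almost every set is typical. -/
theorem ae_typ (hA : IsModel μ (level Q) A) (hQ : 1 ≤ Q) : ∀ᵐ ω ∂μ, Typ Q (A ω) := by
  have hsing : sing Q {0} = 1 := sing_zero hQ
  have h1 := gap_upper hA hQ (H := {0}) (by rw [hsing]; norm_num) (ε := 1) one_pos le_rfl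
  rw [hsing] at h1
  filter_upwards [h1, conc hA (level_nonneg Q) (level_le_one Q)] with ω h2 h3
  refine ⟨?_, h3⟩
  filter_upwards [h2] with x hx
  obtain ⟨n, n1, n2, n3⟩ := hx
  have h4 := n3 0 (mem_singleton_self 0)
  rw [add_zero] at h4
  refine ⟨n, h4, n1, ?_⟩
  simp only [card_singleton, div_one] at n2
  norm_num at n2
  exact n2

end

end Pool.Agent.Q106.GMM
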