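import Pool.Agent.Q106.GMM.Ren

/-!
# Polynomial values in the sieved models of the primes

`P = {m : f(m) + h ∈ A for all h in H}` for a polynomial `f` of degree at least two.
-/

set_option autoImplicit false

namespace Pool.Agent.Q106.GMM

open Finset Filter Pool.Agent.Q120.GM MeasureTheory Polynomial
open Pool.Agent.Q120.AD (hl)
open scoped Topology

/-- The value of the polynomial, as a natural number. -/
noncomputable def val (f : ℤ[X]) (m : ℕ) : ℕ := (f.eval (m : ℤ)).toNat

/-- The integers `m` such that all `f(m) + h` lie in `S`. -/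
def PH (S : Set ℕ) (f : ℤ[X]) (H : Finset ℕ) : Set ℕ := {m | ∀ h ∈ H, val f m + h ∈ S}

/-- The good classes. -/
def GC (Q : ℕ) (f : ℤ[X]) (H : Finset ℕ) (m : ℕ) : Prop := ∀ h ∈ H, IsCoprime (f.eval (m : ℤ) + (h : ℤ)) (Q : ℤ)

open Classical in
/-- The constant at level `Q`. -/
noncomputable def singP (Q : ℕ) (f : ℤ[X]) (H : Finset ℕ) : ℝ :=
  (((range Q).filter (GC Q f H)).card : ℝ) / Q * qq Q ^ H.card

section

variable {f : ℤ[X]}

/-- The real polynomial. -/
noncomputable def rp (f : ℤ[X]) : ℝ[X] := f.map (Int.castRingHom ℝ)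

theorem rp_eval (f : ℤ[X]) (m : ℕ) : (rp f).eval (m : ℝ) = ((f.eval (m : ℤ) : ℤ) : ℝ) := by
  have := Polynomial.eval_intCast_map (Int.castRingHom ℝ) f (m : ℤ)
  unfold rp
  rw [Int.cast_natCast] at this
  rw [this]
  rfl

theorem rp_lead (f : ℤ[X]) : (rp f).leadingCoeff = (f.leadingCoeff : ℝ) := by
  unfold rp
  rw [Polynomial.leadingCoeff_map_of_injective (Int.cast_injective)]
  rfl

theorem rp_deg (f : ℤ[X]) : (rp f).natDegree = f.natDegree := by
  unfold rp
  exact Polynomial.natDegree_map_eq_of_injective (Int.cast_injective) f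

theorem rp_top (hd : 1 ≤ f.natDegree) (hf : 0 < f.leadingCoeff) : Tendsto (fun x : ℝ => (rp f).eval x) atTop atTop := by
  refine Polynomial.tendsto_atTop_of_leadingCoeff_nonneg _ ?_ ?_
  · rw [← Polynomial.natDegree_pos_iff_degree_pos, rp_deg]
    omega
  · rw [rp_lead]
    exact_mod_cast hf.le

theorem eval_top (hd : 1 ≤ f.natDegree) (hf : 0 < f.leadingCoeff) : Tendsto (fun m : ℕ => ((f.eval (m : ℤ) : ℤ) : ℝ)) atTop atTop := by
  have h1 := (rp_top hd hf).comp tendsto_natCast_atTop_atTop (α := ℕ)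
  refine h1.congr (fun m => ?_)
  exact rp_eval f m

theorem ev_pos (hd : 1 ≤ f.natDegree) (hf : 0 < f.leadingCoeff) : ∀ᶠ m : ℕ in atTop, 0 < f.eval (m : ℤ) := by
  filter_upwards [(eval_top hd hf).eventually_gt_atTop 0] with m hm
  exact_mod_cast hm

theorem val_cast (hd : 1 ≤ f.natDegree) (hf : 0 < f.leadingCoeff) : ∀ᶠ m : ℕ in atTop, ((val f m : ℕ) : ℤ) = f.eval (m : ℤ) := by
  filter_upwards [ev_pos hd hf] with m hm
  unfold val
  exact Int.toNat_of_nonneg hm.le

theorem val_top (hd : 1 ≤ f.natDegree) (hf : 0 < f.leadingCoeff) : Tendsto (fun m : ℕ => (val f m : ℝ)) atTop atTop := by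
  refine (eval_top hd hf).congr' ?_
  filter_upwards [val_cast hd hf] with m hm
  rw [← hm]
  push_cast
  rfl

/-- `log f(m) / log m → deg f`. -/
theorem val_log (hd : 1 ≤ f.natDegree) (hf : 0 < f.leadingCoeff) (h : ℕ) :
    Tendsto (fun m : ℕ => Real.log (((val f m + h : ℕ)) : ℝ) / Real.log m) atTop (𝓝 f.natDegree) := by
  have hlc : (0 : ℝ) < (rp f).leadingCoeff := by
    rw [rp_lead]
    exact_mod_cast hf
  have h1 : Tendsto (fun m : ℕ => (((val f m + h : ℕ)) : ℝ) / ((rp f).leadingCoeff * (m : ℝ) ^ f.natDegree)) atTop (𝓝 1) := by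
    have h2 := Polynomial.isEquivalent_atTop_lead (rp f)
    have h3 : Tendsto (fun x : ℝ => (rp f).eval x / ((rp f).leadingCoeff * x ^ (rp f).natDegree)) atTop (𝓝 1) := by
      refine (Asymptotics.isEquivalent_iff_tendsto_one ?_).1 h2
      filter_upwards [eventually_gt_atTop 0] with x hx
      positivity
    have h4 := h3.comp tendsto_natCast_atTop_atTop (α := ℕ)
    have h5 : Tendsto (fun m : ℕ => (h : ℝ) / ((rp f).leadingCoeff * (m : ℝ) ^ f.natDegree)) atTop (𝓝 0) := by
      refine tendsto_const_nhds.div_atTop (Tendsto.const_mul_atTop hlc ?_)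
      exact (tendsto_pow_atTop (by omega)).comp tendsto_natCast_atTop_atTop
    have h6 := h4.add h5
    rw [add_zero] at h6
    refine h6.congr' ?_
    filter_upwards [val_cast hd hf] with m hm
    simp only [Function.comp_apply]
    rw [rp_deg, rp_eval, ← hm, ← add_div]
    push_cast
    rfl
  have h2 : Tendsto (fun m : ℕ => Real.log ((((val f m + h : ℕ)) : ℝ) / ((rp f).leadingCoeff * (m : ℝ) ^ f.natDegree))) atTop
      (𝓝 (Real.log 1)) := (Real.continuousAt_log one_ne_zero).tendsto.comp h1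
  have h3 : Tendsto (fun m : ℕ => (f.natDegree : ℝ) + Real.log ((rp f).leadingCoeff) / Real.log m +
      Real.log ((((val f m + h : ℕ)) : ℝ) / ((rp f).leadingCoeff * (m : ℝ) ^ f.natDegree)) / Real.log m) atTop
      (𝓝 ((f.natDegree : ℝ) + 0 + 0)) :=
    (tendsto_const_nhds.add (hl.const_div_atTop _)).add (h2.div_atTop hl)
  rw [add_zero, add_zero] at h3
  refine h3.congr' ?_
  filter_upwards [hl.eventually_gt_atTop 0, (val_top hd hf).eventually_gt_atTop 0, eventually_ge_atTop 1] with m h4 h5 h6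
  have hm0 : (0 : ℝ) < m := by exact_mod_cast h6
  have h7 : (0 : ℝ) < ((val f m + h : ℕ) : ℝ) := by
    push_cast
    positivity
  rw [Real.log_div h7.ne' (by positivity), Real.log_mul hlc.ne' (by positivity), Real.log_pow]
  field_simp
  ring

/-- The increments tend to infinity. -/
theorem val_inc (hd : 2 ≤ f.natDegree) (hf : 0 < f.leadingCoeff) (D : ℕ) : ∀ᶠ m : ℕ in atTop, val f m + D < val f (m + 1) := by
  have hlc : (0 : ℝ) < (rp f).leadingCoeff := by
    rw [rp_lead]
    exact_mod_cast hf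
  have hdeg : (derivative (rp f)).degree = ((f.natDegree - 1 : ℕ) : WithBot ℕ) := by
    rw [Polynomial.degree_derivative (by rw [rp_deg]; omega), rp_deg]
  have hnat : (derivative (rp f)).natDegree = f.natDegree - 1 := Polynomial.natDegree_eq_of_degree_eq_some hdeg
  have htop : Tendsto (fun x : ℝ => (derivative (rp f)).eval x) atTop atTop := by
    refine Polynomial.tendsto_atTop_of_leadingCoeff_nonneg _ ?_ ?_
    · rw [← Polynomial.natDegree_pos_iff_degree_pos, hnat]
      omega
    · unfold Polynomial.leadingCoeff at hlc ⊢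
      rw [hnat, Polynomial.coeff_derivative, show f.natDegree - 1 + 1 = (rp f).natDegree by rw [rp_deg]; omega]
      positivity
  obtain ⟨x₀, hx₀⟩ := eventually_atTop.1 (htop.eventually_gt_atTop (D : ℝ))
  filter_upwards [tendsto_natCast_atTop_atTop.eventually_ge_atTop x₀, val_cast (by omega) hf,
    (tendsto_add_atTop_nat 1).eventually (val_cast (f := f) (by omega) hf)] with m h1 h2 h3
  obtain ⟨c, hc, hc2⟩ := exists_hasDerivAt_eq_slope (fun x : ℝ => (rp f).eval x) (fun x => (derivative (rp f)).eval x)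
    (show (m : ℝ) < ((m + 1 : ℕ) : ℝ) by push_cast; linarith) ((rp f).continuous.continuousOn)
    (fun x _ => (rp f).hasDerivAt x)
  have h4 := hx₀ c (h1.trans hc.1.le)
  rw [hc2, rp_eval, rp_eval, ← h2, ← h3] at h4
  have h5 : ((m + 1 : ℕ) : ℝ) - m = 1 := by push_cast; ring
  rw [h5, div_one] at h4
  have h6 : (D : ℝ) < (val f (m + 1) : ℝ) - val f m := by exact_mod_cast h4
  have h7 : ((val f m + D : ℕ) : ℝ) < ((val f (m + 1) : ℕ) : ℝ) := by
    push_cast
    linarith
  exact_mod_cast h7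

theorem gc_periodic (Q : ℕ) (f : ℤ[X]) (H : Finset ℕ) (m : ℕ) : GC Q f H (m + Q) ↔ GC Q f H m := by
  unfold GC
  refine forall₂_congr (fun h _ => ?_)
  obtain ⟨t, ht⟩ := Polynomial.sub_dvd_eval_sub ((m + Q : ℕ) : ℤ) (m : ℤ) f
  have h1 : ((m + Q : ℕ) : ℤ) - m = Q := by push_cast; ring
  rw [h1] at ht
  have h2 : f.eval ((m + Q : ℕ) : ℤ) + (h : ℤ) = (f.eval (m : ℤ) + h) + Q * t := by linarith
  rw [h2, IsCoprime.add_mul_left_left_iff]

end

section

variable {Ω : Type*} [MeasurableSpace Ω] {μ : Measure Ω} [IsProbabilityMeasure μ] {A : Ω → Set ℕ} {Q : ℕ}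

/-- The shifts of the value. -/
noncomputable def T (f : ℤ[X]) (H : Finset ℕ) (m : ℕ) : Finset ℕ := H.image (fun h => val f m + h)

/-- The independent part of `P`. -/
def BB (A : Ω → Set ℕ) (f : ℤ[X]) (H : Finset ℕ) (m₀ : ℕ) (ω : Ω) : Set ℕ := {m | m₀ ≤ m ∧ m ∈ PH (A ω) f H}

/-- Its probabilities. -/
noncomputable def qP (Q : ℕ) (f : ℤ[X]) (H : Finset ℕ) (m₀ m : ℕ) : ℝ := if m₀ ≤ m then ∏ h ∈ H, level Q (val f m + h) else 0

theorem poly_model (hA : IsModel μ (level Q) A) {f : ℤ[X]} {H : Finset ℕ} {m₀ : ℕ}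
    (hm₀ : ∀ m, m₀ ≤ m → val f m + H.sup id < val f (m + 1)) : IsModel μ (qP Q f H m₀) (BB A f H m₀) := by
  classical
  have hmem : ∀ (m : ℕ) (ω : Ω), m ∈ PH (A ω) f H ↔ ω ∈ all A (T f H m) := by
    intro m ω
    unfold PH all T
    simp only [Set.mem_ofPred_eq, mem_image, forall_exists_index, and_imp, forall_apply_eq_imp_iff₂]
  have hset : ∀ m, {ω | m ∈ BB A f H m₀ ω} = if m₀ ≤ m then all A (T f H m) else ∅ := by
    intro m
    split_ifs with h
    · ext ω
      rw [← hmem]
      unfold BB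
      exact ⟨fun h1 => h1.2, fun h1 => ⟨h, h1⟩⟩
    · ext ω
      simp only [Set.mem_empty_iff_false, iff_false]
      intro h1
      exact h h1.1
  have hm : ∀ m, MeasurableSet {ω | m ∈ BB A f H m₀ ω} := by
    intro m
    rw [hset]
    split_ifs
    · exact meas_all hA _
    · exact MeasurableSet.empty
  have hinj : ∀ m, Function.Injective (fun h : ℕ => val f m + h) := fun m a b hab => by simpa using hab
  have hone : ∀ m, μ.real {ω | m ∈ BB A f H m₀ ω} = qP Q f H m₀ m := by
    intro m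
    rw [hset]
    unfold qP
    split_ifs with h
    · rw [real_all hA]
      unfold T
      rw [prod_image (fun a _ b _ hab => hinj m hab)]
    · simp
  -- disjointness
  have hstep : ∀ m n, m₀ ≤ m → m < n → val f m + H.sup id < val f n := by
    intro m n h1 h2
    induction n, h2 using Nat.le_induction with
    | base => exact hm₀ m h1
    | succ n hn ih =>
      have h3 := hm₀ n (by omega)
      omega
  have hdis : ∀ m n, m₀ ≤ m → m₀ ≤ n → m ≠ n → Disjoint (T f H m) (T f H n) := by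
    have key : ∀ m n, m₀ ≤ m → m < n → Disjoint (T f H m) (T f H n) := by
      intro m n h1 h2
      rw [Finset.disjoint_left]
      intro a ha ha2
      unfold T at ha ha2
      rw [mem_image] at ha ha2
      obtain ⟨h, hh, h3⟩ := ha
      obtain ⟨h', hh', h4⟩ := ha2
      have h5 := hstep m n h1 h2
      have h6 : h ≤ H.sup id := le_sup (f := id) hh
      omega
    intro m n h1 h2 h3
    rcases lt_or_gt_of_ne h3 with h4 | h4
    · exact key m n h1 h4
    · exact (key n m h2 h4).symm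
  refine ⟨hm, ?_, hone⟩
  rw [ProbabilityTheory.iIndepSet_iff_meas_biInter hm]
  intro s
  have hreal : μ.real (⋂ i ∈ s, {ω | i ∈ BB A f H m₀ ω}) = ∏ i ∈ s, μ.real {ω | i ∈ BB A f H m₀ ω} := by
    by_cases h : ∀ i ∈ s, m₀ ≤ i
    · have h1 : (⋂ i ∈ s, {ω | i ∈ BB A f H m₀ ω}) = all A (s.biUnion (T f H)) := by
        ext ω
        rw [Set.mem_iInter₂]
        constructor
        · intro h2 a ha
          rw [mem_biUnion] at ha
          obtain ⟨i, hi, ha⟩ := ha
          exact (hmem i ω).1 (h2 i hi).2 a ha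
        · intro h2 i hi
          exact ⟨h i hi, (hmem i ω).2 (fun a ha => h2 a (mem_biUnion.2 ⟨i, hi, ha⟩))⟩
      rw [h1, real_all hA, prod_biUnion]
      · refine prod_congr rfl (fun i hi => ?_)
        rw [hset, if_pos (h i hi), real_all hA]
      · intro i hi j hj hij
        exact hdis i j (h i hi) (h j hj) hij
    · push Not at h
      obtain ⟨i, hi, hi2⟩ := h
      have h1 : μ.real {ω | i ∈ BB A f H m₀ ω} = 0 := by
        rw [hset, if_neg (by omega)]
        simp
      rw [prod_eq_zero hi h1]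
      have h2 : μ.real (⋂ i ∈ s, {ω | i ∈ BB A f H m₀ ω}) ≤ μ.real {ω | i ∈ BB A f H m₀ ω} :=
        measureReal_mono (Set.iInter₂_subset i hi) (measure_ne_top _ _)
      rw [h1] at h2
      exact le_antisymm h2 measureReal_nonneg
  rw [← ENNReal.toReal_eq_toReal_iff' (measure_ne_top _ _) (ENNReal.prod_ne_top (fun i _ => measure_ne_top _ _)), ENNReal.toReal_prod]
  exact hreal

open Classical in
/-- The periodic function. -/
noncomputable def vP (Q : ℕ) (f : ℤ[X]) (H : Finset ℕ) (m : ℕ) : ℝ := if GC Q f H m then (qq Q / f.natDegree) ^ H.card else 0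

theorem poly_per (hQ : 1 ≤ Q) {f : ℤ[X]} {H : Finset ℕ} (hd : 1 ≤ f.natDegree) (hf : 0 < f.leadingCoeff) (hH : H.Nonempty)
    (m₀ : ℕ) : Per (qP Q f H m₀) (vP Q f H) Q H.card := by
  classical
  have hq := qq_pos hQ
  have hd0 : (0 : ℝ) < f.natDegree := by exact_mod_cast (show 0 < f.natDegree by omega)
  refine ⟨?_, ?_, ?_, ?_, hQ, hH.card_pos, ?_⟩
  · intro m
    unfold qP
    split_ifs
    · exact prod_nonneg (fun h _ => level_nonneg Q _)
    · exact le_rfl
  · intro m
    unfold qP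
    split_ifs
    · exact prod_le_one (fun h _ => level_nonneg Q _) (fun h _ => level_le_one Q _)
    · exact zero_le_one
  · intro m
    unfold vP
    split_ifs <;> positivity
  · intro m
    unfold vP
    simp only [gc_periodic]
  · -- the limit
    have h1 : Tendsto (fun m : ℕ => (∏ h ∈ H, (qq Q * (Real.log (((val f m + h : ℕ)) : ℝ) / Real.log m)⁻¹)) -
        (qq Q / f.natDegree) ^ H.card) atTop (𝓝 ((∏ h ∈ H, (qq Q * (f.natDegree : ℝ)⁻¹)) - (qq Q / f.natDegree) ^ H.card)) := by
      refine Tendsto.sub_const (tendsto_finsetProd _ (fun h _ => ?_)) _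
      exact ((val_log hd hf h).inv₀ hd0.ne').const_mul _
    rw [prod_const, ← div_eq_mul_inv, sub_self] at h1
    have h1n := h1.norm
    rw [norm_zero] at h1n
    refine squeeze_zero_norm' ?_ h1n
    filter_upwards [eventually_ge_atTop m₀, val_cast hd hf, hl.eventually_gt_atTop 0,
      (Real.tendsto_log_atTop.comp (val_top hd hf)).eventually_ge_atTop (qq Q),
      (Real.tendsto_log_atTop.comp (val_top hd hf)).eventually_gt_atTop 0, (val_top hd hf).eventually_gt_atTop 0] with m e1 e2 e3 e4 e5 e6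
    simp only [Function.comp_apply] at e4 e5
    have hcop : ∀ h : ℕ, (val f m + h).Coprime Q ↔ IsCoprime (f.eval (m : ℤ) + (h : ℤ)) (Q : ℤ) := by
      intro h
      rw [← Nat.isCoprime_iff_coprime, ← e2]
      push_cast
      rfl
    unfold qP vP
    rw [if_pos e1]
    by_cases hg : GC Q f H m
    · rw [if_pos hg]
      apply le_of_eq
      congr 1
      congr 1
      rw [← prod_const, ← prod_mul_distrib]
      refine prod_congr rfl (fun h hh => ?_)
      unfold level
      rw [if_pos ((hcop h).2 (hg h hh))]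
      have h2 : Real.log (val f m : ℝ) ≤ Real.log ((val f m + h : ℕ) : ℝ) := by
        apply Real.log_le_log e6
        push_cast
        have : (0 : ℝ) ≤ h := Nat.cast_nonneg h
        linarith
      have h3 : (Q : ℝ) / Nat.totient Q / Real.log ((val f m + h : ℕ) : ℝ) ≤ 1 := by
        rw [div_le_one (by linarith)]
        exact e4.trans h2
      rw [min_eq_right h3, inv_div]
      unfold qq
      ring
    · rw [if_neg hg]
      have h2 : ∃ h ∈ H, ¬ (val f m + h).Coprime Q := by
        unfold GC at hg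
        push Not at hg
        obtain ⟨h, hh, h2⟩ := hg
        exact ⟨h, hh, fun h3 => h2 ((hcop h).1 h3)⟩
      obtain ⟨h, hh, h2⟩ := h2
      have h3 : ∏ h ∈ H, level Q (val f m + h) = 0 := by
        refine prod_eq_zero hh ?_
        unfold level
        rw [if_neg h2]
      rw [h3, zero_mul, sub_zero, norm_zero]
      exact norm_nonneg _

theorem poly_mean (Q : ℕ) (f : ℤ[X]) (H : Finset ℕ) : mean (vP Q f H) Q = singP Q f H / (f.natDegree : ℝ) ^ H.card := by
  classical
  unfold mean vP singP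
  rw [← sum_filter, sum_const, nsmul_eq_mul, div_pow]
  ring

/-- The laws. -/
structure PLaw (Q : ℕ) (f : ℤ[X]) (H : Finset ℕ) (S : Set ℕ) : Prop where
  count : Tendsto (fun x : ℕ => (Set.ncard {m | m < x ∧ m ∈ PH S f H} : ℝ) / ((x : ℝ) / Real.log x ^ H.card)) atTop
    (𝓝 (singP Q f H / (f.natDegree : ℝ) ^ H.card))
  upper : ∀ ε : ℝ, 0 < ε → ∀ᶠ x : ℕ in atTop, ∃ m ∈ PH S f H, x < m ∧
    (m : ℝ) ≤ x + (1 + ε) * ((f.natDegree : ℝ) ^ H.card / singP Q f H * Real.log x ^ (H.card + 1))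
  lower : ∀ ε : ℝ, 0 < ε → ∀ᶠ x : ℕ in atTop, ∃ y : ℕ, x ≤ y ∧ y ≤ 2 * x ∧ ∀ m : ℕ, y < m →
    (m : ℝ) ≤ y + (1 - ε) * ((f.natDegree : ℝ) ^ H.card / singP Q f H * Real.log y ^ (H.card + 1)) → m ∉ PH S f H

theorem poly_law (hA : IsModel μ (level Q) A) (hQ : 1 ≤ Q) {f : ℤ[X]} {H : Finset ℕ} (hd : 2 ≤ f.natDegree)
    (hf : 0 < f.leadingCoeff) (hH : H.Nonempty) (hS : 0 < singP Q f H) : ∀ᵐ ω ∂μ, PLaw Q f H (A ω) := by
  classical
  obtain ⟨m₀, hm₀⟩ := eventually_atTop.1 (val_inc hd hf (H.sup id))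
  have hB := poly_model hA (H := H) hm₀
  have hP := poly_per hQ (by omega) hf hH m₀
  have hd0 : (0 : ℝ) < f.natDegree := by exact_mod_cast (show 0 < f.natDegree by omega)
  have hmean : 0 < mean (vP Q f H) Q := by
    rw [poly_mean]
    positivity
  have hcst : ∀ t : ℝ, t / mean (vP Q f H) Q = (f.natDegree : ℝ) ^ H.card / singP Q f H * t := by
    intro t
    rw [poly_mean]
    field_simp
  have hcount : ∀ j : ℕ, (0 : ℝ) < 1 / ((j : ℝ) + 2) ∧ 1 / ((j : ℝ) + 2) < 1 := by
    intro j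
    have hj : (0 : ℝ) ≤ j := Nat.cast_nonneg j
    refine ⟨by positivity, ?_⟩
    rw [div_lt_one (by positivity)]
    linarith
  have small : ∀ δ : ℝ, 0 < δ → ∃ j : ℕ, 1 / ((j : ℝ) + 2) ≤ δ := by
    intro δ hδ
    obtain ⟨j, hj⟩ := exists_nat_one_div_lt hδ
    refine ⟨j, le_trans (one_div_le_one_div_of_le (by positivity) (by linarith)) hj.le⟩
  have h1 := ren_count hB hP
  have h2 : ∀ᵐ ω ∂μ, ∀ j : ℕ, ∀ᶠ x : ℕ in atTop, ∃ m ∈ BB A f H m₀ ω, x < m ∧
      (m : ℝ) ≤ x + (1 + 1 / ((j : ℝ) + 2)) * Real.log x ^ (H.card + 1) / mean (vP Q f H) Q :=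
    ae_all_iff.2 (fun j => ren_upper hB hP hmean (hcount j).1 (hcount j).2.le)
  have h3 : ∀ᵐ ω ∂μ, ∀ j : ℕ, ∀ᶠ x : ℕ in atTop, ∃ y : ℕ, x ≤ y ∧ y ≤ 2 * x ∧ ∀ m : ℕ, y < m →
      (m : ℝ) ≤ y + (1 - 1 / ((j : ℝ) + 2)) * Real.log y ^ (H.card + 1) / mean (vP Q f H) Q → m ∉ BB A f H m₀ ω :=
    ae_all_iff.2 (fun j => ren_lower hB hP hmean (hcount j).1 (hcount j).2)
  filter_upwards [h1, h2, h3] with ω g1 g2 g3
  refine ⟨?_, ?_, ?_⟩
  · -- the count
    have h4 : Tendsto (fun x : ℕ => (m₀ : ℝ) / ((x : ℝ) / Real.log x ^ H.card)) atTop (𝓝 0) := by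
      refine tendsto_const_nhds.div_atTop ?_
      have h5 := UU_top (r := 1) (q := -(H.card : ℝ)) (Or.inl one_pos)
      refine h5.congr' ?_
      filter_upwards [hl.eventually_gt_atTop 0] with N hN2
      unfold UU
      rw [Real.rpow_one, Real.rpow_neg hN2.le, Real.rpow_natCast]
      rfl
    have h5 : Tendsto (fun x : ℕ => cnt (BB A f H m₀ ω) 0 x / ((x : ℝ) / Real.log x ^ H.card) +
        (m₀ : ℝ) / ((x : ℝ) / Real.log x ^ H.card)) atTop (𝓝 (mean (vP Q f H) Q + 0)) := g1.add h4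
    rw [add_zero] at h5
    rw [poly_mean] at g1 h5
    have hset : ∀ x : ℕ, (Set.ncard {m | m < x ∧ m ∈ PH (A ω) f H} : ℝ) =
        (((range x).filter (fun m => m ∈ PH (A ω) f H)).card : ℝ) := by
      intro x
      rw [← Set.ncard_coe_finset]
      congr 2
      ext m
      simp
    have hlong : ∀ (S : Set ℕ) (a : ℕ), Long S 0 a ↔ a ∈ S := by
      intro S a
      unfold Long
      constructor
      · exact fun h => h.1
      · exact fun h => ⟨h, fun n h6 h7 => by omega⟩
    have hcnt : ∀ x : ℕ, cnt (BB A f H m₀ ω) 0 x = (((range x).filter (fun m => m ∈ BB A f H m₀ ω)).card : ℝ) := by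
      intro x
      rw [cnt_eq]
      simp only [hlong]
    refine tendsto_of_tendsto_of_tendsto_of_le_of_le' g1 h5 ?_ ?_
    · filter_upwards [hl.eventually_gt_atTop 0] with x hx
      apply div_le_div_of_nonneg_right _ (by positivity)
      rw [hset, hcnt]
      have h6 : (range x).filter (fun m => m ∈ BB A f H m₀ ω) ⊆ (range x).filter (fun m => m ∈ PH (A ω) f H) := by
        intro m hm
        rw [mem_filter] at hm ⊢
        exact ⟨hm.1, hm.2.2⟩
      exact_mod_cast card_le_card h6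
    · filter_upwards [hl.eventually_gt_atTop 0] with x hx
      rw [← add_div]
      apply div_le_div_of_nonneg_right _ (by positivity)
      rw [hset, hcnt]
      have h6 : (range x).filter (fun m => m ∈ PH (A ω) f H) ⊆ (range x).filter (fun m => m ∈ BB A f H m₀ ω) ∪ range m₀ := by
        intro m hm
        rw [mem_union, mem_filter, mem_range, mem_range]
        rw [mem_filter, mem_range] at hm
        by_cases h7 : m₀ ≤ m
        · exact Or.inl ⟨hm.1, h7, hm.2⟩
        · exact Or.inr (by omega)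
      have h7 := (card_le_card h6).trans (card_union_le _ _)
      rw [card_range] at h7
      exact_mod_cast h7
  · intro ε hε
    obtain ⟨j, hj⟩ := small ε hε
    filter_upwards [g2 j] with x hx
    obtain ⟨m, m1, m2, m3⟩ := hx
    refine ⟨m, m1.2, m2, m3.trans ?_⟩
    rw [mul_div_assoc, hcst]
    have hnn : 0 ≤ (f.natDegree : ℝ) ^ H.card / singP Q f H * Real.log (x : ℝ) ^ (H.card + 1) := by
      have := Real.log_natCast_nonneg x
      positivity
    have := mul_le_mul_of_nonneg_right (show 1 + 1 / ((j : ℝ) + 2) ≤ 1 + ε by linarith) hnn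
    linarith
  · intro ε hε
    obtain ⟨j, hj⟩ := small ε hε
    filter_upwards [g3 j, eventually_ge_atTop m₀] with x hx hx2
    obtain ⟨y, y1, y2, y3⟩ := hx
    refine ⟨y, y1, y2, fun m hm hm2 hm3 => y3 m hm (hm2.trans ?_) ⟨by omega, hm3⟩⟩
    rw [mul_div_assoc, hcst]
    have hnn : 0 ≤ (f.natDegree : ℝ) ^ H.card / singP Q f H * Real.log (y : ℝ) ^ (H.card + 1) := by
      have := Real.log_natCast_nonneg y
      positivity
    have := mul_le_mul_of_nonneg_right (show 1 - ε ≤ 1 - 1 / ((j : ℝ) + 2) by linarith) hnn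
    linarith

theorem countable_poly : Countable ℤ[X] := by
  rw [← Cardinal.mk_le_aleph0_iff]
  refine (Polynomial.cardinalMk_le_max (R := ℤ)).trans ?_
  simp

end

end Pool.Agent.Q106.GMM
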