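import Pool.Agent.Q106.GMM.TailLow

/-!
# Large differences of powers of consecutive elements beyond `N`: the laws
-/

set_option autoImplicit false

namespace Pool.Agent.Q106.GMM

open Finset Filter Pool.Agent.Q120.GM MeasureTheory
open Pool.Agent.Q120.AD (hl)
open scoped Topology

/-- The next element. -/
theorem next_elem {S : Set ℕ} (hS : S.Infinite) {a : ℕ} (ha : a ∈ S) : ∃ b, IsGap S a b := by
  obtain ⟨m, hm, ham⟩ := hS.exists_gt a
  obtain ⟨d, hd, _⟩ := next_exists ha hm ham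
  exact ⟨d, hd⟩

/-- Near implies Far. -/
theorem far_of_near {S : Set ℕ} (hS : S.Infinite) {α η lam : ℝ} (hα : 0 < α) (hα1 : α < 1) (hη : 0 < η) (hlam : 0 ≤ lam)
    {N : ℕ} (hN : 1 ≤ N) (hh : (hw η lam N : ℝ) ≤ η * N) (h : Near S η (hw η lam N) N) : Far S α (thr α lam N) N := by
  obtain ⟨a, h1, h2, h3, h4⟩ := h
  obtain ⟨b, hb⟩ := next_elem hS h3
  refine ⟨a, b, hb, h1, ?_⟩
  obtain ⟨k, hk⟩ : ∃ k, k = hw η lam N := ⟨_, rfl⟩
  rw [← hk] at hh h4
  have hkb : a + k < b := by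
    by_contra hcon
    exact h4 b hb.1 (by omega) hb.2.2.1
  have hNp : (0 : ℝ) < N := by exact_mod_cast (show 0 < N by omega)
  have ha0 : (0 : ℝ) < a := by exact_mod_cast (show 0 < a by omega)
  have hkb' : (a : ℝ) + k ≤ b := by exact_mod_cast hkb.le
  have hk1 : (1 + 3 * η) * (lam * Real.log N ^ 2) ≤ k := by
    rw [hk]
    exact Nat.le_ceil _
  have hmono : ((a : ℝ) + k) ^ α ≤ (b : ℝ) ^ α := Real.rpow_le_rpow (by positivity) hkb' hα.le
  have hpos : 0 ≤ lam * Real.log N ^ 2 := by positivity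
  unfold thr
  by_cases hk0 : k = 0
  · rw [hk0] at hk1
    push_cast at hk1
    have h5 : lam * Real.log N ^ 2 = 0 := by
      apply le_antisymm _ hpos
      nlinarith
    have h6 : lam * α * Real.log (N : ℝ) ^ 2 / (N : ℝ) ^ (1 - α) = 0 := by
      have : lam * α * Real.log (N : ℝ) ^ 2 = α * (lam * Real.log N ^ 2) := by ring
      rw [this, h5, mul_zero, zero_div]
    rw [h6]
    have : (a : ℝ) ^ α ≤ (b : ℝ) ^ α := Real.rpow_le_rpow ha0.le (by exact_mod_cast hb.1.le) hα.le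
    linarith
  · have hkp : (0 : ℝ) < k := by exact_mod_cast Nat.pos_of_ne_zero hk0
    have h5 := (dif_bounds hα hα1 ha0 (show (a : ℝ) < a + k by linarith)).1
    rw [add_sub_cancel_left] at h5
    have h6 : ((1 + 3 * η) * (N : ℝ)) ^ (α - 1) ≤ ((a : ℝ) + k) ^ (α - 1) :=
      Real.rpow_le_rpow_of_nonpos (by positivity) (by nlinarith) (by linarith)
    have h7 : lam * α * Real.log (N : ℝ) ^ 2 / (N : ℝ) ^ (1 - α) ≤ α * ((1 + 3 * η) * (N : ℝ)) ^ (α - 1) * k := by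
      have h8 : ((1 + 3 * η) * (N : ℝ)) ^ (α - 1) = (1 + 3 * η) ^ (α - 1) * ((N : ℝ) ^ (1 - α))⁻¹ := by
        rw [Real.mul_rpow (by positivity) hNp.le, ← Real.rpow_neg hNp.le]
        congr 2
        ring
      have h9 : 1 ≤ (1 + 3 * η) ^ (α - 1) * (1 + 3 * η) := by
        rw [← Real.rpow_add_one (by positivity), sub_add_cancel]
        exact Real.one_le_rpow (by linarith) hα.le
      have hNr : (0 : ℝ) < (N : ℝ) ^ (1 - α) := Real.rpow_pos_of_pos hNp _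
      rw [h8, div_le_iff₀ hNr]
      have h10 : α * ((1 + 3 * η) ^ (α - 1) * ((N : ℝ) ^ (1 - α))⁻¹) * k * (N : ℝ) ^ (1 - α) = α * ((1 + 3 * η) ^ (α - 1) * k) := by
        field_simp
      rw [h10]
      have hp : (0 : ℝ) < (1 + 3 * η) ^ (α - 1) := Real.rpow_pos_of_pos (by positivity) _
      have h11 : lam * Real.log (N : ℝ) ^ 2 ≤ (1 + 3 * η) ^ (α - 1) * k := by
        calc lam * Real.log (N : ℝ) ^ 2 ≤ ((1 + 3 * η) ^ (α - 1) * (1 + 3 * η)) * (lam * Real.log N ^ 2) := by nlinarith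
          _ = (1 + 3 * η) ^ (α - 1) * ((1 + 3 * η) * (lam * Real.log N ^ 2)) := by ring
          _ ≤ _ := mul_le_mul_of_nonneg_left hk1 hp.le
      nlinarith
    have h8 : α * ((1 + 3 * η) * (N : ℝ)) ^ (α - 1) * k ≤ α * ((a : ℝ) + k) ^ (α - 1) * k :=
      mul_le_mul_of_nonneg_right (mul_le_mul_of_nonneg_left h6 hα.le) hkp.le
    linarith

variable {Ω : Type*} [MeasurableSpace Ω] {μ : Measure Ω} [IsProbabilityMeasure μ] {A : Ω → Set ℕ} {Q : ℕ}

/-- The lower bound for the probability of the complement. -/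
theorem tail_low' (hA : IsModel μ (level Q) A) (hQ : 1 ≤ Q) {α ε : ℝ} (hα : 0 < α) (hα1 : α < 1) (hε : 0 < ε) (hε1 : ε < 1) :
    ∃ c : ℝ, 0 < c ∧ ∀ᶠ N : ℕ in atTop, ∀ lam : ℝ, 0 ≤ lam → lam * Real.log N ^ 2 ≤ c * N →
      1 - Real.exp (-((N : ℝ) ^ (1 - (1 + ε) * lam - ε))) ≤ μ.real {ω | Far (A ω) α (thr α lam N) N} := by
  obtain ⟨c, hc, h1⟩ := tail_low hA hQ hε hε1
  refine ⟨c, hc, ?_⟩
  filter_upwards [h1, eventually_ge_atTop 1] with N h2 h3 lam hlam hlam2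
  obtain ⟨h4, h5⟩ := h2 lam hlam hlam2
  have h6 : μ.real {ω | ¬ Far (A ω) α (thr α lam N) N} ≤ μ.real {ω | ¬ Near (A ω) (ε / 8) (hw (ε / 8) lam N) N} := by
    refine ENNReal.toReal_mono (measure_ne_top _ _) (measure_mono_ae ?_)
    filter_upwards [ae_typ hA hQ] with ω hω h7 h8
    exact h7 (far_of_near hω.inf hα hα1 (by positivity) hlam h3 h4 h8)
  have h7 : (1 : ℝ) ≤ μ.real {ω | Far (A ω) α (thr α lam N) N} + μ.real {ω | ¬ Far (A ω) α (thr α lam N) N} := by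
    have h8 : (Set.univ : Set Ω) = {ω | Far (A ω) α (thr α lam N) N} ∪ {ω | ¬ Far (A ω) α (thr α lam N) N} := by
      ext ω
      simp only [Set.mem_univ, Set.mem_union, Set.mem_ofPred_eq, true_iff]
      exact em _
    calc (1 : ℝ) = μ.real (Set.univ : Set Ω) := by rw [probReal_univ]
      _ = μ.real ({ω | Far (A ω) α (thr α lam N) N} ∪ {ω | ¬ Far (A ω) α (thr α lam N) N}) := by rw [← h8]
      _ ≤ _ := measureReal_union_le _ _
  linarith

/-- The two-sided bound. -/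
theorem two_sided (hA : IsModel μ (level Q) A) (hQ : 1 ≤ Q) {α ε : ℝ} (hα : 0 < α) (hα1 : α < 1) (hε : 0 < ε) (hε1 : ε < 1) :
    ∃ c : ℝ, 0 < c ∧ ∀ᶠ N : ℕ in atTop, ∀ lam : ℝ, 1 ≤ lam → lam * Real.log N ^ 2 ≤ c * N →
      (N : ℝ) ^ (1 - (1 + ε) * lam - 2 * ε) ≤ μ.real {ω | Far (A ω) α (thr α lam N) N} ∧
      μ.real {ω | Far (A ω) α (thr α lam N) N} ≤ (N : ℝ) ^ (1 - (1 - ε) * lam) := by
  obtain ⟨c, hc, h1⟩ := tail_low' hA hQ hα hα1 hε hε1
  have h2 := tail_up hA hQ hα hα1 hε hε1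
  have hpow : Tendsto (fun N : ℕ => (N : ℝ) ^ ε) atTop atTop :=
    (tendsto_rpow_atTop hε).comp tendsto_natCast_atTop_atTop
  refine ⟨min c 1, by positivity, ?_⟩
  filter_upwards [h1, h2, hpow.eventually_ge_atTop 2, eventually_ge_atTop 1] with N e1 e2 e3 e4 lam hlam hlam2
  have hN1 : (1 : ℝ) ≤ N := by exact_mod_cast e4
  have hNp : (0 : ℝ) < N := by linarith
  have g1 : lam * Real.log (N : ℝ) ^ 2 ≤ c * N := hlam2.trans (mul_le_mul_of_nonneg_right (min_le_left _ _) hNp.le)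
  have g2 : lam * Real.log (N : ℝ) ^ 2 ≤ N := by
    have := mul_le_mul_of_nonneg_right (min_le_right c 1) hNp.le
    linarith
  refine ⟨?_, e2 lam (by linarith) g2⟩
  refine le_trans ?_ (e1 lam (by linarith) g1)
  obtain ⟨x, hx⟩ : ∃ x, x = (N : ℝ) ^ (1 - (1 + ε) * lam - ε) := ⟨_, rfl⟩
  rw [← hx]
  have hx0 : 0 < x := by rw [hx]; exact Real.rpow_pos_of_pos hNp _
  have hx1 : x ≤ 1 := by
    rw [hx]
    apply Real.rpow_le_one_of_one_le_of_nonpos hN1
    nlinarith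
  have h3 : (N : ℝ) ^ (1 - (1 + ε) * lam - 2 * ε) * 2 ≤ x := by
    have h4 : x = (N : ℝ) ^ (1 - (1 + ε) * lam - 2 * ε) * (N : ℝ) ^ ε := by
      rw [hx, ← Real.rpow_add hNp]
      congr 1
      ring
    rw [h4]
    exact mul_le_mul_of_nonneg_left e3 (Real.rpow_nonneg hNp.le _)
  have h4 : Real.exp (-x) ≤ 1 - x / 2 := by
    have h5 : Real.exp (-x) * (1 + x) ≤ 1 := by
      have h6 := Real.add_one_le_exp x
      have h7 : Real.exp (-x) * Real.exp x = 1 := by rw [← Real.exp_add, neg_add_cancel, Real.exp_zero]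
      have h8 := (Real.exp_pos (-x)).le
      nlinarith
    have h6 : 1 ≤ (1 - x / 2) * (1 + x) := by nlinarith
    have h7 : Real.exp (-x) * (1 + x) ≤ (1 - x / 2) * (1 + x) := h5.trans h6
    exact le_of_mul_le_mul_right h7 (by linarith)
  linarith

/-- **The uniform law.** -/
theorem uniform (hA : IsModel μ (level Q) A) (hQ : 1 ≤ Q) {α ε : ℝ} (hα : 0 < α) (hα1 : α < 1) (hε : 0 < ε) (hε1 : ε < 1) :
    ∃ c : ℝ, 0 < c ∧ ∀ᶠ N : ℕ in atTop, ∀ lam : ℝ, 1 + ε ≤ lam → lam * Real.log N ^ 2 ≤ c * N →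
      (N : ℝ) ^ (-((1 + ε) * (lam - 1))) ≤ μ.real {ω | Far (A ω) α (thr α lam N) N} ∧
      μ.real {ω | Far (A ω) α (thr α lam N) N} ≤ (N : ℝ) ^ (-((1 - ε) * (lam - 1))) := by
  obtain ⟨c, hc, h1⟩ := two_sided hA hQ hα hα1 (ε := ε ^ 2 / 4) (by positivity) (by nlinarith)
  refine ⟨c, hc, ?_⟩
  filter_upwards [h1, eventually_ge_atTop 1] with N e1 e4 lam hlam hlam2
  have hN1 : (1 : ℝ) ≤ N := by exact_mod_cast e4
  obtain ⟨h2, h3⟩ := e1 lam (by linarith) hlam2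
  have hk : ε ^ 2 / 4 * lam + 2 * (ε ^ 2 / 4) ≤ ε * (lam - 1) := by
    have ht : 0 ≤ lam - 1 - ε := by linarith
    have hε4 : 0 ≤ ε - ε ^ 2 / 4 := by nlinarith
    have h5 := mul_nonneg ht hε4
    have h6 : 0 ≤ ε ^ 2 * (1 - ε) := mul_nonneg (sq_nonneg ε) (by linarith)
    nlinarith
  constructor
  · refine le_trans (Real.rpow_le_rpow_of_exponent_le hN1 ?_) h2
    nlinarith
  · refine h3.trans (Real.rpow_le_rpow_of_exponent_le hN1 ?_)
    nlinarith [sq_nonneg ε]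

/-- **The law for a constant difference.** -/
theorem const_law (hA : IsModel μ (level Q) A) (hQ : 1 ≤ Q) {α δ : ℝ} (hα : 0 < α) (hα1 : α < 1) (hδ : 0 < δ) :
    Tendsto (fun N : ℕ => Real.log (μ.real {ω | Far (A ω) α δ N}) * Real.log N / (N : ℝ) ^ (1 - α)) atTop (𝓝 (-(δ / α))) := by
  have hr : 0 < 1 - α := by linarith
  rw [Metric.tendsto_nhds]
  intro κ hκ
  obtain ⟨ε, hε, hε1, hε2⟩ : ∃ ε : ℝ, 0 < ε ∧ ε < 1 ∧ ε * (δ / α) < κ / 2 := by
    have hδα : 0 < δ / α := by positivity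
    refine ⟨min (1 / 2) (κ / (4 * (δ / α))), by positivity, lt_of_le_of_lt (min_le_left _ _) (by norm_num), ?_⟩
    have h1 : min (1 / 2) (κ / (4 * (δ / α))) * (δ / α) ≤ κ / (4 * (δ / α)) * (δ / α) :=
      mul_le_mul_of_nonneg_right (min_le_right _ _) hδα.le
    have h2 : κ / (4 * (δ / α)) * (δ / α) = κ / 4 := by field_simp
    linarith
  obtain ⟨c, hc, h1⟩ := two_sided hA hQ hα hα1 hε hε1
  have hN1 : Tendsto (fun N : ℕ => (N : ℝ) ^ (1 - α) / Real.log N ^ 2) atTop atTop := by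
    have h2 := UU_top (r := 1 - α) (q := -2) (Or.inl hr)
    refine h2.congr' ?_
    filter_upwards [hl.eventually_gt_atTop 0] with N hN
    unfold UU
    rw [Real.rpow_neg hN.le, Real.rpow_two]
    rfl
  have hN2 : Tendsto (fun N : ℕ => (N : ℝ) ^ α) atTop atTop :=
    (tendsto_rpow_atTop hα).comp tendsto_natCast_atTop_atTop
  have hN3 : Tendsto (fun N : ℕ => 3 * (Real.log N ^ 2 / (N : ℝ) ^ (1 - α))) atTop (𝓝 (3 * 0)) := by
    refine Tendsto.const_mul 3 ?_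
    have h2 := hN1.inv_tendsto_atTop
    refine h2.congr (fun N => ?_)
    simp only [Pi.inv_apply, inv_div]
  rw [mul_zero] at hN3
  filter_upwards [h1, hN1.eventually_ge_atTop (α / δ), hN2.eventually_ge_atTop (δ / α / c), hl.eventually_ge_atTop 1,
    eventually_ge_atTop 1, hN3.eventually_lt_const (show (0 : ℝ) < κ / 2 by positivity)] with N e1 e2 e3 e4 e5 e6
  have hNp : (0 : ℝ) < N := by exact_mod_cast e5
  obtain ⟨L, hLd⟩ : ∃ L, L = Real.log (N : ℝ) := ⟨_, rfl⟩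
  rw [← hLd] at e1 e2 e4 e6 ⊢
  have hL0 : 0 < L := by linarith
  obtain ⟨R, hR⟩ : ∃ R, R = (N : ℝ) ^ (1 - α) := ⟨_, rfl⟩
  have hR0 : 0 < R := by rw [hR]; exact Real.rpow_pos_of_pos hNp _
  rw [← hR] at e2 e6 ⊢
  obtain ⟨lam, hlam⟩ : ∃ lam, lam = δ * R / (α * L ^ 2) := ⟨_, rfl⟩
  have hlam1 : 1 ≤ lam := by
    rw [hlam, le_div_iff₀ (by positivity)]
    rw [div_le_div_iff₀ hδ (by positivity)] at e2
    linarith
  have hlam2 : lam * L ^ 2 = δ / α * R := by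
    rw [hlam]
    field_simp
  have hthr : thr α lam N = δ := by
    unfold thr
    rw [← hLd, ← hR, show lam * α * L ^ 2 = α * (lam * L ^ 2) by ring, hlam2]
    field_simp
  have hcond : lam * L ^ 2 ≤ c * N := by
    rw [hlam2]
    have h3 : (N : ℝ) = (N : ℝ) ^ α * R := by
      rw [hR, ← Real.rpow_add hNp]
      norm_num
    rw [div_le_iff₀ hc] at e3
    rw [h3]
    nlinarith
  obtain ⟨h2, h3⟩ := e1 lam hlam1 hcond
  rw [hthr] at h2 h3
  obtain ⟨P, hP⟩ : ∃ P, P = μ.real {ω | Far (A ω) α δ N} := ⟨_, rfl⟩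
  rw [← hP] at h2 h3 ⊢
  have hP0 : 0 < P := lt_of_lt_of_le (Real.rpow_pos_of_pos hNp _) h2
  have l1 : (1 - (1 + ε) * lam - 2 * ε) * L ≤ Real.log P := by
    have := Real.log_le_log (Real.rpow_pos_of_pos hNp _) h2
    rwa [Real.log_rpow hNp, ← hLd] at this
  have l2 : Real.log P ≤ (1 - (1 - ε) * lam) * L := by
    have := Real.log_le_log hP0 h3
    rwa [Real.log_rpow hNp, ← hLd] at this
  rw [Real.dist_eq, abs_lt]
  have m1 : (1 - (1 + ε) * lam - 2 * ε) * L * L / R ≤ Real.log P * L / R := by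
    apply div_le_div_of_nonneg_right _ hR0.le
    exact mul_le_mul_of_nonneg_right l1 hL0.le
  have m2 : Real.log P * L / R ≤ (1 - (1 - ε) * lam) * L * L / R := by
    apply div_le_div_of_nonneg_right _ hR0.le
    exact mul_le_mul_of_nonneg_right l2 hL0.le
  have n1 : (1 - (1 + ε) * lam - 2 * ε) * L * L / R = (1 - 2 * ε) * (L ^ 2 / R) - (1 + ε) * (δ / α) := by
    have : (1 - (1 + ε) * lam - 2 * ε) * L * L = (1 - 2 * ε) * L ^ 2 - (1 + ε) * (lam * L ^ 2) := by ring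
    rw [this, hlam2]
    field_simp
  have n2 : (1 - (1 - ε) * lam) * L * L / R = L ^ 2 / R - (1 - ε) * (δ / α) := by
    have : (1 - (1 - ε) * lam) * L * L = L ^ 2 - (1 - ε) * (lam * L ^ 2) := by ring
    rw [this, hlam2]
    field_simp
  have hLR : 0 ≤ L ^ 2 / R := by positivity
  rw [n1] at m1
  rw [n2] at m2
  constructor <;> nlinarith

/-- Independence of what happens below `N`. -/
theorem indep_below (hA : IsModel μ (level Q) A) (α δ : ℝ) (N : ℕ) (P : Set ℕ → Prop)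
    (hP : ∀ S T : Set ℕ, (∀ i < N, (i ∈ S ↔ i ∈ T)) → P S → P T) :
    μ.real {ω | Far (A ω) α δ N ∧ P (A ω)} = μ.real {ω | Far (A ω) α δ N} * μ.real {ω | P (A ω)} := by
  have h1 : {ω | Far (A ω) α δ N ∧ P (A ω)} = {ω | Far (A ω) α δ N} ∩ {ω | P (A ω)} := rfl
  rw [h1]
  refine indep_real hA (S := Set.Ici N) (T := Set.Iio N) ?_ ?_ (F_dep N P hP)
  · rw [Set.disjoint_left]
    intro n hn hn2
    rw [Set.mem_Ici] at hn
    rw [Set.mem_Iio] at hn2
    omega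
  · have h2 : {ω | Far (A ω) α δ N} = ⋃ a : ℕ, ⋃ b : ℕ, {ω | IsGap (A ω) a b ∧ N ≤ a ∧ δ ≤ (b : ℝ) ^ α - (a : ℝ) ^ α} := by
      ext ω
      simp only [Set.mem_iUnion]
      rfl
    rw [h2]
    refine MeasurableSet.iUnion (fun a => MeasurableSet.iUnion (fun b => ?_))
    by_cases h3 : N ≤ a ∧ δ ≤ (b : ℝ) ^ α - (a : ℝ) ^ α ∧ a < b
    · have h4 : {ω | IsGap (A ω) a b ∧ N ≤ a ∧ δ ≤ (b : ℝ) ^ α - (a : ℝ) ^ α} =
          all A {a, b} ∩ free A (Ioo a b) := by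
        ext ω
        unfold IsGap all free
        simp only [Set.mem_inter_iff, Set.mem_ofPred_eq, mem_insert, mem_singleton, forall_eq_or_imp, forall_eq, mem_Ioo,
          and_imp]
        constructor
        · rintro ⟨⟨_, h5, h6, h7⟩, _, _⟩
          exact ⟨⟨h5, h6⟩, fun n h8 h9 => h7 n h8 h9⟩
        · rintro ⟨⟨h5, h6⟩, h7⟩
          exact ⟨⟨h3.2.2, h5, h6, h7⟩, h3.1, h3.2.1⟩
      rw [h4]
      refine MeasurableSet.inter (F_all (fun i hi => ?_)) (F_free (fun i hi => ?_))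
      · rw [mem_insert, mem_singleton] at hi
        rw [Set.mem_Ici]
        omega
      · rw [mem_Ioo] at hi
        rw [Set.mem_Ici]
        omega
    · have h4 : {ω | IsGap (A ω) a b ∧ N ≤ a ∧ δ ≤ (b : ℝ) ^ α - (a : ℝ) ^ α} = ∅ := by
        ext ω
        simp only [Set.mem_ofPred_eq, Set.mem_empty_iff_false, iff_false]
        rintro ⟨h5, h6, h7⟩
        exact h3 ⟨h6, h7, h5.1⟩
      rw [h4]
      exact @MeasurableSet.empty _ (F A (Set.Ici N))

/-- **The almost sure law.** -/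
theorem sup_law (hA : IsModel μ (level Q) A) (hQ : 1 ≤ Q) :
    ∀ᵐ ω ∂μ, ∀ α ε : ℝ, 0 < α → α < 1 → 0 < ε → ε < 1 → ∀ᶠ N : ℕ in atTop,
      Far (A ω) α (thr α (1 - ε) N) N ∧ ¬ Far (A ω) α (thr α (1 + ε) N) N := by
  have hsing : sing Q {0} = 1 := sing_zero hQ
  have hcount : ∀ j : ℕ, (0 : ℝ) < 1 / ((j : ℝ) + 2) ∧ 1 / ((j : ℝ) + 2) < 1 := by
    intro j
    have hj : (0 : ℝ) ≤ j := Nat.cast_nonneg j
    refine ⟨by positivity, ?_⟩
    rw [div_lt_one (by positivity)]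
    linarith
  -- upper bound for the gaps
  have hup : ∀ᵐ ω ∂μ, ∀ j : ℕ, ∀ᶠ x : ℕ in atTop, ∃ n ∈ A ω, x < n ∧ (n : ℝ) ≤ x + (1 + 1 / ((j : ℝ) + 2)) * Real.log x ^ 2 := by
    rw [ae_all_iff]
    intro j
    obtain ⟨j1, j2⟩ := hcount j
    have h1 := gap_upper hA hQ (H := {0}) (by rw [hsing]; norm_num) (ε := 1 / ((j : ℝ) + 2)) j1 j2.le
    rw [hsing] at h1
    filter_upwards [h1] with ω h2
    filter_upwards [h2] with x hx
    obtain ⟨n, n1, n2, n3⟩ := hx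
    have h4 := n3 0 (mem_singleton_self 0)
    rw [add_zero] at h4
    refine ⟨n, h4, n1, ?_⟩
    simp only [card_singleton, div_one] at n2
    norm_num at n2 ⊢
    exact n2
  -- lower bound
  have hlow : ∀ᵐ ω ∂μ, ∀ j : ℕ, ∀ᶠ N : ℕ in atTop,
      (hw (1 / ((j : ℝ) + 2) / 8) (1 - 4 * (1 / ((j : ℝ) + 2))) N : ℝ) ≤ 1 / ((j : ℝ) + 2) / 8 * N ∧
      (1 - 4 * (1 / ((j : ℝ) + 2)) < 0 ∨
        Near (A ω) (1 / ((j : ℝ) + 2) / 8) (hw (1 / ((j : ℝ) + 2) / 8) (1 - 4 * (1 / ((j : ℝ) + 2))) N) N) := by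
    rw [ae_all_iff]
    intro j
    obtain ⟨j1, j2⟩ := hcount j
    obtain ⟨ε, hε⟩ : ∃ ε, ε = 1 / ((j : ℝ) + 2) := ⟨_, rfl⟩
    rw [← hε] at j1 j2 ⊢
    by_cases hneg : 1 - 4 * ε < 0
    · refine Eventually.of_forall (fun ω => ?_)
      filter_upwards [eventually_ge_atTop 1] with N hN
      refine ⟨?_, Or.inl hneg⟩
      have h1 : hw (ε / 8) (1 - 4 * ε) N = 0 := by
        unfold hw
        rw [Nat.ceil_eq_zero]
        have : 0 ≤ Real.log (N : ℝ) ^ 2 := by positivity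
        have h2 : (1 - 4 * ε) * Real.log (N : ℝ) ^ 2 ≤ 0 := mul_nonpos_of_nonpos_of_nonneg hneg.le this
        nlinarith
      rw [h1]
      have hNp : (0 : ℝ) < N := by exact_mod_cast (show 0 < N by omega)
      push_cast
      positivity
    · rw [not_lt] at hneg
      obtain ⟨c, hc, h1⟩ := tail_low hA hQ j1 j2
      have hev : ∀ᶠ N : ℕ in atTop, (1 - 4 * ε) * Real.log N ^ 2 ≤ c * N := by
        filter_upwards [ev_power (1 / c) 2 (show (0 : ℝ) < 1 by norm_num)] with N hN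
        rw [Real.rpow_one] at hN
        have h2 : Real.log (N : ℝ) ^ 2 ≤ c * N := by
          have := mul_le_mul_of_nonneg_left hN hc.le
          have h3 : c * (1 / c * Real.log (N : ℝ) ^ 2) = Real.log (N : ℝ) ^ 2 := by field_simp
          rwa [h3] at this
        have h3 : 0 ≤ Real.log (N : ℝ) ^ 2 := by positivity
        nlinarith
      have hsum : Summable (fun N : ℕ => 1 / (N : ℝ) ^ 2) := Real.summable_one_div_nat_pow.2 (by norm_num)
      have hbd : ∀ᶠ N : ℕ in atTop, μ.real {ω | ¬ Near (A ω) (ε / 8) (hw (ε / 8) (1 - 4 * ε) N) N} ≤ 1 / (N : ℝ) ^ 2 := by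
        have h2 := ev_power 2 1 (show 0 < 2 * ε by linarith)
        filter_upwards [h1, hev, h2, eventually_ge_atTop 1] with N e1 e2 e3 e4
        refine ((e1 (1 - 4 * ε) hneg e2).2).trans ?_
        have hNp : (0 : ℝ) < N := by exact_mod_cast (show 0 < N by omega)
        have hN1 : (1 : ℝ) ≤ N := by exact_mod_cast e4
        have h3 : (N : ℝ) ^ (2 * ε) ≤ (N : ℝ) ^ (1 - (1 + ε) * (1 - 4 * ε) - ε) := by
          apply Real.rpow_le_rpow_of_exponent_le hN1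
          nlinarith
        rw [pow_one] at e3
        have h4 : Real.exp (-((N : ℝ) ^ (1 - (1 + ε) * (1 - 4 * ε) - ε))) ≤ Real.exp (-(2 * Real.log N)) := by
          apply Real.exp_le_exp.2
          linarith
        refine h4.trans (le_of_eq ?_)
        have h5 : 2 * Real.log (N : ℝ) = Real.log ((N : ℝ) ^ 2) := by
          rw [Real.log_pow]
          push_cast
          ring
        rw [Real.exp_neg, h5, Real.exp_log (by positivity), one_div]
      filter_upwards [bc hsum hbd] with ω hω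
      filter_upwards [hω, h1, hev] with N e1 e2 e3
      refine ⟨(e2 (1 - 4 * ε) hneg e3).1, Or.inr ?_⟩
      by_contra hcon
      exact e1 hcon
  filter_upwards [hup, hlow, ae_typ hA hQ] with ω g1 g2 g3 α ε hα hα1 hε hε1
  have hS := g3.inf
  -- the choice of `j`
  obtain ⟨j, hj⟩ : ∃ j : ℕ, 4 * (1 / ((j : ℝ) + 2)) ≤ ε := by
    obtain ⟨j, hj⟩ := exists_nat_one_div_lt (show 0 < ε / 4 by positivity)
    refine ⟨j, ?_⟩
    have h1 : 1 / ((j : ℝ) + 2) ≤ 1 / ((j : ℝ) + 1) := one_div_le_one_div_of_le (by positivity) (by linarith)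
    linarith
  obtain ⟨j1, j2⟩ := hcount j
  have h1 := g2 j
  have h2 := g1 j
  obtain ⟨κ, hκ⟩ : ∃ κ, κ = 1 / ((j : ℝ) + 2) := ⟨_, rfl⟩
  rw [← hκ] at h1 h2 j1 j2 hj
  obtain ⟨x₀, hx₀⟩ := eventually_atTop.1 h2
  obtain ⟨β, hβ⟩ : ∃ β, β = (1 - α) / 2 := ⟨_, rfl⟩
  have hβ0 : 0 < β := by rw [hβ]; linarith
  filter_upwards [h1, eventually_ge_atTop (max x₀ 1), tendsto_natCast_atTop_atTop.eventually_ge_atTop (Real.exp (1 / β)),
    hl.eventually_ge_atTop 1] with N e1 e2 e3 e4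
  have hNx : x₀ ≤ N := le_of_max_le_left e2
  have hN1 : 1 ≤ N := le_of_max_le_right e2
  have hNp : (0 : ℝ) < N := by exact_mod_cast (show 0 < N by omega)
  have hthr_mono : ∀ l1 l2 : ℝ, l1 ≤ l2 → thr α l1 N ≤ thr α l2 N := by
    intro l1 l2 hl12
    unfold thr
    apply div_le_div_of_nonneg_right _ (by positivity)
    have : 0 ≤ α * Real.log (N : ℝ) ^ 2 := by positivity
    nlinarith
  constructor
  · obtain ⟨f1, f2⟩ := e1
    have hnn : 0 ≤ 1 - 4 * κ := by linarith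
    rcases f2 with f2 | f2
    · linarith
    · have h3 := far_of_near hS hα hα1 (by positivity) hnn hN1 f1 f2
      obtain ⟨a, b, k1, k2, k3⟩ := h3
      exact ⟨a, b, k1, k2, (hthr_mono _ _ (by linarith)).trans k3⟩
  · rintro ⟨a, b, k1, k2, k3⟩
    obtain ⟨n, hn, n1, n2⟩ := hx₀ a (by omega)
    have hbn : b ≤ n := by
      by_contra hcon
      exact k1.2.2.2 n n1 (by omega) hn
    have ha0 : (0 : ℝ) < a := by exact_mod_cast (show 0 < a by omega)
    have hNa : (N : ℝ) ≤ a := by exact_mod_cast k2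
    have hab : (a : ℝ) < b := by exact_mod_cast k1.1
    have hbn' : (b : ℝ) ≤ n := by exact_mod_cast hbn
    have h3 := (dif_bounds hα hα1 ha0 hab).2
    have h4 : (b : ℝ) - a ≤ (1 + κ) * Real.log a ^ 2 := by linarith
    -- monotonicity
    have h5 : Real.log (a : ℝ) / (a : ℝ) ^ β ≤ Real.log N / (N : ℝ) ^ β :=
      Real.log_div_self_rpow_antitoneOn hβ0 (Set.mem_Ici.2 (by rwa [one_div] at e3))
        (Set.mem_Ici.2 (by rw [one_div] at e3; exact e3.trans hNa)) hNa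
    have hla : 0 ≤ Real.log (a : ℝ) := by
      have := Real.log_le_log hNp hNa
      linarith
    have h6 : (Real.log (a : ℝ) / (a : ℝ) ^ β) ^ 2 ≤ (Real.log N / (N : ℝ) ^ β) ^ 2 :=
      pow_le_pow_left₀ (by positivity) h5 2
    have sq1 : ∀ x : ℝ, 0 < x → (x ^ β) ^ 2 = x ^ (1 - α) := by
      intro x hx
      rw [← Real.rpow_natCast, ← Real.rpow_mul hx.le, hβ]
      congr 1
      push_cast
      ring
    rw [div_pow, div_pow, sq1 _ ha0, sq1 _ hNp] at h6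
    have h7 : (a : ℝ) ^ (α - 1) = ((a : ℝ) ^ (1 - α))⁻¹ := by
      rw [← Real.rpow_neg ha0.le]
      congr 1
      ring
    have h8 : (b : ℝ) ^ α - (a : ℝ) ^ α ≤ α * (1 + κ) * (Real.log N ^ 2 / (N : ℝ) ^ (1 - α)) := by
      have har := Real.rpow_pos_of_pos ha0 (1 - α)
      calc (b : ℝ) ^ α - (a : ℝ) ^ α ≤ α * (a : ℝ) ^ (α - 1) * (b - a) := h3
        _ ≤ α * (a : ℝ) ^ (α - 1) * ((1 + κ) * Real.log a ^ 2) := mul_le_mul_of_nonneg_left h4 (by positivity)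
        _ = α * (1 + κ) * (Real.log a ^ 2 / (a : ℝ) ^ (1 - α)) := by
          rw [h7]
          field_simp
        _ ≤ _ := mul_le_mul_of_nonneg_left h6 (by positivity)
    have h9 : thr α (1 + ε) N = α * (1 + ε) * (Real.log N ^ 2 / (N : ℝ) ^ (1 - α)) := by
      unfold thr
      ring
    rw [h9] at k3
    have h10 : 0 < Real.log (N : ℝ) ^ 2 / (N : ℝ) ^ (1 - α) := by positivity
    have h11 : α * (1 + κ) * (Real.log N ^ 2 / (N : ℝ) ^ (1 - α)) < α * (1 + ε) * (Real.log N ^ 2 / (N : ℝ) ^ (1 - α)) := by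
      apply mul_lt_mul_of_pos_right _ h10
      apply mul_lt_mul_of_pos_left _ hα
      linarith
    linarith

end Pool.Agent.Q106.GMM
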