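import Pool.Agent.Q106.GMM.TailUp

/-!
# Large differences of powers of consecutive elements beyond `N`: the lower bound for the probability
-/

set_option autoImplicit false

namespace Pool.Agent.Q106.GMM

open Finset Filter Pool.Agent.Q120.GM MeasureTheory
open Pool.Agent.Q120.AD (hl)
open scoped Topology

variable {Ω : Type*} [MeasurableSpace Ω] {μ : Measure Ω} [IsProbabilityMeasure μ] {A : Ω → Set ℕ} {Q : ℕ}

/-- The window length. -/
noncomputable def hw (η lam : ℝ) (N : ℕ) : ℕ := ⌈(1 + 3 * η) * (lam * Real.log N ^ 2)⌉₊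

/-- There is an element `a` in `[N, (1+2η) N]` such that the next `h` integers are missing. -/
def Near (S : Set ℕ) (η : ℝ) (h N : ℕ) : Prop := ∃ a : ℕ, N ≤ a ∧ (a : ℝ) ≤ (1 + 2 * η) * N ∧ Long S h a

theorem compl_bound (hA : IsModel μ (level Q) A) (h J : ℕ) (st : ℕ → ℕ)
    (hst : ∀ i j, i < j → st i + h < st j) (F : Set Ω) (hF : ∀ j < J, ∀ ω ∈ F, ω ∉ Ev A h (st j)) :
    μ.real F ≤ Real.exp (-(∑ j ∈ range J, pr (level Q) h (st j))) := by
  classical
  have h1 : F ⊆ ⋂ j ∈ range J, (Ev A h (st j))ᶜ := by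
    intro ω hω
    rw [Set.mem_iInter₂]
    intro j hj
    exact hF j (mem_range.1 hj) ω hω
  refine (measureReal_mono h1 (measure_ne_top _ _)).trans ?_
  rw [indep_many hA (range J) (fun j => Set.Icc (st j) (st j + h)) ?_ (fun j => (Ev A h (st j))ᶜ)
    (fun j _ => (F_Ev h (st j)).compl)]
  · rw [← sum_neg_distrib, Real.exp_sum]
    refine Finset.prod_le_prod (fun j _ => measureReal_nonneg) (fun j _ => ?_)
    rw [measureReal_compl (meas_Ev hA h (st j)), probReal_univ, real_Ev hA]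
    exact Real.one_sub_le_exp_neg _
  · intro i _ j _ hij
    rw [Set.disjoint_left]
    intro n hn hn2
    rw [Set.mem_Icc] at hn hn2
    rcases lt_or_gt_of_ne hij with h2 | h2
    · have := hst i j h2
      omega
    · have := hst j i h2
      omega

/-- **The lower bound.** -/
theorem tail_low (hA : IsModel μ (level Q) A) (hQ : 1 ≤ Q) {ε : ℝ} (hε : 0 < ε) (hε1 : ε < 1) :
    ∃ c : ℝ, 0 < c ∧ ∀ᶠ N : ℕ in atTop, ∀ lam : ℝ, 0 ≤ lam → lam * Real.log N ^ 2 ≤ c * N →
      (hw (ε / 8) lam N : ℝ) ≤ ε / 8 * N ∧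
      μ.real {ω | ¬ Near (A ω) (ε / 8) (hw (ε / 8) lam N) N} ≤ Real.exp (-((N : ℝ) ^ (1 - (1 + ε) * lam - ε))) := by
  obtain ⟨η, hη⟩ : ∃ η, η = ε / 8 := ⟨_, rfl⟩
  have hη0 : 0 < η := by rw [hη]; positivity
  have hη1 : η < 1 / 8 := by rw [hη]; linarith
  rw [← hη]
  have hQ0 : (1 : ℝ) ≤ Q := by exact_mod_cast hQ
  have hq := qq_pos hQ
  have hq1 : 1 ≤ qq Q := by
    unfold qq
    have h1 : Nat.totient Q ≤ Q := Nat.totient_le Q
    have h2 : (0 : ℝ) < Nat.totient Q := by exact_mod_cast Nat.totient_pos.2 hQ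
    rw [le_div_iff₀ h2, one_mul]
    exact_mod_cast h1
  refine ⟨η / (16 * Q), by positivity, ?_⟩
  obtain ⟨C1, hC1⟩ : ∃ C1, C1 = Real.log (16 * Q / η) + K2 Q + 2 := ⟨_, rfl⟩
  have hlit : ∀ᶠ N : ℕ in atTop, C1 + 4 * Real.log (Real.log N) ≤ ε / 2 * Real.log N := by
    have h1 := (loglog.const_mul 4).eventually_le_const (show 4 * (0 : ℝ) < ε / 4 by linarith)
    have h2 := hl.eventually_ge_atTop (4 * C1 / ε)
    filter_upwards [h1, h2, hl.eventually_ge_atTop 1] with N e1 e2 e3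
    rw [mul_div_assoc', div_le_iff₀ (by linarith)] at e1
    rw [div_le_iff₀ hε] at e2
    linarith
  filter_upwards [hlit, hl.eventually_ge_atTop (2 * qq Q + 2 + qq Q * 2 / η), hl.eventually_ge_atTop (16 / ε),
    eventually_ge_atTop 3, tendsto_natCast_atTop_atTop.eventually_ge_atTop (16 * (Q : ℝ) / η)] with N e1 e2 e3 e4 e5 lam hlam0 hlam
  have hN3 : (3 : ℝ) ≤ N := by exact_mod_cast e4
  have hNp : (0 : ℝ) < N := by linarith
  obtain ⟨L, hLd⟩ : ∃ L, L = Real.log (N : ℝ) := ⟨_, rfl⟩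
  rw [← hLd] at e1 e2 e3 hlam
  have hqη : 0 ≤ qq Q * 2 / η := by positivity
  have hL2 : 2 ≤ L := by linarith
  obtain ⟨h, hh⟩ : ∃ h, h = hw η lam N := ⟨_, rfl⟩
  rw [← hh]
  have hh1 : (1 + 3 * η) * (lam * L ^ 2) ≤ h := by
    rw [hh, hLd]
    exact Nat.le_ceil _
  have hh2 : (h : ℝ) < (1 + 3 * η) * (lam * L ^ 2) + 1 := by
    rw [hh, hLd]
    exact Nat.ceil_lt_add_one (by positivity)
  have hlamL : 0 ≤ lam * L ^ 2 := by positivity
  -- `Q (h + 1) ≤ η N / 2`
  have hQh : (Q : ℝ) * (h + 1) ≤ η * N / 4 := by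
    have h1 : (h : ℝ) + 1 ≤ 2 * (η / (16 * Q) * N) + 2 := by
      have : (1 + 3 * η) * (lam * L ^ 2) ≤ 2 * (lam * L ^ 2) := by nlinarith
      linarith
    have h2 : (Q : ℝ) * (h + 1) ≤ Q * (2 * (η / (16 * Q) * N) + 2) := mul_le_mul_of_nonneg_left h1 (by linarith)
    have h3 : (Q : ℝ) * (2 * (η / (16 * Q) * N) + 2) = η * N / 8 + 2 * Q := by
      field_simp
      ring
    have h4 : 2 * (Q : ℝ) ≤ η * N / 8 := by
      rw [div_le_iff₀ hη0] at e5
      linarith
    linarith
  have hhN : (h : ℝ) ≤ η * N := by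
    have h1 : (h : ℝ) + 1 ≤ Q * (h + 1) := by
      have : (0 : ℝ) ≤ h := Nat.cast_nonneg h
      nlinarith
    have : 0 ≤ η * N := by positivity
    linarith
  refine ⟨hhN, ?_⟩
  -- the starting points
  obtain ⟨w, hw⟩ : ∃ w, w = Q * (h + 1) := ⟨_, rfl⟩
  obtain ⟨J, hJ⟩ : ∃ J, J = ⌊η * N / w⌋₊ := ⟨_, rfl⟩
  obtain ⟨st, hst⟩ : ∃ st : ℕ → ℕ, st = fun j => Q * (N / Q + 1) + 1 + j * w := ⟨_, rfl⟩
  have hwr : (w : ℝ) = Q * (h + 1) := by rw [hw]; push_cast; ring
  have hw0 : (0 : ℝ) < w := by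
    rw [hwr]
    have : (0 : ℝ) ≤ h := Nat.cast_nonneg h
    positivity
  have hwh : h + 1 ≤ w := by
    rw [hw]
    exact Nat.le_mul_of_pos_left _ (by omega)
  have hcop : ∀ j, (st j).Coprime Q := by
    intro j
    rw [hst, hw]
    show (Q * (N / Q + 1) + 1 + j * (Q * (h + 1))).Coprime Q
    have h1 : Q * (N / Q + 1) + 1 + j * (Q * (h + 1)) = 1 + Q * (N / Q + 1 + j * (h + 1)) := by ring
    rw [h1, Nat.coprime_add_mul_left_left]
    exact Nat.coprime_one_left Q
  have hge : ∀ j, N ≤ st j := by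
    intro j
    rw [hst]
    have h1 := Nat.lt_mul_div_succ N (show 0 < Q by omega)
    show N ≤ Q * (N / Q + 1) + 1 + j * w
    have h2 : Q * (N / Q + 1) = Q * (N / Q).succ := rfl
    rw [h2]
    omega
  have hle : ∀ j < J, (st j : ℝ) ≤ (1 + 2 * η) * N := by
    intro j hj
    have h1 : ((Q * (N / Q + 1) : ℕ) : ℝ) ≤ N + Q := by
      have h2 : Q * (N / Q) ≤ N := Nat.mul_div_le N Q
      have h3 : Q * (N / Q + 1) ≤ N + Q := by
        rw [mul_add, mul_one]
        omega
      exact_mod_cast h3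
    have h2 : ((j * w : ℕ) : ℝ) ≤ η * N - w := by
      have h3 : (J : ℝ) ≤ η * N / w := by
        rw [hJ]
        exact Nat.floor_le (by positivity)
      have h4 : (j : ℝ) + 1 ≤ J := by exact_mod_cast hj
      rw [le_div_iff₀ hw0] at h3
      push_cast
      nlinarith
    have h3 : (1 : ℝ) ≤ w := by exact_mod_cast (show 1 ≤ w by omega)
    rw [div_le_iff₀ hη0] at e5
    rw [hst]
    show ((Q * (N / Q + 1) + 1 + j * w : ℕ) : ℝ) ≤ _
    rw [Nat.cast_add, Nat.cast_add, Nat.cast_one]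
    have hηN : 0 ≤ η * N := by positivity
    nlinarith
  refine (compl_bound hA h J st ?_ _ ?_).trans ?_
  · intro i j hij
    rw [hst]
    show Q * (N / Q + 1) + 1 + i * w + h < Q * (N / Q + 1) + 1 + j * w
    have h1 : (i + 1) * w ≤ j * w := Nat.mul_le_mul_right w hij
    have h2 : (i + 1) * w = i * w + w := by ring
    omega
  · intro j hj ω hω hω2
    rw [mem_Ev] at hω2
    exact hω ⟨st j, hge j, hle j hj, hω2⟩
  -- the sum of the probabilities
  apply Real.exp_le_exp.2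
  rw [neg_le_neg_iff]
  have hly : qq Q < Real.log (N : ℝ) := by rw [← hLd]; linarith
  have hlog2 : Real.log 2 ≤ 1 := by
    have := Real.log_two_lt_d9
    linarith
  have hone : ∀ j ∈ range J, (1 / (2 * L)) * (Real.exp (-(K2 Q)) * Real.exp (-(1 + (1 + 4 * η) * lam * L))) ≤
      pr (level Q) h (st j) := by
    intro j hj
    rw [mem_range] at hj
    refine le_trans ?_ (le_pr (Q := Q) hQ (a := st j) (h := h) (y := (N : ℝ)) hNp (by exact_mod_cast hge j) hly)
    rw [← hLd]
    have g1 : 1 / (2 * L) ≤ level Q (st j) := by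
      have h1 := le_level (Q := Q) (m := st j) (x := (N : ℝ)) (y := 2 * N) hly.le (by linarith) hNp (by exact_mod_cast hge j)
        ((hle j hj).trans (by nlinarith)) (hcop j)
      refine le_trans ?_ h1
      have h2 : Real.log (2 * (N : ℝ)) = Real.log 2 + L := by rw [Real.log_mul (by norm_num) hNp.ne', hLd]
      have hlog0 : 0 < Real.log 2 := Real.log_pos (by norm_num)
      rw [h2, div_le_div_iff₀ (by positivity) (by positivity)]
      nlinarith
    have hLq : 1 ≤ L - qq Q := by linarith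
    have g2 : Real.exp (-(K2 Q)) ≤ Real.exp (-(K2 Q) / (L - qq Q)) := by
      apply Real.exp_le_exp.2
      rw [neg_div, neg_le_neg_iff]
      exact div_le_self (K2_nonneg Q) hLq
    have g3 : Real.exp (-(1 + (1 + 4 * η) * lam * L)) ≤ Real.exp (-(h : ℝ) / (L - qq Q)) := by
      apply Real.exp_le_exp.2
      rw [neg_div, neg_le_neg_iff, div_le_iff₀ (by linarith)]
      refine hh2.le.trans ?_
      have h1 : (1 + 3 * η) * L ≤ (1 + 4 * η) * (L - qq Q) := by
        have h2 : qq Q * 2 / η ≤ L := by linarith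
        rw [div_le_iff₀ hη0] at h2
        nlinarith
      have h3 := mul_le_mul_of_nonneg_left h1 (show 0 ≤ lam * L by positivity)
      nlinarith
    exact mul_le_mul g1 (mul_le_mul g2 g3 (Real.exp_pos _).le (Real.exp_pos _).le) (by positivity) (level_nonneg Q _)
  refine le_trans ?_ (sum_le_sum hone)
  rw [sum_const, card_range, nsmul_eq_mul]
  have hJ1 : N * η / (2 * Q * (h + 1)) ≤ (J : ℝ) := by
    have h1 : η * N / w < (J : ℝ) + 1 := by
      rw [hJ]
      exact Nat.lt_floor_add_one _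
    have h2 : 2 ≤ η * N / w := by
      rw [le_div_iff₀ hw0, hwr]
      have : 0 ≤ η * N := by positivity
      linarith
    have h3 : N * η / (2 * Q * (h + 1)) = (η * N / w) / 2 := by
      rw [hwr]
      field_simp
    rw [h3]
    linarith
  have hhp : (h : ℝ) + 1 ≤ 4 * ((lam + 1) * L ^ 2) := by
    have h1 : (1 + 3 * η) * (lam * L ^ 2) ≤ 2 * (lam * L ^ 2) := by nlinarith
    have h2 : (1 : ℝ) ≤ L ^ 2 := by nlinarith
    nlinarith
  have hJ2 : (N : ℝ) * (η / (8 * Q)) * (1 / ((lam + 1) * L ^ 2)) ≤ J := by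
    refine le_trans ?_ hJ1
    have h1 : (0 : ℝ) < h + 1 := by
      have : (0 : ℝ) ≤ h := Nat.cast_nonneg h
      linarith
    have h2 : (N : ℝ) * (η / (8 * Q)) * (1 / ((lam + 1) * L ^ 2)) = N * η / (2 * Q * (4 * ((lam + 1) * L ^ 2))) := by
      field_simp
      ring
    rw [h2]
    apply div_le_div_of_nonneg_left (by positivity) (by positivity)
    exact mul_le_mul_of_nonneg_left hhp (by positivity)
  have hfin : (N : ℝ) ^ (1 - (1 + ε) * lam - ε) ≤ ((N : ℝ) * (η / (8 * Q)) * (1 / ((lam + 1) * L ^ 2))) *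
      ((1 / (2 * L)) * (Real.exp (-(K2 Q)) * Real.exp (-(1 + (1 + 4 * η) * lam * L)))) := by
    have hL0 : 0 < L := by linarith
    have hlp : 0 < lam + 1 := by linarith
    have hrew : ((N : ℝ) * (η / (8 * Q)) * (1 / ((lam + 1) * L ^ 2))) *
      ((1 / (2 * L)) * (Real.exp (-(K2 Q)) * Real.exp (-(1 + (1 + 4 * η) * lam * L)))) =
      Real.exp (L - Real.log (16 * Q / η) - Real.log (lam + 1) - 3 * Real.log L - K2 Q - (1 + (1 + 4 * η) * lam * L)) := by
      have x1 : (N : ℝ) = Real.exp L := by rw [hLd, Real.exp_log hNp]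
      have x2 : η / (16 * Q) = Real.exp (-(Real.log (16 * Q / η))) := by
        rw [Real.exp_neg, Real.exp_log (by positivity), inv_div]
      have x3 : 1 / (lam + 1) = Real.exp (-(Real.log (lam + 1))) := by
        rw [Real.exp_neg, Real.exp_log hlp, one_div]
      have x4 : 1 / L ^ 3 = Real.exp (-(3 * Real.log L)) := by
        rw [Real.exp_neg, one_div]
        congr 1
        have : 3 * Real.log L = Real.log (L ^ 3) := by
          rw [Real.log_pow]
          push_cast
          ring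
        rw [this, Real.exp_log (by positivity)]
      have x5 : ((N : ℝ) * (η / (8 * Q)) * (1 / ((lam + 1) * L ^ 2))) *
        ((1 / (2 * L)) * (Real.exp (-(K2 Q)) * Real.exp (-(1 + (1 + 4 * η) * lam * L)))) =
        N * (η / (16 * Q)) * (1 / (lam + 1)) * (1 / L ^ 3) * (Real.exp (-(K2 Q)) * Real.exp (-(1 + (1 + 4 * η) * lam * L))) := by
        field_simp
        ring
      rw [x5, x2, x3, x4, x1, ← Real.exp_add, ← Real.exp_add, ← Real.exp_add, ← Real.exp_add, ← Real.exp_add]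
      congr 1
      ring
    rw [hrew, Real.rpow_def_of_pos hNp, ← hLd]
    apply Real.exp_le_exp.2
    have y1 : Real.log (lam + 1) ≤ lam := by
      have := Real.log_le_sub_one_of_pos hlp
      linarith
    have y2 : lam ≤ ε / 2 * (lam * L) := by
      rw [div_le_iff₀ hε] at e3
      nlinarith
    have y3 : 0 ≤ Real.log L := Real.log_nonneg (by linarith)
    have y4 : 4 * η * (lam * L) = ε / 2 * (lam * L) := by rw [hη]; ring
    rw [hC1] at e1
    nlinarith
  refine hfin.trans ?_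
  exact mul_le_mul_of_nonneg_right hJ2 (by positivity)

end Pool.Agent.Q106.GMM
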