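import Pool.Agent.Q106.GMM.Fin

/-!
# Large differences of powers of consecutive elements beyond `N`: the upper bound for the probability
-/

set_option autoImplicit false

namespace Pool.Agent.Q106.GMM

open Finset Filter Pool.Agent.Q120.GM MeasureTheory
open Pool.Agent.Q120.AD (hl)
open scoped Topology

/-- There are consecutive elements `a < b` of `S` with `a ≥ N` and `b^α - a^α ≥ δ`. -/
def Far (S : Set ℕ) (α δ : ℝ) (N : ℕ) : Prop :=
  ∃ a b : ℕ, IsGap S a b ∧ N ≤ a ∧ δ ≤ (b : ℝ) ^ α - (a : ℝ) ^ α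

/-- The threshold `λ α log²N / N^(1-α)`. -/
noncomputable def thr (α lam : ℝ) (N : ℕ) : ℝ := lam * α * Real.log N ^ 2 / (N : ℝ) ^ (1 - α)

theorem key_up {r ε : ℝ} (hr : 0 < r) (hε : 0 < ε) (hε1 : ε < 1) : ∃ L0 : ℝ, 1 ≤ L0 ∧ ∀ L, L0 ≤ L → ∀ u : ℝ, 0 ≤ u →
    (L + Real.log 2 + u) * ((1 - ε / 2) * L + (2 / ε) * u) ≤ L ^ 2 * (1 + r * u + (r * u) ^ 2 / 2) := by
  obtain ⟨K, hK⟩ : ∃ K, K = 2 / ε := ⟨_, rfl⟩
  have hK0 : 0 < K := by rw [hK]; positivity
  have hKe : K * ε = 2 := by rw [hK]; field_simp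
  have h1 : 0 ≤ (2 * K + 1) / r := by positivity
  have h2 : 0 ≤ 2 * K / r ^ 2 := by positivity
  refine ⟨K + (2 * K + 1) / r + 2 * K / r ^ 2 + 1, by linarith, fun L hL u hu => ?_⟩
  rw [← hK]
  have hlog : Real.log 2 ≤ 1 := by
    have := Real.log_two_lt_d9
    linarith
  have hlog0 : 0 ≤ Real.log 2 := Real.log_nonneg (by norm_num)
  have hL1 : 1 ≤ L := by linarith
  have hL0 : 0 < L := by linarith
  have e1 : L ≤ L ^ 2 * (ε / 2) := by
    have : K ≤ L := by linarith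
    have : 1 ≤ L * (ε / 2) := by nlinarith
    nlinarith
  have e2 : (2 * K + 1) * L ≤ r * L ^ 2 := by
    have h3 : (2 * K + 1) / r ≤ L := by linarith
    rw [div_le_iff₀ hr] at h3
    nlinarith
  have e3 : K ≤ r ^ 2 * L ^ 2 / 2 := by
    have h3 : 2 * K / r ^ 2 ≤ L := by linarith
    rw [div_le_iff₀ (by positivity)] at h3
    have h4 : L ≤ L ^ 2 := by nlinarith
    have h5 : 0 < r ^ 2 := by positivity
    nlinarith
  have f1 : 0 ≤ L ^ 2 * (ε / 2) - (1 - ε / 2) * L * Real.log 2 := by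
    have h3 : (1 - ε / 2) * L * Real.log 2 ≤ L := by
      have h4 : (1 - ε / 2) * L ≤ L := by nlinarith
      have h5 : 0 ≤ (1 - ε / 2) * L := by
        apply mul_nonneg _ hL0.le
        linarith
      nlinarith
    linarith
  have f2 : 0 ≤ u * (r * L ^ 2 - K * L - K * Real.log 2 - (1 - ε / 2) * L) := by
    apply mul_nonneg hu
    have h3 : K * Real.log 2 ≤ K * L := by nlinarith
    have h4 : (1 - ε / 2) * L ≤ L := by nlinarith
    nlinarith
  have f3 : 0 ≤ u ^ 2 * (r ^ 2 * L ^ 2 / 2 - K) := by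
    apply mul_nonneg (sq_nonneg u)
    linarith
  nlinarith

theorem real_le_of_union {Ω : Type*} [MeasurableSpace Ω] {μ : Measure Ω} [IsProbabilityMeasure μ] {E : ℕ → Set Ω}
    {F : Set Ω} {f : ℕ → ℝ} (hF : F ⊆ ⋃ i, E i) (hf : ∀ i, μ.real (E i) ≤ f i) (hs : Summable f) :
    μ.real F ≤ ∑' i, f i := by
  have h0 : ∀ i, 0 ≤ f i := fun i => measureReal_nonneg.trans (hf i)
  have h1 : μ F ≤ ENNReal.ofReal (∑' i, f i) := by
    calc μ F ≤ μ (⋃ i, E i) := measure_mono hF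
      _ ≤ ∑' i, μ (E i) := measure_iUnion_le _
      _ ≤ ∑' i, ENNReal.ofReal (f i) := by
        refine ENNReal.tsum_le_tsum (fun i => ?_)
        rw [← ofReal_measureReal (measure_ne_top _ _)]
        exact ENNReal.ofReal_le_ofReal (hf i)
      _ = ENNReal.ofReal (∑' i, f i) := (ENNReal.ofReal_tsum_of_nonneg h0 hs).symm
  have h2 := ENNReal.toReal_mono ENNReal.ofReal_ne_top h1
  rwa [ENNReal.toReal_ofReal (tsum_nonneg h0)] at h2

theorem sum_sq {N : ℕ} (hN : 1 ≤ N) : Summable (fun i : ℕ => ((N : ℝ) / ((N + i : ℕ) : ℝ)) ^ 2) ∧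
    ∑' i : ℕ, ((N : ℝ) / ((N + i : ℕ) : ℝ)) ^ 2 ≤ 2 * N := by
  have hN0 : (1 : ℝ) ≤ N := by exact_mod_cast hN
  have h1 : ∀ n : ℕ, ∑ i ∈ range n, ((N : ℝ) / ((N + i : ℕ) : ℝ)) ^ 2 ≤ 2 * (N : ℝ) ^ 2 * (1 / N - 1 / ((N + n : ℕ) : ℝ)) := by
    intro n
    induction n with
    | zero => simp
    | succ n ih =>
      rw [sum_range_succ]
      have h2 : ((N : ℝ) / ((N + n : ℕ) : ℝ)) ^ 2 ≤ 2 * (N : ℝ) ^ 2 * (1 / ((N + n : ℕ) : ℝ) - 1 / ((N + (n + 1) : ℕ) : ℝ)) := by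
        obtain ⟨m, hm⟩ : ∃ m : ℝ, m = ((N + n : ℕ) : ℝ) := ⟨_, rfl⟩
        have hm1 : 1 ≤ m := by
          rw [hm]
          have : (0 : ℝ) ≤ n := Nat.cast_nonneg n
          push_cast
          linarith
        have h3 : ((N + (n + 1) : ℕ) : ℝ) = m + 1 := by
          rw [hm]
          push_cast
          ring
        rw [h3, ← hm, div_pow]
        have h4 : 1 / m - 1 / (m + 1) = 1 / (m * (m + 1)) := by field_simp; ring
        rw [h4, mul_one_div, div_le_div_iff₀ (by positivity) (by positivity)]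
        have h5 : m * (m + 1) ≤ 2 * m ^ 2 := by nlinarith
        have h6 : (0 : ℝ) < (N : ℝ) ^ 2 := by positivity
        nlinarith
      linarith
  have h2 : ∀ n : ℕ, ∑ i ∈ range n, ((N : ℝ) / ((N + i : ℕ) : ℝ)) ^ 2 ≤ 2 * N := by
    intro n
    refine (h1 n).trans ?_
    have h3 : (0 : ℝ) ≤ 1 / ((N + n : ℕ) : ℝ) := by positivity
    have h4 : 2 * (N : ℝ) ^ 2 * (1 / N - 1 / ((N + n : ℕ) : ℝ)) ≤ 2 * (N : ℝ) ^ 2 * (1 / N) := by
      apply mul_le_mul_of_nonneg_left _ (by positivity)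
      linarith
    refine h4.trans (le_of_eq ?_)
    field_simp
  have h3 : Summable (fun i : ℕ => ((N : ℝ) / ((N + i : ℕ) : ℝ)) ^ 2) :=
    summable_of_sum_range_le (fun i => by positivity) h2
  exact ⟨h3, h3.tsum_le_of_sum_range_le h2⟩

variable {Ω : Type*} [MeasurableSpace Ω] {μ : Measure Ω} [IsProbabilityMeasure μ] {A : Ω → Set ℕ} {Q : ℕ}

/-- **The upper bound.** -/
theorem tail_up (hA : IsModel μ (level Q) A) (hQ : 1 ≤ Q) {α ε : ℝ} (hα : 0 < α) (hα1 : α < 1) (hε : 0 < ε) (hε1 : ε < 1) :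
    ∀ᶠ N : ℕ in atTop, ∀ lam : ℝ, ε ≤ lam → lam * Real.log N ^ 2 ≤ N →
      μ.real {ω | Far (A ω) α (thr α lam N) N} ≤ (N : ℝ) ^ (1 - (1 - ε) * lam) := by
  obtain ⟨r, hr⟩ : ∃ r, r = 1 - α := ⟨_, rfl⟩
  have hr0 : 0 < r := by linarith
  have hr1 : r ≤ 1 := by linarith
  obtain ⟨L0, hL01, hL0⟩ := key_up hr0 hε hε1
  obtain ⟨C, hC⟩ : ∃ C, C = Real.exp (K2 Q + 1) := ⟨_, rfl⟩
  have hC0 : 0 < C := by rw [hC]; exact Real.exp_pos _
  have hpow : Tendsto (fun N : ℕ => (N : ℝ) ^ (ε ^ 2 / 2)) atTop atTop :=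
    (tendsto_rpow_atTop (by positivity)).comp tendsto_natCast_atTop_atTop
  filter_upwards [hl.eventually_ge_atTop L0, hl.eventually_ge_atTop (qq Q), eventually_ge_atTop 1,
    hpow.eventually_ge_atTop (2 * C)] with N e1 e2 e3 e4 lam hlam hlam2
  have hN0 : (1 : ℝ) ≤ N := by exact_mod_cast e3
  have hNp : (0 : ℝ) < N := by linarith
  obtain ⟨L, hLd⟩ : ∃ L, L = Real.log (N : ℝ) := ⟨_, rfl⟩
  rw [← hLd] at e1 e2 hlam2
  have hL1 : 1 ≤ L := hL01.trans e1
  have hlam0 : 0 < lam := by linarith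
  obtain ⟨g, hg⟩ : ∃ g : ℕ → ℝ, g = fun (a : ℕ) => lam * L ^ 2 * ((a : ℝ) / N) ^ r := ⟨_, rfl⟩
  obtain ⟨hh, hhd⟩ : ∃ hh : ℕ → ℕ, hh = fun a => ⌈g a⌉₊ - 1 := ⟨_, rfl⟩
  have hg0 : ∀ a, 0 ≤ g a := fun a => by rw [hg]; positivity
  -- the union
  have hF : {ω | Far (A ω) α (thr α lam N) N} ⊆ ⋃ i : ℕ, Ev A (hh (N + i)) (N + i) := by
    intro ω hω
    obtain ⟨a, b, ⟨h1, h2, h3, h4⟩, h5, h6⟩ := hω
    rw [Set.mem_iUnion]
    refine ⟨a - N, ?_⟩
    rw [show N + (a - N) = a by omega, mem_Ev]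
    refine ⟨h2, fun n hn1 hn2 => h4 n hn1 ?_⟩
    have ha0 : (0 : ℝ) < a := by
      have : (N : ℝ) ≤ a := by exact_mod_cast h5
      linarith
    have hab : (a : ℝ) < b := by exact_mod_cast h1
    have h7 := (dif_bounds hα hα1 ha0 hab).2
    have h8 : g a ≤ (b : ℝ) - a := by
      have h9 : thr α lam N ≤ α * (a : ℝ) ^ (α - 1) * (b - a) := h6.trans h7
      have h10 : (0 : ℝ) < (a : ℝ) ^ r := Real.rpow_pos_of_pos ha0 r
      have h11 : (0 : ℝ) < (N : ℝ) ^ r := Real.rpow_pos_of_pos hNp r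
      have h12 : (a : ℝ) ^ (α - 1) = ((a : ℝ) ^ r)⁻¹ := by
        rw [← Real.rpow_neg ha0.le, hr]
        congr 1
        ring
      rw [h12] at h9
      unfold thr at h9
      rw [← hLd, ← hr] at h9
      rw [hg]
      show lam * L ^ 2 * ((a : ℝ) / N) ^ r ≤ b - a
      rw [Real.div_rpow ha0.le hNp.le]
      have h13 : lam * α * L ^ 2 / (N : ℝ) ^ r = (lam * L ^ 2 * ((a : ℝ) ^ r / (N : ℝ) ^ r)) * (α * ((a : ℝ) ^ r)⁻¹) := by
        field_simp
      have h14 : α * ((a : ℝ) ^ r)⁻¹ * ((b : ℝ) - a) = (b - a) * (α * ((a : ℝ) ^ r)⁻¹) := by ring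
      rw [h13, h14] at h9
      exact le_of_mul_le_mul_right h9 (by positivity)
    have h9 : ⌈g a⌉₊ ≤ b - a := by
      rw [Nat.ceil_le, Nat.cast_sub h1.le]
      exact h8
    rw [hhd] at hn2
    simp only at hn2
    omega
  -- the probabilities
  have hprob : ∀ i : ℕ, μ.real (Ev A (hh (N + i)) (N + i)) ≤
      (C * (N : ℝ) ^ (-((1 - ε / 2) * lam))) * ((N : ℝ) / ((N + i : ℕ) : ℝ)) ^ 2 := by
    intro i
    obtain ⟨a, ha⟩ : ∃ a, a = N + i := ⟨_, rfl⟩
    rw [← ha]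
    have haN : N ≤ a := by omega
    have haN' : (N : ℝ) ≤ a := by exact_mod_cast haN
    have ha0 : (0 : ℝ) < a := by linarith
    obtain ⟨u, hu⟩ : ∃ u, u = Real.log ((a : ℝ) / N) := ⟨_, rfl⟩
    have hu0 : 0 ≤ u := by
      rw [hu]
      apply Real.log_nonneg
      rw [le_div_iff₀ hNp]
      linarith
    have hz : Real.log (2 * (a : ℝ)) = L + Real.log 2 + u := by
      rw [hu, hLd, Real.log_div ha0.ne' hNp.ne', Real.log_mul (by norm_num) ha0.ne']
      ring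
    have hlog0 : 0 ≤ Real.log 2 := Real.log_nonneg (by norm_num)
    have hz1 : 1 ≤ Real.log (2 * (a : ℝ)) := by rw [hz]; linarith
    have hga : g a ≤ a := by
      rw [hg]
      show lam * L ^ 2 * ((a : ℝ) / N) ^ r ≤ a
      have h1 : ((a : ℝ) / N) ^ r ≤ (a : ℝ) / N := by
        have h2 : (1 : ℝ) ≤ (a : ℝ) / N := by
          rw [le_div_iff₀ hNp]
          linarith
        calc ((a : ℝ) / N) ^ r ≤ ((a : ℝ) / N) ^ (1 : ℝ) := Real.rpow_le_rpow_of_exponent_le h2 hr1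
          _ = _ := Real.rpow_one _
      calc lam * L ^ 2 * ((a : ℝ) / N) ^ r ≤ N * ((a : ℝ) / N) := by
            apply mul_le_mul hlam2 h1 (by positivity) hNp.le
        _ = a := by field_simp
    have hceil : (⌈g a⌉₊ : ℝ) < g a + 1 := Nat.ceil_lt_add_one (hg0 a)
    have hceil2 : g a ≤ (⌈g a⌉₊ : ℝ) := Nat.le_ceil _
    have hh1 : (hh a : ℝ) ≤ g a := by
      rw [hhd]
      show ((⌈g a⌉₊ - 1 : ℕ) : ℝ) ≤ g a
      by_cases h0 : ⌈g a⌉₊ = 0
      · rw [h0]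
        simpa using hg0 a
      · rw [Nat.cast_sub (by omega), Nat.cast_one]
        linarith
    have hh2 : g a - 1 ≤ hh a := by
      rw [hhd]
      show g a - 1 ≤ ((⌈g a⌉₊ - 1 : ℕ) : ℝ)
      by_cases h0 : ⌈g a⌉₊ = 0
      · rw [h0]
        rw [h0] at hceil2
        push_cast at hceil2 ⊢
        linarith
      · rw [Nat.cast_sub (by omega), Nat.cast_one]
        linarith
    rw [real_Ev hA]
    have h1 := pr_le (Q := Q) hQ (a := a) (h := hh a) (z := 2 * (a : ℝ)) (by omega) (by push_cast; linarith)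
      (by rw [hz]; linarith)
    refine h1.trans ?_
    have h2 : Real.exp (K2 Q / Real.log (2 * (a : ℝ))) ≤ Real.exp (K2 Q) := by
      apply Real.exp_le_exp.2
      exact div_le_self (K2_nonneg Q) hz1
    have h3 : (1 - ε / 2) * L + (2 / ε) * u ≤ L ^ 2 * ((a : ℝ) / N) ^ r / Real.log (2 * (a : ℝ)) := by
      rw [le_div_iff₀ (by linarith), hz, mul_comm]
      refine (hL0 L e1 u hu0).trans ?_
      apply mul_le_mul_of_nonneg_left _ (by positivity)
      have h4 : ((a : ℝ) / N) ^ r = Real.exp (r * u) := by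
        rw [Real.rpow_def_of_pos (by positivity), hu, mul_comm]
      rw [h4]
      have := Real.quadratic_le_exp_of_nonneg (mul_nonneg hr0.le hu0)
      linarith
    have h4 : Real.exp (-(hh a : ℝ) / Real.log (2 * (a : ℝ))) ≤ Real.exp (1 - ((1 - ε / 2) * lam * L + 2 * u)) := by
      apply Real.exp_le_exp.2
      have h5 : g a / Real.log (2 * (a : ℝ)) - 1 ≤ (hh a : ℝ) / Real.log (2 * (a : ℝ)) := by
        have h6 : (g a - 1) / Real.log (2 * (a : ℝ)) ≤ (hh a : ℝ) / Real.log (2 * (a : ℝ)) :=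
          div_le_div_of_nonneg_right hh2 (by linarith)
        have h7 : 1 / Real.log (2 * (a : ℝ)) ≤ 1 := by
          rw [div_le_one (by linarith)]
          exact hz1
        rw [sub_div] at h6
        linarith
      have h6 : g a / Real.log (2 * (a : ℝ)) = lam * (L ^ 2 * ((a : ℝ) / N) ^ r / Real.log (2 * (a : ℝ))) := by
        rw [hg]
        ring
      have h7 := mul_le_mul_of_nonneg_left h3 hlam0.le
      have h8 : 2 * u ≤ lam * (2 / ε * u) := by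
        have h9 : 2 ≤ lam * (2 / ε) := by
          rw [mul_div_assoc', le_div_iff₀ hε]
          linarith
        nlinarith
      rw [neg_div]
      nlinarith
    have h5 : Real.exp (1 - ((1 - ε / 2) * lam * L + 2 * u)) =
        Real.exp 1 * ((N : ℝ) ^ (-((1 - ε / 2) * lam)) * ((N : ℝ) / a) ^ 2) := by
      have h6 : (N : ℝ) ^ (-((1 - ε / 2) * lam)) = Real.exp (-((1 - ε / 2) * lam * L)) := by
        rw [Real.rpow_def_of_pos hNp, hLd]
        congr 1
        ring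
      have h7 : ((N : ℝ) / a) ^ 2 = Real.exp (-(2 * u)) := by
        have h8 : (N : ℝ) / a = Real.exp (-u) := by
          rw [Real.exp_neg, hu, Real.exp_log (by positivity), inv_div]
        rw [h8, ← Real.exp_nat_mul]
        congr 1
        push_cast
        ring
      rw [h6, h7, ← Real.exp_add, ← Real.exp_add]
      congr 1
      ring
    rw [h5] at h4
    have h6 : Real.exp (K2 Q / Real.log (2 * (a : ℝ))) * Real.exp (-(hh a : ℝ) / Real.log (2 * (a : ℝ))) ≤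
        Real.exp (K2 Q) * (Real.exp 1 * ((N : ℝ) ^ (-((1 - ε / 2) * lam)) * ((N : ℝ) / a) ^ 2)) :=
      mul_le_mul h2 h4 (Real.exp_pos _).le (Real.exp_pos _).le
    have h7 : level Q a * (Real.exp (K2 Q / Real.log (2 * (a : ℝ))) * Real.exp (-(hh a : ℝ) / Real.log (2 * (a : ℝ)))) ≤
        1 * (Real.exp (K2 Q) * (Real.exp 1 * ((N : ℝ) ^ (-((1 - ε / 2) * lam)) * ((N : ℝ) / a) ^ 2))) :=
      mul_le_mul (level_le_one Q a) h6 (by positivity) zero_le_one
    refine h7.trans (le_of_eq ?_)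
    rw [hC, Real.exp_add]
    ring
  obtain ⟨hs1, hs2⟩ := sum_sq e3
  have hfin := real_le_of_union (μ := μ) hF hprob (hs1.mul_left _)
  rw [tsum_mul_left] at hfin
  refine hfin.trans ?_
  have hNpow := Real.rpow_pos_of_pos hNp (-((1 - ε / 2) * lam))
  have h1 : C * (N : ℝ) ^ (-((1 - ε / 2) * lam)) * ∑' i : ℕ, ((N : ℝ) / ((N + i : ℕ) : ℝ)) ^ 2 ≤
      C * (N : ℝ) ^ (-((1 - ε / 2) * lam)) * (2 * N) := mul_le_mul_of_nonneg_left hs2 (by positivity)
  refine h1.trans ?_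
  have h2 : (N : ℝ) ^ (1 - (1 - ε) * lam) = (N : ℝ) ^ (ε * lam / 2) * ((N : ℝ) ^ (-((1 - ε / 2) * lam)) * N) := by
    rw [← Real.rpow_add_one hNp.ne', ← Real.rpow_add hNp]
    congr 1
    ring
  rw [h2]
  have h3 : 2 * C ≤ (N : ℝ) ^ (ε * lam / 2) := by
    refine e4.trans (Real.rpow_le_rpow_of_exponent_le hN0 ?_)
    nlinarith
  have h4 : C * (N : ℝ) ^ (-((1 - ε / 2) * lam)) * (2 * N) = (2 * C) * ((N : ℝ) ^ (-((1 - ε / 2) * lam)) * N) := by ring
  rw [h4]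
  exact mul_le_mul_of_nonneg_right h3 (by positivity)

end Pool.Agent.Q106.GMM
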